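import Mathlib.MeasureTheory.MeasurableSpace.Constructions
import Mathlib.Topology.Homotopy.Contractible
import Mathlib.AlgebraicTopology.SimplicialComplex.Basic
import Mathlib.Order.CompletePartialOrder

namespace Pool.Agent.MP_52c225_lc

/-- The closed geometric simplex spanned by the finite vertex set `s` (barycentric coordinates). -/
def cell {V : Type*} (s : Finset V) : Set (V → ℝ) :=
  {p | (∀ v, 0 ≤ p v) ∧ (∀ v, v ∉ s → p v = 0) ∧ ∑ v ∈ s, p v = 1}

/-- The points of the geometric realization of the family of simplices `K`. -/
def points {V : Type*} (K : Set (Finset V)) : Set (V → ℝ) :=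
  {p | ∃ s ∈ K, p ∈ cell s}

/-- The weak (CW) topology of the geometric realization: the finest topology making the
inclusion of each closed simplex continuous. -/
@[reducible] def weakTop {V : Type*} (K : Set (Finset V)) : TopologicalSpace (points K) :=
  ⨆ s : K, TopologicalSpace.coinduced
    (fun p : cell s.1 => (⟨p.1, s.1, s.2, p.2⟩ : points K)) inferInstance

/-- The geometric realization of `K` is contractible. -/
def Contractible {V : Type*} (K : Set (Finset V)) : Prop :=
  @ContractibleSpace (points K) (weakTop K)

/-- Countable Borel equivalence relation. -/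
def IsCBER {X : Type*} [MeasurableSpace X] (E : Setoid X) : Prop :=
  MeasurableSet {p : X × X | E p.1 p.2} ∧ ∀ x, {y | E x y}.Countable

/-- `S` is a Borel assignment to the classes of `E` of contractible simplicial complexes of
dimension at most `n`. -/
def IsStructure {X : Type*} [MeasurableSpace X] (n : ℕ) (E : Setoid X)
    (S : AbstractSimplicialComplex X) : Prop :=
  (∀ k : ℕ, MeasurableSet {t : Fin (k + 1) → X |
      Function.Injective t ∧ ∃ s ∈ S.faces, (s : Set X) = Set.range t}) ∧
  (∀ s ∈ S.faces, ∀ a ∈ s, ∀ b ∈ s, E a b) ∧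
  (∀ s ∈ S.faces, s.card ≤ n + 1) ∧
  ∀ x, Contractible {s | s ∈ S.faces ∧ ∀ a ∈ s, E x a}

end Pool.Agent.MP_52c225_lc
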