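import Pool.Agent.MP_52c225_lc.Fold
import Mathlib.Tactic.SuppressCompilation
import Mathlib.Combinatorics.Colex
import Mathlib.Probability.Kernel.Disintegration.StandardBorel

-- ======== part 0: formerly Pool.Agent.MP_52c225_lc.Stage
section MrgPart0

open Set MeasureTheory Function Pool.Agent.Lib.helper61

namespace Pool.Agent.MP_52c225_lc

def Face {Ω : Type*} (L : Set (Finset Ω)) {k : ℕ} (t : Fin k → Ω) : Prop := ∃ s ∈ L, ∀ i, t i ∈ s

def MC {Ω : Type*} [MeasurableSpace Ω] (L : Set (Finset Ω)) : Prop :=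
  ∀ k, Measurable fun t : Fin (k + 1) → Ω => Face L t

lemma MC.vert {Ω : Type*} [MeasurableSpace Ω] {L : Set (Finset Ω)} (h : MC L) :
    Measurable (Vert L) := by
  have := (h 0).comp (f := fun (v : Ω) (_ : Fin 1) => v) (by fun_prop)
  convert this using 1
  funext v
  simp [Vert, Face]

lemma MC.edge {Ω : Type*} [MeasurableSpace Ω] [StandardBorelSpace Ω] {L : Set (Finset Ω)}
    (h : MC L) : Measurable fun p : Ω × Ω => Edge L p.1 p.2 := by
  have := (h 1).comp (f := fun (p : Ω × Ω) => ![p.1, p.2]) (by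
    refine measurable_pi_lambda _ fun i => ?_
    fin_cases i
    · exact measurable_fst
    · exact measurable_snd)
  refine Measurable.and (by fun_prop) ?_
  convert this using 2 with p
  simp [Face]

lemma exists_min_nat {W : Type*} {P : W → Prop} (f : W → ℕ) (h : ∃ w, P w) :
    ∃ w, P w ∧ ∀ w', P w' → f w ≤ f w' := by
  obtain ⟨w, hw, hmin⟩ := (InvImage.wf f Nat.lt_wfRel.wf).has_min {w | P w} h
  exact ⟨w, hw, fun w' hw' => not_lt.1 (hmin w' hw')⟩

lemma face_iff {Ω : Type*} [DecidableEq Ω] {L : Set (Finset Ω)} (hL : Cx L) {k : ℕ}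
    (t : Fin (k + 1) → Ω) : Face L t ↔ Finset.univ.image t ∈ L :=
  ⟨fun ⟨s, hs, h⟩ => hL.2 s hs _ (Finset.image_subset_iff.2 fun i _ => h i)
    (Finset.univ_nonempty.image _), fun h => ⟨_, h, fun i => by simp⟩⟩

lemma Vert.mem {Ω : Type*} {L : Set (Finset Ω)} (hL : Cx L) {u : Ω} (h : Vert L u) {t : Finset Ω}
    (hne : t.Nonempty) (ht : ∀ v ∈ t, v = u) : t ∈ L := by
  obtain ⟨s, hs, h1⟩ := h
  exact hL.2 s hs t (fun v hv => ht v hv ▸ h1) hne

variable {X : Type*} [MeasurableSpace X] [StandardBorelSpace X]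
variable {Ω : Type*} [MeasurableSpace Ω] [StandardBorelSpace Ω]

/-- the part of a complex lying over the class of `a` -/
def res (C : Ctx X) (cl : Ω → X) (L : Set (Finset Ω)) (a : X) : Set (Finset Ω) :=
  {s | s ∈ L ∧ ∀ w ∈ s, C.E a (cl w)}

omit [StandardBorelSpace X] [MeasurableSpace Ω] [StandardBorelSpace Ω] in
lemma cx_res (C : Ctx X) (cl : Ω → X) {L : Set (Finset Ω)} (hL : Cx L) (a : X) :
    Cx (res C cl L a) :=
  ⟨fun s h => hL.1 s h.1, fun s h t ht hne => ⟨hL.2 s h.1 t ht hne, fun w hw => h.2 w (ht hw)⟩⟩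

/-- Borel family of contractible complexes lying over the good classes -/
structure Pre (C : Ctx X) (n : ℕ) (cl : Ω → X) (L : Set (Finset Ω)) : Prop where
  mcl : Measurable cl
  cx : Cx L
  mL : MC L
  cls : ∀ s ∈ L, ∀ u ∈ s, ∀ w ∈ s, C.E (cl u) (cl w)
  good : ∀ w, Vert L w → C.G (cl w)
  cnt : ∀ a, {w | Vert L w ∧ C.E (cl w) a}.Countable
  card : ∀ s ∈ L, s.card ≤ n + 1
  ctr : ∀ a, C.G a → Ctr (R (res C cl L a))
  full : ∀ a, C.G a → ∃ s ∈ res C cl L a, s.card = n + 1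

/-- room for new vertices -/
structure Sp (cl : Ω → X) where
  gen : Ω → ℕ
  nw : Ω → ℕ → Ω
  par : Ω → Ω
  ix : Ω → ℕ
  mgen : Measurable gen
  mnw : ∀ i, Measurable fun v => nw v i
  mpar : Measurable par
  mix : Measurable ix
  par_nw : ∀ v i, par (nw v i) = v
  ix_nw : ∀ v i, ix (nw v i) = i
  gen_nw : ∀ v i, gen (nw v i) = gen v + 1
  cl_nw : ∀ v i, cl (nw v i) = cl v

structure Stage (C : Ctx X) (n : ℕ) {cl : Ω → X} (P : Sp cl) (k : ℕ) where
  L : Set (Finset Ω)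
  q : Ω → X
  Rt : Set Ω
  pre : Pre C n cl L
  mq : Measurable q
  gen_le : ∀ w, Vert L w → P.gen w ≤ k
  qcl : ∀ w, Vert L w → C.E (cl w) (q w)
  qtg : ∀ w, Vert L w → C.tg (q w) = P.gen w
  Rt_lt : ∀ r ∈ Rt, P.gen r < k ∧ Vert L r
  ha : ∀ v, Vert L v → P.gen v < k → ∃ r ∈ Rt, q r = q v
  ha' : ∀ r ∈ Rt, ∀ r' ∈ Rt, q r = q r' → r = r'
  hb : ∀ v, Vert L v → P.gen v < k → v ∉ Rt → ∀ r ∈ Rt, q r = q v →
    Edge L (P.nw v 0) v ∧ Edge L (P.nw v 0) r
  hc : ∀ u w, Edge L u w → q u ≠ q w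
  hd : ∀ u w u' w', Edge L u w → Edge L u' w' → q u = q u' → q w = q w' → u ≠ u' →
    w = w' ∧ ((u ∉ Rt ∧ u' ∈ Rt ∧ w = P.nw u 0) ∨ (u' ∉ Rt ∧ u ∈ Rt ∧ w = P.nw u' 0))

variable {C : Ctx X} {n : ℕ} {cl : Ω → X} {P : Sp cl} {k : ℕ}

lemma Stage.exists_roots (S : Stage C n P k) :
    ∃ Rk : Ω → Prop, Measurable Rk ∧ (∀ r, Rk r → Vert S.L r ∧ P.gen r = k) ∧
      (∀ v, Vert S.L v → P.gen v = k → ∃ r, Rk r ∧ S.q r = S.q v) ∧
      ∀ r r', Rk r → Rk r' → S.q r = S.q r' → r = r' := by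
  have hV := S.pre.mL.vert
  have hcl := S.pre.mcl
  have hq := S.mq
  have hg := P.mgen
  obtain ⟨idx, hidx, hinj⟩ := exists_idx (R := fun (a : X) w => Vert S.L w ∧ C.E (cl w) a)
    ((hV.comp measurable_snd).and (by fun_prop)) S.pre.cnt
  refine ⟨fun w => Vert S.L w ∧ P.gen w = k ∧
    ∀ w', (Vert S.L w' ∧ S.q w' = S.q w) → idx (S.q w, w) ≤ idx (S.q w, w'), ?_,
    fun r h => ⟨h.1, h.2.1⟩, ?_, ?_⟩
  · refine hV.and (Measurable.and (by fun_prop) ?_)
    refine meas_forall (R := fun w w' => Vert S.L w' ∧ S.q w' = S.q w)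
      (P := fun w w' => idx (S.q w, w) ≤ idx (S.q w, w'))
      ((hV.comp measurable_snd).and (by fun_prop)) (by fun_prop) fun w => ?_
    exact (S.pre.cnt (S.q w)).mono fun w' h => And.intro h.1 (h.2 ▸ S.qcl w' h.1)
  · intro v hv hg
    obtain ⟨r, hr, hmin⟩ := exists_min_nat
      (P := fun w' => Vert S.L w' ∧ S.q w' = S.q v) (fun w' => idx (S.q v, w')) ⟨v, hv, rfl⟩
    refine ⟨r, ⟨hr.1, ?_, ?_⟩, hr.2⟩
    · rw [← S.qtg r hr.1, hr.2, S.qtg v hv, hg]
    · rw [hr.2]; exact hmin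
  · intro r r' h h' hq
    refine hinj (S.q r) r r' ⟨h.1, S.qcl r h.1⟩ ⟨h'.1, hq ▸ S.qcl r' h'.1⟩
      (le_antisymm (h.2.2 r' ⟨h'.1, hq.symm⟩) ?_)
    have := h'.2.2 r ⟨h.1, hq⟩
    rwa [← hq] at this

omit [MeasurableSpace Ω] [StandardBorelSpace Ω] in
lemma countable_paths {A : Set Ω} (hA : A.Countable) :
    {z : ℕ × (ℕ → Ω) | (∀ i, z.2 i ∈ A) ∧ ∀ i, z.1 ≤ i → z.2 i = z.2 z.1}.Countable := by
  have h1 : ∀ m : ℕ, {p : ℕ → Ω | (∀ i, p i ∈ A) ∧ ∀ i, m ≤ i → p i = p m}.Countable := by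
    intro m
    have h2 : {f : Fin (m + 1) → Ω | ∀ i, f i ∈ A}.Countable := countable_pi fun _ => hA
    refine countable_of_injective_of_countable_image
      (f := fun (p : ℕ → Ω) (i : Fin (m + 1)) => p i) ?_ (h2.mono ?_)
    · intro p hp p' hp' h
      funext i
      by_cases hi : i ≤ m
      · exact congrFun h ⟨i, by omega⟩
      · rw [hp.2 i (by omega), hp'.2 i (by omega)]
        exact congrFun h ⟨m, by omega⟩
    · rintro _ ⟨p, hp, rfl⟩ i
      exact hp.1 i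
  refine (countable_iUnion fun m => (h1 m).image fun p => (m, p)).mono ?_
  rintro ⟨m, p⟩ h
  exact mem_iUnion.2 ⟨m, p, h, rfl⟩

lemma Stage.exists_paths [Nonempty Ω] (S : Stage C n P k) {Rk : Ω → Prop} (hR : Measurable Rk)
    (h1 : ∀ r, Rk r → Vert S.L r ∧ P.gen r = k)
    (h2 : ∀ v, Vert S.L v → P.gen v = k → ∃ r, Rk r ∧ S.q r = S.q v) :
    ∃ (m : Ω → ℕ) (p : Ω → ℕ → Ω), Measurable m ∧ Measurable p ∧
      ∀ v, Vert S.L v → P.gen v = k → p v 0 = v ∧ (∀ i < m v, Edge S.L (p v i) (p v (i + 1))) ∧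
        Rk (p v (m v)) ∧ S.q (p v (m v)) = S.q v := by
  have hV := S.pre.mL.vert
  have hE := S.pre.mL.edge
  have hq := S.mq
  have hap : Measurable fun y : Ω × ℕ × (ℕ → Ω) => y.2.2 y.2.1 :=
    meas_apply_nat (by fun_prop) (by fun_prop)
  obtain ⟨g, hg, hg'⟩ := exists_select (R := fun v (z : ℕ × (ℕ → Ω)) => Vert S.L v ∧ z.2 0 = v ∧
      (∀ i, i < z.1 → Edge S.L (z.2 i) (z.2 (i + 1))) ∧ (∀ i, z.1 ≤ i → z.2 i = z.2 z.1) ∧
      Rk (z.2 z.1) ∧ S.q (z.2 z.1) = S.q v)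
    (by
      refine (hV.comp measurable_fst).and (Measurable.and (by fun_prop) (Measurable.and ?_
        (Measurable.and ?_ ((hR.comp hap).and ((hq.comp hap).eq (by fun_prop))))))
      · refine Measurable.forall fun i => Measurable.imp (by fun_prop) ?_
        exact hE.comp (f := fun y : Ω × ℕ × (ℕ → Ω) => (y.2.2 i, y.2.2 (i + 1))) (by fun_prop)
      · exact Measurable.forall fun i => Measurable.imp (by fun_prop)
          (Measurable.eq (by fun_prop) hap))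
    (by
      intro v
      refine (countable_paths (S.pre.cnt (cl v))).mono ?_
      rintro ⟨m, p⟩ ⟨hv, h0, he, hl, -⟩
      simp only at h0 he hl
      have : ∀ i, i ≤ m → Vert S.L (p i) ∧ C.E (cl (p i)) (cl v) := by
        intro i
        induction i with
        | zero => intro _; rw [h0]; exact ⟨hv, C.E.refl _⟩
        | succ i ih =>
          intro hi
          obtain ⟨-, s, hs, e1, e2⟩ := he i (by omega)
          exact ⟨⟨s, hs, e2⟩, C.E.trans (S.pre.cls s hs _ e2 _ e1) (ih (by omega)).2⟩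
      refine ⟨fun i => ?_, hl⟩
      by_cases hi : i ≤ m
      · exact this i hi
      · show p i ∈ _
        rw [hl i (by omega)]; exact this m le_rfl)
  refine ⟨fun v => (g v).1, fun v => (g v).2, by fun_prop, by fun_prop, fun v hv hg => ?_⟩
  obtain ⟨r, hr, hrq⟩ := h2 v hv hg
  have hin : ∀ w, Vert S.L w → C.E (cl v) (cl w) → Vert (res C cl S.L (cl v)) w := by
    rintro w ⟨s, hs, hw⟩ h
    exact ⟨s, ⟨hs, fun u hu => C.E.trans h (S.pre.cls s hs _ hw _ hu)⟩, hw⟩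
  have hreach := reach_of_ctr (cx_res C cl S.pre.cx _) (S.pre.ctr _ (S.pre.good v hv))
    (hin v hv (C.E.refl _)) (hin r (h1 r hr).1
      (C.E.trans (S.qcl v hv) (hrq ▸ C.E.symm (S.qcl r (h1 r hr).1))))
  obtain ⟨m, p, e0, e1, e2⟩ := exists_path hreach
  have := hg' v ⟨(m, p), hv, e0, fun i hi => (e1 i hi).mono fun s h => h.1,
    fun i hi => by simp only [e2 i hi, e2 m le_rfl], by simp only [e2 m le_rfl]; exact hr,
    by simp only [e2 m le_rfl]; exact hrq⟩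
  exact ⟨this.2.1, this.2.2.1, this.2.2.2.2.1, this.2.2.2.2.2⟩

end Pool.Agent.MP_52c225_lc

end MrgPart0

-- ======== part 1: formerly Pool.Agent.MP_52c225_lc.Step
section MrgPart1

set_option linter.unusedSectionVars false

open Set MeasureTheory Function Pool.Agent.Lib.helper61

namespace Pool.Agent.MP_52c225_lc

variable {X : Type*} [MeasurableSpace X] [StandardBorelSpace X]
variable {Ω : Type*} [MeasurableSpace Ω] [StandardBorelSpace Ω]
variable {C : Ctx X} {n : ℕ} {cl : Ω → X} {P : Sp cl} {k : ℕ}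

/-- roots and paths chosen for one generation -/
structure Disc (S : Stage C n P k) where
  Rk : Ω → Prop
  m : Ω → ℕ
  p : Ω → ℕ → Ω
  mR : Measurable Rk
  mm : Measurable m
  mp : Measurable p
  R1 : ∀ r, Rk r → Vert S.L r ∧ P.gen r = k
  R2 : ∀ v, Vert S.L v → P.gen v = k → ∃ r, Rk r ∧ S.q r = S.q v
  R3 : ∀ r r', Rk r → Rk r' → S.q r = S.q r' → r = r'
  path : ∀ v, Vert S.L v → P.gen v = k → p v 0 = v ∧
    (∀ i < m v, Edge S.L (p v i) (p v (i + 1))) ∧ Rk (p v (m v)) ∧ S.q (p v (m v)) = S.q v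

lemma Stage.exists_disc [Nonempty Ω] (S : Stage C n P k) : Nonempty (Disc S) := by
  obtain ⟨Rk, h0, h1, h2, h3⟩ := S.exists_roots
  obtain ⟨m, p, e1, e2, e3⟩ := S.exists_paths h0 h1 h2
  exact ⟨⟨Rk, m, p, h0, e1, e2, h1, h2, h3, e3⟩⟩

namespace Disc

variable {S : Stage C n P k} (D : Disc S)

def NR (v : Ω) : Prop := Vert S.L v ∧ P.gen v = k ∧ ¬ D.Rk v

def b (v : Ω) (i : ℕ) : Ω := if i = 0 then v else if i ≤ D.m v then P.nw v i else D.p v (D.m v)

def N (w : Ω) : Prop := P.nw (P.par w) (P.ix w) = w ∧ D.NR (P.par w) ∧ P.ix w ≤ D.m (P.par w)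

def len (w : Ω) : ℕ := if P.ix w = 0 then D.m (P.par w) + 1 else 2

def ht (w : Ω) : ℕ := if P.ix w = 0 then D.m (P.par w) + 1 else P.ix w

def π (w : Ω) (j : ℕ) : Ω :=
  if P.ix w = 0 then D.b (P.par w) j
  else if j = 0 then D.b (P.par w) (P.ix w - 1) else D.p (P.par w) (P.ix w + j - 2)

def Λ (w : Ω) : Set (Finset Ω) := pathC (D.len w) (D.π w)

def low (u w : Ω) : Prop := D.N w ∧ ∃ j, j ≤ D.len w ∧ u = D.π w j

def L' : Set (Finset Ω) := addV S.L {w | D.N w} D.Λ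

section meas

lemma mNR : Measurable D.NR := by
  have := P.mgen
  exact S.pre.mL.vert.and (Measurable.and (by fun_prop) D.mR.not)

lemma mb (i : ℕ) : Measurable fun v => D.b v i := by
  have := D.mm
  unfold b
  split_ifs
  · exact measurable_id
  · exact meas_ite (by fun_prop) (P.mnw i) (meas_apply_nat D.mp D.mm)

lemma mN : Measurable D.N := by
  have h1 := D.mm
  have h2 := P.mpar
  have h3 := P.mix
  refine Measurable.and (Measurable.eq ?_ measurable_id) ((D.mNR.comp h2).and (by fun_prop))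
  exact meas_cases (H := fun i w => P.nw (P.par w) i) h3 fun i => (P.mnw i).comp h2

lemma mlen : Measurable D.len := by
  have h1 := D.mm
  have h2 := P.mpar
  have h3 := P.mix
  exact meas_ite (by fun_prop) (by fun_prop) measurable_const

lemma mht : Measurable D.ht := by
  have h1 := D.mm
  have h2 := P.mpar
  have h3 := P.mix
  exact meas_ite (by fun_prop) (by fun_prop) h3

lemma mπ (j : ℕ) : Measurable fun w => D.π w j := by
  have h2 := P.mpar
  have h3 := P.mix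
  refine meas_ite (by fun_prop) ((D.mb j).comp h2) ?_
  split_ifs
  · exact meas_cases (H := fun i w => D.b (P.par w) (i - 1)) h3 fun i => (D.mb _).comp h2
  · exact meas_cases (H := fun i w => D.p (P.par w) (i + j - 2)) h3 fun i =>
      (measurable_pi_apply _).comp (D.mp.comp h2)

lemma mlow : Measurable fun z : Ω × Ω => D.low z.1 z.2 := by
  have := D.mlen
  refine (D.mN.comp measurable_snd).and (Measurable.exists fun j => Measurable.and (by fun_prop)
    (measurable_fst.eq ((D.mπ j).comp measurable_snd)))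

end meas

omit [StandardBorelSpace X] [StandardBorelSpace Ω]

lemma N_iff {w : Ω} : D.N w ↔ ∃ v i, D.NR v ∧ i ≤ D.m v ∧ w = P.nw v i := by
  constructor
  · intro h; exact ⟨_, _, h.2.1, h.2.2, h.1.symm⟩
  · rintro ⟨v, i, h1, h2, rfl⟩
    simp only [N, P.par_nw, P.ix_nw]
    exact ⟨trivial, h1, h2⟩

lemma N_nw {v : Ω} (hv : D.NR v) {i : ℕ} (hi : i ≤ D.m v) : D.N (P.nw v i) :=
  D.N_iff.2 ⟨v, i, hv, hi, rfl⟩

lemma gen_N {w : Ω} (h : D.N w) : P.gen w = k + 1 := by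
  obtain ⟨v, i, h1, -, rfl⟩ := D.N_iff.1 h
  rw [P.gen_nw, h1.2.1]

lemma not_N {w : Ω} (h : Vert S.L w) : ¬ D.N w := fun h' => by
  have := S.gen_le w h
  have := D.gen_N h'
  omega

lemma m_pos {v : Ω} (hv : D.NR v) : 1 ≤ D.m v := by
  by_contra h
  have h0 : D.m v = 0 := by omega
  obtain ⟨e0, -, e2, -⟩ := D.path v hv.1 hv.2.1
  rw [h0, e0] at e2
  exact hv.2.2 e2

lemma p_vert {v : Ω} (hv : D.NR v) : ∀ i, i ≤ D.m v →
    Vert S.L (D.p v i) ∧ C.E (cl (D.p v i)) (cl v) := by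
  obtain ⟨e0, e1, -⟩ := D.path v hv.1 hv.2.1
  intro i
  induction i with
  | zero => intro _; rw [e0]; exact ⟨hv.1, C.E.refl _⟩
  | succ i ih =>
    intro hi
    obtain ⟨-, s, hs, h1, h2⟩ := e1 i (by omega)
    exact ⟨⟨s, hs, h2⟩, C.E.trans (S.pre.cls s hs _ h2 _ h1) (ih (by omega)).2⟩

lemma len_zero (v : Ω) : D.len (P.nw v 0) = D.m v + 1 := by simp [len, P.ix_nw, P.par_nw]
lemma ht_zero (v : Ω) : D.ht (P.nw v 0) = D.m v + 1 := by simp [ht, P.ix_nw, P.par_nw]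
lemma π_zero (v : Ω) (j : ℕ) : D.π (P.nw v 0) j = D.b v j := by simp [π, P.ix_nw, P.par_nw]
lemma len_succ (v : Ω) (i : ℕ) : D.len (P.nw v (i + 1)) = 2 := by simp [len, P.ix_nw]
lemma ht_succ (v : Ω) (i : ℕ) : D.ht (P.nw v (i + 1)) = i + 1 := by simp [ht, P.ix_nw]
lemma π_succ0 (v : Ω) (i : ℕ) : D.π (P.nw v (i + 1)) 0 = D.b v i := by
  simp [π, P.ix_nw, P.par_nw]
lemma π_succ1 (v : Ω) (i : ℕ) : D.π (P.nw v (i + 1)) 1 = D.p v i := by
  simp [π, P.ix_nw, P.par_nw]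
lemma π_succ2 (v : Ω) (i : ℕ) : D.π (P.nw v (i + 1)) 2 = D.p v (i + 1) := by
  simp [π, P.ix_nw, P.par_nw]
lemma b_zero (v : Ω) : D.b v 0 = v := by simp [b]
lemma b_mid (v : Ω) {i : ℕ} (h : i + 1 ≤ D.m v) : D.b v (i + 1) = P.nw v (i + 1) := by
  simp [b, h]
lemma b_last (v : Ω) : D.b v (D.m v + 1) = D.p v (D.m v) := by simp [b]

lemma b_cases {v : Ω} (j : ℕ) (hj : j ≤ D.m v + 1) :
    (j = 0 ∧ D.b v j = v) ∨ (∃ i, j = i + 1 ∧ i + 1 ≤ D.m v ∧ D.b v j = P.nw v (i + 1)) ∨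
      (j = D.m v + 1 ∧ D.b v j = D.p v (D.m v)) := by
  rcases j with _ | i
  · exact Or.inl ⟨rfl, D.b_zero v⟩
  · by_cases h : i + 1 ≤ D.m v
    · exact Or.inr (Or.inl ⟨i, rfl, h, D.b_mid v h⟩)
    · obtain rfl : i = D.m v := by omega
      exact Or.inr (Or.inr ⟨rfl, D.b_last v⟩)

lemma len_pos (w : Ω) : 1 ≤ D.len w := by unfold len; split_ifs <;> omega

/-- description of lower neighbours -/
lemma low_cases {u w : Ω} (h : D.low u w) :
    ((Vert S.L u) ∨ (D.N u ∧ D.ht u < D.ht w)) ∧ C.E (cl u) (cl w) := by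
  obtain ⟨hw, j, hj, rfl⟩ := h
  obtain ⟨v, i, hv, hi, rfl⟩ := D.N_iff.1 hw
  rw [P.cl_nw]
  have hb : ∀ j, j ≤ D.m v + 1 → ∀ h, j < h ∨ j = D.m v + 1 →
      ((Vert S.L (D.b v j)) ∨ (D.N (D.b v j) ∧ D.ht (D.b v j) < h)) ∧
        C.E (cl (D.b v j)) (cl v) := by
    intro j hj h hh
    rcases D.b_cases j hj with ⟨-, e⟩ | ⟨i, rfl, h1, e⟩ | ⟨-, e⟩
    · rw [e]; exact ⟨Or.inl hv.1, C.E.refl _⟩
    · rw [e, D.ht_succ, P.cl_nw]; exact ⟨Or.inr ⟨D.N_nw hv h1, by omega⟩, C.E.refl _⟩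
    · rw [e]; exact ⟨Or.inl (D.p_vert hv _ le_rfl).1, (D.p_vert hv _ le_rfl).2⟩
  rcases i with _ | i
  · rw [D.len_zero] at hj
    rw [D.π_zero, D.ht_zero]
    exact hb j hj _ (by omega)
  · rw [D.len_succ] at hj
    rw [D.ht_succ]
    interval_cases j
    · rw [D.π_succ0]; exact hb i (by omega) _ (by omega)
    · rw [D.π_succ1]; exact ⟨Or.inl (D.p_vert hv _ (by omega)).1, (D.p_vert hv _ (by omega)).2⟩
    · rw [D.π_succ2]; exact ⟨Or.inl (D.p_vert hv _ hi).1, (D.p_vert hv _ hi).2⟩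

lemma single_mem_Λ {w : Ω} {j : ℕ} (hj : j ≤ D.len w) : {D.π w j} ∈ D.Λ w := by
  have := D.len_pos w
  refine ⟨by simp, ?_⟩
  by_cases h : j < D.len w
  · exact ⟨j, h, by simp⟩
  · refine ⟨j - 1, by omega, ?_⟩
    have : j - 1 + 1 = j := by omega
    simp [this]

lemma low_of_mem_Λ {w : Ω} (hw : D.N w) {t : Finset Ω} (ht : t ∈ D.Λ w) {u : Ω} (hu : u ∈ t) :
    D.low u w := by
  obtain ⟨-, j, hj, h⟩ := ht
  rcases h u hu with h | h
  · exact ⟨hw, j, hj.le, h⟩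
  · exact ⟨hw, j + 1, hj, h⟩

lemma pair_mem {u w : Ω} (h : D.low u w) {t : Finset Ω} (hne : t.Nonempty)
    (ht : ∀ y ∈ t, y = w ∨ y = u) : t ∈ D.L' := by
  by_cases hw : w ∈ t
  · obtain ⟨hN, j, hj, rfl⟩ := h
    exact Or.inr ⟨w, hN, hw, _, D.single_mem_Λ hj, by simpa using ht⟩
  · have ht' : ∀ y ∈ t, y = u := fun y hy => (ht y hy).resolve_left fun h => hw (h ▸ hy)
    rcases (D.low_cases h).1 with h1 | h1
    · exact Or.inl (h1.mem S.pre.cx hne ht')
    · obtain ⟨y, hy⟩ := hne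
      exact Or.inr ⟨u, h1.1, ht' y hy ▸ hy, _, D.single_mem_Λ (Nat.zero_le _),
        fun y hy => Or.inl (ht' y hy)⟩

lemma Λ_subset {w : Ω} (hw : D.N w) : D.Λ w ⊆ D.L' := by
  obtain ⟨v, i, hv, hi, rfl⟩ := D.N_iff.1 hw
  rintro t ⟨hne, j, hj, h⟩
  have hm := D.m_pos hv
  rcases i with _ | i
  · rw [D.len_zero] at hj
    simp only [D.π_zero] at h
    by_cases h1 : j + 1 ≤ D.m v
    · rw [D.b_mid v h1] at h
      refine D.pair_mem (u := D.b v j) (w := P.nw v (j + 1))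
        ⟨D.N_nw hv h1, 0, Nat.zero_le _, (D.π_succ0 v j).symm⟩ hne fun y hy => (h y hy).symm
    · obtain rfl : j = D.m v := by omega
      rw [D.b_last] at h
      obtain ⟨i, hi⟩ : ∃ i, D.m v = i + 1 := ⟨D.m v - 1, by omega⟩
      have h2 : D.b v (D.m v) = P.nw v (i + 1) := by rw [hi]; exact D.b_mid v hi.ge
      rw [h2] at h
      refine D.pair_mem (u := D.p v (D.m v)) (w := P.nw v (i + 1))
        ⟨D.N_nw hv hi.ge, 2, (D.len_succ v i).ge, by rw [D.π_succ2, hi]⟩ hne h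
  · rw [D.len_succ] at hj
    interval_cases j
    · simp only [zero_add, D.π_succ0, D.π_succ1] at h
      rcases i with _ | i
      · rw [D.b_zero, (D.path v hv.1 hv.2.1).1] at h
        exact Or.inl (hv.1.mem S.pre.cx hne fun y hy => (h y hy).elim id id)
      · rw [D.b_mid v (by omega)] at h
        exact D.pair_mem (u := D.p v (i + 1)) (w := P.nw v (i + 1))
          ⟨D.N_nw hv (by omega), 2, (D.len_succ v i).ge, by rw [D.π_succ2]⟩ hne h
    · simp only [D.π_succ1, Nat.reduceAdd, D.π_succ2] at h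
      exact Or.inl (((D.path v hv.1 hv.2.1).2.1 i hi).mem S.pre.cx hne h)

lemma cx_L' : Cx D.L' := cx_addV S.pre.cx (fun _ _ => cx_pathC _ _) fun _ hw => D.Λ_subset hw

lemma ctr_Λ {w : Ω} (hw : D.N w) : Ctr (R (D.Λ w)) := by
  obtain ⟨v, i, hv, hi, rfl⟩ := D.N_iff.1 hw
  rcases i with _ | i
  · unfold Λ
    rw [D.len_zero]
    refine ctr_pathC _ _ fun i hi j hj => ?_
    rw [D.π_zero, D.π_zero]
    have hr := D.path v hv.1 hv.2.1
    have g1 : ∀ i, P.gen (P.nw v i) ≠ P.gen v := fun i => by rw [P.gen_nw]; omega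
    have g2 : P.gen (D.p v (D.m v)) = P.gen v := by rw [(D.R1 _ hr.2.2.1).2, hv.2.1]
    have g3 : v ≠ D.p v (D.m v) := fun h => hv.2.2 (h ▸ hr.2.2.1)
    intro h
    rcases D.b_cases i hi with ⟨rfl, e⟩ | ⟨i, rfl, h1, e⟩ | ⟨rfl, e⟩ <;>
      rcases D.b_cases j hj with ⟨rfl, e'⟩ | ⟨j, rfl, h1', e'⟩ | ⟨rfl, e'⟩ <;>
      (try rfl) <;> rw [e, e'] at h
    · exact absurd (congrArg P.gen h).symm (g1 _)
    · exact absurd h g3
    · exact absurd (congrArg P.gen h) (g1 _)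
    · simpa [P.ix_nw] using congrArg P.ix h
    · exact absurd ((congrArg P.gen h).trans g2) (g1 _)
    · exact absurd h.symm g3
    · exact absurd ((congrArg P.gen h).symm.trans g2) (g1 _)
  · unfold Λ
    rw [D.len_succ]
    exact ctr_pathC_two _

lemma vert_L' {u : Ω} (h : Vert D.L' u) : Vert S.L u ∨ D.N u := by
  have : ({u} : Finset Ω) ∈ D.L' := h.mem D.cx_L' (by simp) (by simp)
  rcases this with h | ⟨w, hw, hwu, -⟩
  · exact Or.inl ⟨_, h, by simp⟩
  · rw [Finset.mem_singleton.1 hwu] at hw; exact Or.inr hw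

lemma edge_L' {u w : Ω} (h : Edge D.L' u w) : Edge S.L u w ∨ D.low u w ∨ D.low w u := by
  classical
  have : ({u, w} : Finset Ω) ∈ D.L' := h.mem D.cx_L' (by simp) (by simp)
  rcases this with h' | ⟨y, hy, hyu, t, ht, h'⟩
  · exact Or.inl ⟨h.1, _, h', by simp, by simp⟩
  · simp only [Finset.mem_insert, Finset.mem_singleton] at hyu
    rcases hyu with rfl | rfl
    · exact Or.inr (Or.inr (D.low_of_mem_Λ hy ht ((h' w (by simp)).resolve_left h.1.symm)))
    · exact Or.inr (Or.inl (D.low_of_mem_Λ hy ht ((h' u (by simp)).resolve_left h.1)))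

lemma edge_of_low {u w : Ω} (h : D.low u w) : Edge D.L' w u := by
  classical
  refine ⟨?_, {w, u}, D.pair_mem h (by simp) (by simp), by simp, by simp⟩
  rintro rfl
  rcases (D.low_cases h).1 with h1 | h1
  · exact D.not_N h1 h.1
  · exact lt_irrefl _ h1.2

lemma finite_low (w : Ω) : {u | D.low u w}.Finite :=
  ((finite_le_nat (D.len w)).image (D.π w)).subset fun _ ⟨_, j, hj, h⟩ => ⟨j, hj, h.symm⟩

lemma mem_L'_cases {s : Finset Ω} (hs : s ∈ D.L') :
    s ∈ S.L ∨ ∃ w ∈ s, D.N w ∧ ∃ j < D.len w, ∀ y ∈ s, y = w ∨ y = D.π w j ∨ y = D.π w (j + 1) := by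
  rcases hs with h | ⟨w, hw, hws, t, ⟨-, j, hj, ht⟩, h⟩
  · exact Or.inl h
  · exact Or.inr ⟨w, hws, hw, j, hj, fun y hy => (h y hy).imp_right (ht y)⟩

lemma cls_L' : ∀ s ∈ D.L', ∀ u ∈ s, ∀ w ∈ s, C.E (cl u) (cl w) := by
  intro s hs u hu w hw
  rcases hs with h | ⟨y, hy, -, t, ht, h⟩
  · exact S.pre.cls s h u hu w hw
  · have : ∀ u ∈ s, C.E (cl u) (cl y) := fun u hu => (h u hu).elim (fun h => h ▸ C.E.refl _)
      fun h => (D.low_cases (D.low_of_mem_Λ hy ht h)).2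
    exact C.E.trans (this u hu) (C.E.symm (this w hw))

lemma good_N {w : Ω} (h : D.N w) : C.G (cl w) := by
  obtain ⟨v, i, hv, -, rfl⟩ := D.N_iff.1 h
  rw [P.cl_nw]; exact S.pre.good v hv.1

lemma cnt_N (a : X) : {w | D.N w ∧ C.E (cl w) a}.Countable := by
  refine (((S.pre.cnt a).prod (countable_univ (α := ℕ))).image fun z => P.nw z.1 z.2).mono ?_
  rintro w ⟨h1, h2⟩
  obtain ⟨v, i, hv, -, rfl⟩ := D.N_iff.1 h1
  rw [P.cl_nw] at h2
  exact ⟨(v, i), ⟨⟨hv.1, h2⟩, trivial⟩, rfl⟩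

lemma ctr_L' (a : X) (ha : C.G a) : Ctr (R (res C cl D.L' a)) := by
  have heq : res C cl D.L' a = addV (res C cl S.L a) {w | D.N w ∧ C.E a (cl w)} D.Λ := by
    ext s
    constructor
    · rintro ⟨h | ⟨w, hw, hws, h⟩, h'⟩
      · exact Or.inl ⟨h, h'⟩
      · exact Or.inr ⟨w, ⟨hw, h' w hws⟩, hws, h⟩
    · rintro (h | ⟨w, hw, hws, h⟩)
      · exact ⟨Or.inl h.1, h.2⟩
      · have : s ∈ D.L' := Or.inr ⟨w, hw.1, hws, h⟩
        exact ⟨this, fun u hu => C.E.trans hw.2 (D.cls_L' s this w hws u hu)⟩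
  rw [heq]
  refine ctr_tower (cx_res C cl S.pre.cx a) (fun s hs w hw hws => D.not_N ⟨s, hs.1, hws⟩ hw.1)
    (fun _ _ => cx_pathC _ _) ?_ D.ht ?_ (fun w hw => D.ctr_Λ hw.1) (S.pre.ctr a ha)
  · intro w hw t ht
    rw [← heq]
    exact ⟨D.Λ_subset hw.1 ht, fun u hu =>
      C.E.trans hw.2 (C.E.symm (D.low_cases (D.low_of_mem_Λ hw.1 ht hu)).2)⟩
  · intro w hw t ht u hu hN
    rcases (D.low_cases (D.low_of_mem_Λ hw.1 ht hu)).1 with h | h
    · exact absurd hN.1 (D.not_N h)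
    · exact h.2

/-- two lower neighbours with the same value -/
lemma low_same {q : Ω → X} (hq0 : ∀ w, Vert S.L w → q w = S.q w)
    (hq1 : ∀ w, D.N w → C.tg (q w) = k + 1 ∧ C.tr (q w) = D.ht w) {u u' w : Ω}
    (h : D.low u w) (h' : D.low u' w) (hne : u ≠ u') (hq : q u = q u') :
    ∃ v, D.NR v ∧ w = P.nw v 0 ∧
      ((u = v ∧ u' = D.p v (D.m v)) ∨ (u' = v ∧ u = D.p v (D.m v))) := by
  have hmix : ∀ y y', Vert S.L y → D.N y' → q y ≠ q y' := by
    intro y y' hy hy' h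
    have h1 := S.qtg y hy
    have h2 := S.gen_le y hy
    rw [← hq0 y hy, h, (hq1 y' hy').1] at h1
    omega
  obtain ⟨hw, j, hj, rfl⟩ := h
  obtain ⟨-, j', hj', rfl⟩ := h'
  obtain ⟨v, i, hv, hi, rfl⟩ := D.N_iff.1 hw
  have hr := D.p_vert hv _ le_rfl
  rcases i with _ | i
  · rw [D.len_zero] at hj hj'
    simp only [D.π_zero] at hne hq ⊢
    refine ⟨v, hv, rfl, ?_⟩
    rcases D.b_cases j hj with ⟨rfl, e⟩ | ⟨i, rfl, h1, e⟩ | ⟨rfl, e⟩ <;>
      rcases D.b_cases j' hj' with ⟨rfl, e'⟩ | ⟨j, rfl, h1', e'⟩ | ⟨rfl, e'⟩ <;>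
      (try exact absurd rfl hne) <;> rw [e, e'] at hq hne ⊢
    · exact absurd hq (hmix _ _ hv.1 (D.N_nw hv h1'))
    · exact Or.inl ⟨rfl, rfl⟩
    · exact absurd hq.symm (hmix _ _ hv.1 (D.N_nw hv h1))
    · have e1 := (hq1 _ (D.N_nw hv h1)).2
      have e2 := (hq1 _ (D.N_nw hv h1')).2
      rw [hq, e2, D.ht_succ, D.ht_succ] at e1
      exact absurd (by rw [e1]) hne
    · exact absurd hq.symm (hmix _ _ hr.1 (D.N_nw hv h1))
    · exact Or.inr ⟨rfl, rfl⟩
    · exact absurd hq (hmix _ _ hr.1 (D.N_nw hv h1'))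
  · exfalso
    rw [D.len_succ] at hj hj'
    have he := (D.path v hv.1 hv.2.1).2.1 i hi
    have h12 : q (D.p v i) ≠ q (D.p v (i + 1)) := by
      rw [hq0 _ he.left, hq0 _ he.right]; exact S.hc _ _ he
    have h0 : D.b v i = D.p v i ∨ (q (D.p v i) ≠ q (D.b v i) ∧ q (D.p v (i + 1)) ≠ q (D.b v i)) := by
      rcases i with _ | i
      · left; rw [D.b_zero, (D.path v hv.1 hv.2.1).1]
      · right
        rw [D.b_mid v (by omega)]
        exact ⟨hmix _ _ he.left (D.N_nw hv (by omega)), hmix _ _ he.right (D.N_nw hv (by omega))⟩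
    interval_cases j <;> interval_cases j' <;>
      simp only [D.π_succ0, D.π_succ1, D.π_succ2] at hne hq <;> (try exact hne rfl)
    · exact h0.elim hne fun h => h.1 hq.symm
    · exact h0.elim (fun h => h12 (h ▸ hq)) fun h => h.2 hq.symm
    · exact h0.elim (fun h => hne h.symm) fun h => h.1 hq
    · exact h12 hq
    · exact h0.elim (fun h => h12 (h ▸ hq.symm)) fun h => h.2 hq
    · exact h12 hq.symm

end Disc

lemma Disc.pre_L' {S : Stage C n P k} (D : Disc S) (hn : 2 ≤ n) : Pre C n cl D.L' where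
  mcl := S.pre.mcl
  cx := D.cx_L'
  mL := by
    classical
    intro j
    have : (fun t : Fin (j + 1) → Ω => Face D.L' t) = fun t => Face S.L t ∨
        ∃ i, D.N (t i) ∧ ∃ l, l < D.len (t i) ∧
          ∀ i', t i' = t i ∨ t i' = D.π (t i) l ∨ t i' = D.π (t i) (l + 1) := by
      funext t
      refine propext ⟨fun h => ?_, ?_⟩
      · rcases D.mem_L'_cases ((face_iff D.cx_L' t).1 h) with h | ⟨w, hw, hN, l, hl, h⟩
        · exact Or.inl ((face_iff S.pre.cx t).2 h)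
        · obtain ⟨i, -, rfl⟩ := Finset.mem_image.1 hw
          exact Or.inr ⟨i, hN, l, hl, fun i' => h _ (by simp)⟩
      · rintro (⟨s, hs, h⟩ | ⟨i, hN, l, hl, h⟩)
        · exact ⟨s, Or.inl hs, h⟩
        · refine ⟨{t i, D.π (t i) l, D.π (t i) (l + 1)}, Or.inr ⟨t i, hN, by simp,
            {D.π (t i) l, D.π (t i) (l + 1)}, ⟨by simp, l, hl, by simp⟩, by simp⟩,
            fun i' => by simpa using h i'⟩
    rw [this]
    have h1 := D.mlen
    have h2 := D.mπ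
    refine (S.pre.mL j).or (Measurable.exists fun i => (D.mN.comp (measurable_pi_apply i)).and
      (Measurable.exists fun l => Measurable.and (by fun_prop) (Measurable.forall fun i' => ?_)))
    exact (Measurable.eq (by fun_prop) (by fun_prop)).or
      ((Measurable.eq (by fun_prop) ((h2 l).comp (measurable_pi_apply i))).or
        (Measurable.eq (by fun_prop) ((h2 (l + 1)).comp (measurable_pi_apply i))))
  cls := D.cls_L'
  good := fun w hw => (D.vert_L' hw).elim (S.pre.good w) D.good_N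
  cnt := fun a => ((S.pre.cnt a).union (D.cnt_N a)).mono fun w hw =>
    (D.vert_L' hw.1).imp (fun h => ⟨h, hw.2⟩) fun h => ⟨h, hw.2⟩
  card := by
    classical
    intro s hs
    rcases D.mem_L'_cases hs with h | ⟨w, -, -, l, -, h⟩
    · exact S.pre.card s h
    · have : s ⊆ {w, D.π w l, D.π w (l + 1)} := fun y hy => by simpa using h y hy
      exact (Finset.card_le_card this).trans (Finset.card_le_three.trans (by omega))
  ctr := D.ctr_L'
  full := fun a ha => by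
    obtain ⟨s, hs, h⟩ := S.pre.full a ha
    exact ⟨s, ⟨Or.inl hs.1, hs.2⟩, h⟩

theorem Stage.step [Nonempty X] [Nonempty Ω] (S : Stage C n P k) (hn : 2 ≤ n) :
    ∃ S' : Stage C n P (k + 1), S.L ⊆ S'.L ∧ (∀ w, P.gen w ≤ k → S'.q w = S.q w) ∧
      S.Rt ⊆ S'.Rt ∧ ∀ r ∈ S'.Rt, P.gen r < k → r ∈ S.Rt := by
  obtain ⟨D⟩ := S.exists_disc
  obtain ⟨q, mq, q0, q1, q2⟩ := assign_gen C S.pre.mcl D.mN (fun w => D.good_N) D.cnt_N D.mlow
    (fun w _ => D.finite_low w) D.mht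
    (fun w _ u hu hN => ((D.low_cases hu).1.resolve_left fun h => D.not_N h hN).2) S.mq (k + 1)
  have q0' : ∀ w, Vert S.L w → q w = S.q w := fun w hw => q0 w (D.not_N hw)
  have hsub : S.L ⊆ D.L' := subset_union_left
  have qcl : ∀ w, Vert D.L' w → C.E (cl w) (q w) := fun w hw =>
    (D.vert_L' hw).elim (fun h => q0' w h ▸ S.qcl w h) fun h => (q1 w h).1
  have qtg : ∀ w, Vert D.L' w → C.tg (q w) = P.gen w := fun w hw =>
    (D.vert_L' hw).elim (fun h => q0' w h ▸ S.qtg w h) fun h => (q1 w h).2.1.trans (D.gen_N h).symm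
  have hgen : ∀ u u', Vert D.L' u → Vert D.L' u' → q u = q u' → P.gen u = P.gen u' :=
    fun u u' h h' e => by rw [← qtg u h, e, qtg u' h']
  have hold : ∀ v, Vert D.L' v → P.gen v < k + 1 → Vert S.L v := fun v hv h =>
    (D.vert_L' hv).resolve_right fun h' => by have := D.gen_N h'; omega
  have hnew : ∀ u u', Vert D.L' u → D.N u' → q u = q u' → D.N u ∧ D.ht u = D.ht u' := by
    intro u u' h h' e
    have h1 : D.N u := (D.vert_L' h).resolve_left fun h1 => by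
      have e1 := qtg u h
      have e2 := S.gen_le u h1
      rw [e, (q1 u' h').2.1] at e1
      omega
    exact ⟨h1, by rw [← (q1 u h1).2.2, e, (q1 u' h').2.2]⟩
  have hlowq : ∀ u w, D.low u w → q u ≠ q w := by
    intro u w h e
    obtain ⟨h1, h2⟩ := hnew u w (D.edge_of_low h).right h.1 e
    rcases (D.low_cases h).1 with h3 | h3
    · exact D.not_N h3 h1
    · omega
  have hlowE : ∀ u w, D.low u w → C.E (cl w) (q u) := fun u w h =>
    C.E.trans (C.E.symm (D.low_cases h).2) (qcl u (D.edge_of_low h).right)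
  have hRt : ∀ r, r ∈ S.Rt ∪ {r | D.Rk r} → Vert S.L r := fun r hr =>
    hr.elim (fun h => (S.Rt_lt r h).2) fun h => (D.R1 r h).1
  refine ⟨⟨D.L', q, S.Rt ∪ {r | D.Rk r}, D.pre_L' hn, mq, ?_, qcl, qtg, ?_, ?_, ?_, ?_, ?_, ?_⟩,
    hsub, fun w hw => q0 w fun h => by have := D.gen_N h; omega, subset_union_left, ?_⟩
  · intro w hw
    rcases D.vert_L' hw with h | h
    · exact (S.gen_le w h).trans (Nat.le_succ k)
    · exact (D.gen_N h).le
  · intro r hr
    refine ⟨?_, (hRt r hr).mono hsub⟩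
    rcases hr with h | h
    · exact (S.Rt_lt r h).1.trans (Nat.lt_succ_self k)
    · rw [(D.R1 r h).2]; exact Nat.lt_succ_self k
  · intro v hv hg
    have hv' := hold v hv hg
    rcases Nat.lt_succ_iff_lt_or_eq.1 hg with h | h
    · obtain ⟨r, hr, e⟩ := S.ha v hv' h
      exact ⟨r, Or.inl hr, by rw [q0' r (S.Rt_lt r hr).2, q0' v hv', e]⟩
    · obtain ⟨r, hr, e⟩ := D.R2 v hv' h
      exact ⟨r, Or.inr hr, by rw [q0' r (D.R1 r hr).1, q0' v hv', e]⟩
  · intro r hr r' hr' e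
    have hg := hgen r r' ((hRt r hr).mono hsub) ((hRt r' hr').mono hsub) e
    rw [q0' r (hRt r hr), q0' r' (hRt r' hr')] at e
    rcases hr with h | h <;> rcases hr' with h' | h'
    · exact S.ha' r h r' h' e
    · have := (S.Rt_lt r h).1; have := (D.R1 r' h').2; omega
    · have := (S.Rt_lt r' h').1; have := (D.R1 r h).2; omega
    · exact D.R3 r r' h h' e
  · intro v hv hg hvR r hr e
    have hv' := hold v hv hg
    have hg' := hgen r v ((hRt r hr).mono hsub) hv e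
    rw [q0' r (hRt r hr), q0' v hv'] at e
    rcases hr with h | h
    · have := S.hb v hv' (hg' ▸ (S.Rt_lt r h).1) (fun h => hvR (Or.inl h)) r h e
      exact ⟨this.1.mono hsub, this.2.mono hsub⟩
    · have hNR : D.NR v := ⟨hv', hg' ▸ (D.R1 r h).2, fun h => hvR (Or.inr h)⟩
      have hp := D.path v hNR.1 hNR.2.1
      have : r = D.p v (D.m v) := D.R3 _ _ h hp.2.2.1 (e.trans hp.2.2.2.symm)
      exact ⟨D.edge_of_low ⟨D.N_nw hNR (Nat.zero_le _), 0, Nat.zero_le _,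
          by rw [D.π_zero, D.b_zero]⟩,
        D.edge_of_low ⟨D.N_nw hNR (Nat.zero_le _), D.m v + 1, (D.len_zero v).ge,
          by rw [D.π_zero, D.b_last, this]⟩⟩
  · intro u w h
    rcases D.edge_L' h with h | h | h
    · rw [q0' u h.left, q0' w h.right]; exact S.hc u w h
    · exact hlowq u w h
    · exact (hlowq w u h).symm
  · intro u w u' w' h h' e1 e2 hne
    have cross : ∀ u w u' w', D.low u w → D.low w' u' → q u = q u' → q w = q w' → False := by
      intro u w u' w' h h' e1 e2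
      obtain ⟨a1, a2⟩ := hnew u u' (D.edge_of_low h).right h'.1 e1
      obtain ⟨b1, b2⟩ := hnew w' w (D.edge_of_low h').right h.1 e2.symm
      have c1 := ((D.low_cases h).1.resolve_left fun h => D.not_N h a1).2
      have c2 := ((D.low_cases h').1.resolve_left fun h => D.not_N h b1).2
      omega
    rcases D.edge_L' h with g | g | g <;> rcases D.edge_L' h' with g' | g' | g'
    · rw [q0' u g.left, q0' u' g'.left] at e1
      rw [q0' w g.right, q0' w' g'.right] at e2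
      obtain ⟨a, b⟩ := S.hd u w u' w' g g' e1 e2 hne
      have hg : P.gen u = P.gen u' := by rw [← S.qtg u g.left, e1, S.qtg u' g'.left]
      refine ⟨a, b.imp (fun b => ⟨?_, Or.inl b.2.1, b.2.2⟩) fun b => ⟨?_, Or.inl b.2.1, b.2.2⟩⟩
      · rintro (h | h)
        · exact b.1 h
        · have := (S.Rt_lt _ b.2.1).1; have := (D.R1 _ h).2; omega
      · rintro (h | h)
        · exact b.1 h
        · have := (S.Rt_lt _ b.2.1).1; have := (D.R1 _ h).2; omega
    · exact absurd (hnew w w' h.right g'.1 e2).1 (D.not_N g.right)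
    · exact absurd (hnew u u' h.left g'.1 e1).1 (D.not_N g.left)
    · exact absurd (hnew w' w h'.right g.1 e2.symm).1 (D.not_N g'.right)
    · obtain rfl : w = w' := q2 w g.1 w' g'.1 u u' g g' e1 (hlowE _ _ g) (hlowE _ _ g') e2
      obtain ⟨v, hv, rfl, hh⟩ := D.low_same q0' (fun w hw => (q1 w hw).2) g g' hne e1
      have hvR : v ∉ S.Rt ∪ {r | D.Rk r} := by
        rintro (h | h)
        · have := (S.Rt_lt _ h).1; have := hv.2.1; omega
        · exact hv.2.2 h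
      have hrR : D.p v (D.m v) ∈ S.Rt ∪ {r | D.Rk r} := Or.inr (D.path v hv.1 hv.2.1).2.2.1
      refine ⟨rfl, ?_⟩
      rcases hh with ⟨rfl, rfl⟩ | ⟨rfl, rfl⟩
      · exact Or.inl ⟨hvR, hrR, rfl⟩
      · exact Or.inr ⟨hvR, hrR, rfl⟩
    · exact (cross u w u' w' g g' e1 e2).elim
    · exact absurd (hnew u' u h'.left g.1 e1.symm).1 (D.not_N g'.left)
    · exact (cross u' w' u w g' g e1.symm e2.symm).elim
    · exact absurd (q2 u g.1 u' g'.1 w w' g g' e2 (hlowE _ _ g) (hlowE _ _ g') e1) hne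
  · rintro r (h | h) hg
    · exact h
    · have := (D.R1 r h).2; omega

end Pool.Agent.MP_52c225_lc

end MrgPart1

-- ======== part 2: formerly Pool.Agent.MP_52c225_lc.Final
section MrgPart2

-- ======== part 0: formerly Pool.Agent.MP_52c225_lc.Limit
section MrgPart0

set_option linter.unusedSectionVars false

open Set MeasureTheory Function Pool.Agent.Lib.helper61

namespace Pool.Agent.MP_52c225_lc

variable {X : Type*} [MeasurableSpace X] [StandardBorelSpace X]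
variable {Ω : Type*} [MeasurableSpace Ω] [StandardBorelSpace Ω]
variable {C : Ctx X} {n : ℕ} {cl : Ω → X} {P : Sp cl}

theorem limit [Nonempty X] [Nonempty Ω] (S₀ : Stage C n P 0) (hn : 2 ≤ n) :
    ∃ (L : Set (Finset Ω)) (q : Ω → X) (Rt : Set Ω), Pre C n cl L ∧ Measurable q ∧
      (∀ w, Vert L w → C.E (cl w) (q w)) ∧ FoldData L q Rt (fun v => P.nw v 0) := by
  choose F F1 F2 F3 F4 using fun k (S : Stage C n P k) => S.step hn
  let S : ∀ k, Stage C n P k := fun k => Nat.rec S₀ F k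
  have hS : ∀ k, S (k + 1) = F k (S k) := fun _ => rfl
  have hL : Monotone fun k => (S k).L := monotone_nat_of_le_succ fun k => F1 k (S k)
  have hR : Monotone fun k => (S k).Rt := monotone_nat_of_le_succ fun k => F3 k (S k)
  let q : Ω → X := fun w => (S (P.gen w)).q w
  have hq : ∀ w k, P.gen w ≤ k → (S k).q w = q w := by
    intro w k h
    induction h with
    | refl => rfl
    | @step m hm ih => rw [← ih]; exact F2 m (S m) w hm
  have hq' : ∀ k w, Vert (S k).L w → (S k).q w = q w := fun k w h => hq w k ((S k).gen_le w h)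
  have hR2 : ∀ r j k, P.gen r < j → r ∈ (S k).Rt → r ∈ (S j).Rt := by
    intro r j k h hr
    rcases le_total k j with h' | h'
    · exact hR h' hr
    · induction h' with
      | refl => exact hr
      | @step m hm ih => exact ih (F4 m (S m) r hr (h.trans_le hm))
  have hV : ∀ {w}, Vert (⋃ k, (S k).L) w → ∃ k, ∀ j, k ≤ j → Vert (S j).L w := by
    rintro w ⟨s, hs, hw⟩
    obtain ⟨k, hk⟩ := mem_iUnion.1 hs
    exact ⟨k, fun j hj => ⟨s, hL hj hk, hw⟩⟩
  have hE : ∀ {u w}, Edge (⋃ k, (S k).L) u w → ∃ k, ∀ j, k ≤ j → Edge (S j).L u w := by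
    rintro u w ⟨h, s, hs, hw⟩
    obtain ⟨k, hk⟩ := mem_iUnion.1 hs
    exact ⟨k, fun j hj => ⟨h, s, hL hj hk, hw⟩⟩
  have hRt : ∀ {r}, r ∈ (⋃ k, (S k).Rt) → ∃ k, ∀ j, k ≤ j → r ∈ (S j).Rt := by
    intro r hr
    obtain ⟨k, hk⟩ := mem_iUnion.1 hr
    exact ⟨k, fun j hj => hR hj hk⟩
  have hsub : ∀ k, (S k).L ⊆ ⋃ k, (S k).L := fun k => subset_iUnion (fun k => (S k).L) k
  have hsubR : ∀ k, (S k).Rt ⊆ ⋃ k, (S k).Rt := fun k => subset_iUnion (fun k => (S k).Rt) k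
  refine ⟨⋃ k, (S k).L, q, ⋃ k, (S k).Rt, ⟨S₀.pre.mcl, ⟨?_, ?_⟩, ?_, ?_, ?_, ?_, ?_, ?_, ?_⟩,
    meas_cases (H := fun k w => (S k).q w) P.mgen fun k => (S k).mq, ?_, ?_, ?_, ?_, ?_, ?_⟩
  · intro s hs
    obtain ⟨k, hk⟩ := mem_iUnion.1 hs
    exact (S k).pre.cx.1 s hk
  · intro s hs t ht hne
    obtain ⟨k, hk⟩ := mem_iUnion.1 hs
    exact hsub k ((S k).pre.cx.2 s hk t ht hne)
  · intro j
    have : (fun t : Fin (j + 1) → Ω => Face (⋃ k, (S k).L) t) = fun t => ∃ k, Face (S k).L t := by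
      funext t
      refine propext ⟨fun ⟨s, hs, h⟩ => ?_, fun ⟨k, s, hs, h⟩ => ⟨s, hsub k hs, h⟩⟩
      obtain ⟨k, hk⟩ := mem_iUnion.1 hs
      exact ⟨k, s, hk, h⟩
    rw [this]
    exact Measurable.exists fun k => (S k).pre.mL j
  · intro s hs
    obtain ⟨k, hk⟩ := mem_iUnion.1 hs
    exact (S k).pre.cls s hk
  · intro w hw
    obtain ⟨k, hk⟩ := hV hw
    exact (S k).pre.good w (hk k le_rfl)
  · intro a
    refine (countable_iUnion fun k => (S k).pre.cnt a).mono fun w hw => ?_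
    obtain ⟨k, hk⟩ := hV hw.1
    exact mem_iUnion.2 ⟨k, hk k le_rfl, hw.2⟩
  · intro s hs
    obtain ⟨k, hk⟩ := mem_iUnion.1 hs
    exact (S k).pre.card s hk
  · intro a ha
    have : res C cl (⋃ k, (S k).L) a = ⋃ k, res C cl (S k).L a := by
      ext s
      simp only [res, mem_iUnion, mem_ofPred_eq, exists_and_right]
    rw [this]
    exact ctr_union (fun k => cx_res C cl (S k).pre.cx a)
      (fun i j hij s hs => ⟨hL hij hs.1, hs.2⟩) fun k => (S k).pre.ctr a ha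
  · intro a ha
    obtain ⟨s, hs, h⟩ := S₀.pre.full a ha
    exact ⟨s, ⟨hsub 0 hs.1, hs.2⟩, h⟩
  · intro w hw
    obtain ⟨k, hk⟩ := hV hw
    rw [← hq' k w (hk k le_rfl)]
    exact (S k).qcl w (hk k le_rfl)
  · intro v hv
    obtain ⟨k, hk⟩ := hV hv
    have h1 := hk (k + 1) (Nat.le_succ k)
    obtain ⟨r, hr, e⟩ := (S (k + 1)).ha v h1 (Nat.lt_succ_of_le ((S k).gen_le v (hk k le_rfl)))
    have h2 := ((S (k + 1)).Rt_lt r hr).2
    exact ⟨r, hsubR _ hr, h2.mono (hsub _), by rw [← hq' _ r h2, e, hq' _ v h1]⟩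
  · intro r hr r' hr' _ _ e
    obtain ⟨k, hk⟩ := hRt hr
    obtain ⟨k', hk'⟩ := hRt hr'
    have h1 := hk (k + k') (by omega)
    have h2 := hk' (k + k') (by omega)
    refine (S (k + k')).ha' r h1 r' h2 ?_
    rw [hq' _ r ((S _).Rt_lt r h1).2, hq' _ r' ((S _).Rt_lt r' h2).2, e]
  · intro v hv hvR r hr _ e
    obtain ⟨k, hk⟩ := hV hv
    obtain ⟨k', hk'⟩ := hRt hr
    have h1 := hk (k + k' + 1) (by omega)
    have h2 := hk' (k + k' + 1) (by omega)
    have h3 := (S k).gen_le v (hk k le_rfl)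
    have := (S (k + k' + 1)).hb v h1 (by omega) (fun h => hvR (hsubR _ h)) r h2
      (by rw [hq' _ r ((S _).Rt_lt r h2).2, hq' _ v h1, e])
    exact ⟨this.1.mono (hsub _), this.2.mono (hsub _)⟩
  · intro u w h
    obtain ⟨k, hk⟩ := hE h
    have := hk k le_rfl
    rw [← hq' k u this.left, ← hq' k w this.right]
    exact (S k).hc u w this
  · intro u w u' w' h h' e1 e2 hne
    obtain ⟨k, hk⟩ := hE h
    obtain ⟨k', hk'⟩ := hE h'
    have h1 := hk (k + k' + 1) (by omega)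
    have h2 := hk' (k + k' + 1) (by omega)
    have g1 := (S k).gen_le u (hk k le_rfl).left
    have g2 := (S k').gen_le u' (hk' k' le_rfl).left
    obtain ⟨a, b⟩ := (S (k + k' + 1)).hd u w u' w' h1 h2
      (by rw [hq' _ u h1.left, hq' _ u' h2.left, e1])
      (by rw [hq' _ w h1.right, hq' _ w' h2.right, e2]) hne
    refine ⟨a, b.imp (fun b => ⟨fun h => ?_, hsubR (k + k' + 1) b.2.1, b.2.2⟩)
      fun b => ⟨fun h => ?_, hsubR (k + k' + 1) b.2.1, b.2.2⟩⟩
    · obtain ⟨j, hj⟩ := mem_iUnion.1 h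
      exact b.1 (hR2 u _ j (by omega) hj)
    · obtain ⟨j, hj⟩ := mem_iUnion.1 h
      exact b.1 (hR2 u' _ j (by omega) hj)

theorem pre_img {L : Set (Finset Ω)} {q : Ω → X} {Rt : Set Ω} {x : Ω → Ω} (h : Pre C n cl L)
    (hq : Measurable q) (qcl : ∀ w, Vert L w → C.E (cl w) (q w)) (D : FoldData L q Rt x)
    (hG : ∀ a b, C.G a → C.E a b → C.G b) : Pre C n id (imgC q L) := by
  classical
  have hinj : ∀ s ∈ L, InjOn q s := fun s hs u hu w hw e => by
    by_contra hne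
    exact D.hc u w ⟨hne, s, hs, hu, hw⟩ e
  have hmem : ∀ τ ∈ imgC q L, ∃ s ∈ L, τ = s.image q := by
    rintro τ ⟨s, hs, e⟩
    exact ⟨s, hs, by rw [← Finset.coe_inj, e, Finset.coe_image]⟩
  have hvr : ∀ a w, Vert L w → C.E a (cl w) → Vert (res C cl L a) w := by
    rintro a w ⟨s, hs, hw⟩ h'
    exact ⟨s, ⟨hs, fun u hu => C.E.trans h' (h.cls s hs _ hw _ hu)⟩, hw⟩
  have her : ∀ a u w, Edge L u w → C.E a (cl w) → Edge (res C cl L a) u w := by
    rintro a u w ⟨hne, s, hs, hu, hw⟩ h'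
    exact ⟨hne, s, ⟨hs, fun u hu => C.E.trans h' (h.cls s hs _ hw _ hu)⟩, hu, hw⟩
  have hres : ∀ a, res C id (imgC q L) a = imgC q (res C cl L a) := by
    intro a
    ext τ
    constructor
    · rintro ⟨⟨s, hs, e⟩, h'⟩
      refine ⟨s, ⟨hs, fun w hw => C.E.trans (h' (q w) ?_) (C.E.symm (qcl w ⟨s, hs, hw⟩))⟩, e⟩
      exact show q w ∈ (τ : Set X) from e ▸ mem_image_of_mem q hw
    · rintro ⟨s, hs, e⟩
      refine ⟨⟨s, hs.1, e⟩, fun b hb => ?_⟩
      obtain ⟨w, hw, rfl⟩ : b ∈ q '' s := e ▸ (hb : b ∈ (τ : Set X))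
      exact C.E.trans (hs.2 w hw) (qcl w ⟨s, hs.1, hw⟩)
  refine ⟨measurable_id, cx_imgC q h.cx, ?_, ?_, ?_, ?_, ?_, ?_, ?_⟩
  · intro j
    have : (fun t : Fin (j + 1) → X => Face (imgC q L) t) =
        fun t => ∃ t' : Fin (j + 1) → Ω, Face L t' ∧ ∀ i, q (t' i) = t i := by
      funext t
      refine propext ⟨fun ⟨τ, ⟨s, hs, e⟩, ht⟩ => ?_, fun ⟨t', ⟨s, hs, h1⟩, h2⟩ => ?_⟩
      · have : ∀ i, ∃ w ∈ s, q w = t i := fun i =>
          show t i ∈ q '' s from e ▸ (ht i : t i ∈ (τ : Set X))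
        choose t' h1 h2 using this
        exact ⟨t', ⟨s, hs, h1⟩, h2⟩
      · exact ⟨s.image q, ⟨s, hs, by simp⟩, fun i => h2 i ▸ Finset.mem_image_of_mem q (h1 i)⟩
    rw [this]
    refine meas_exists (R := fun (t : Fin (j + 1) → X) (t' : Fin (j + 1) → Ω) =>
      Face L t' ∧ ∀ i, q (t' i) = t i) (((h.mL j).comp measurable_snd).and (by fun_prop)) ?_
    intro t
    refine (countable_pi fun i => h.cnt (t i)).mono ?_
    rintro t' ⟨⟨s, hs, h1⟩, h2⟩ i
    exact ⟨⟨s, hs, h1 i⟩, h2 i ▸ qcl _ ⟨s, hs, h1 i⟩⟩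
  · intro τ hτ a ha b hb
    obtain ⟨s, hs, rfl⟩ := hmem τ hτ
    obtain ⟨u, hu, rfl⟩ := Finset.mem_image.1 ha
    obtain ⟨w, hw, rfl⟩ := Finset.mem_image.1 hb
    exact C.E.trans (C.E.symm (qcl u ⟨s, hs, hu⟩))
      (C.E.trans (h.cls s hs u hu w hw) (qcl w ⟨s, hs, hw⟩))
  · rintro a ⟨τ, hτ, ha⟩
    obtain ⟨s, hs, rfl⟩ := hmem τ hτ
    obtain ⟨u, hu, rfl⟩ := Finset.mem_image.1 ha
    exact hG _ _ (h.good u ⟨s, hs, hu⟩) (qcl u ⟨s, hs, hu⟩)
  · exact fun a => (C.hc a).mono fun b hb => C.E.symm hb.2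
  · intro τ hτ
    obtain ⟨s, hs, rfl⟩ := hmem τ hτ
    exact Finset.card_image_le.trans (h.card s hs)
  · intro a ha
    rw [hres]
    have hsub : res C cl L a ⊆ L := fun s hs => hs.1
    have hcl : ∀ v, Vert (res C cl L a) v → C.E a (cl v) := fun v ⟨s, hs, hv⟩ => hs.2 v hv
    refine ctr_fold (Rt := Rt) (x := x) (cx_res C cl h.cx a) ⟨?_, ?_, ?_, ?_, ?_⟩ (h.ctr a ha)
    · intro v hv
      obtain ⟨r, h1, h2, h3⟩ := D.ha v (hv.mono hsub)
      exact ⟨r, h1, hvr a r h2 (C.E.trans (hcl v hv) (C.E.trans (qcl v (hv.mono hsub))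
        (h3 ▸ C.E.symm (qcl r h2)))), h3⟩
    · exact fun r hr r' hr' h1 h2 => D.ha' r hr r' hr' (h1.mono hsub) (h2.mono hsub)
    · intro v hv hvR r hr h1 e
      have := D.hb v (hv.mono hsub) hvR r hr (h1.mono hsub) e
      exact ⟨her a _ _ this.1 (hcl v hv), her a _ _ this.2 (hcl r h1)⟩
    · exact fun u w h => D.hc u w (h.mono hsub)
    · exact fun u w u' w' h h' => D.hd u w u' w' (h.mono hsub) (h'.mono hsub)
  · intro a ha
    obtain ⟨s, hs, e⟩ := h.full a ha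
    refine ⟨s.image q, ?_, by rw [Finset.card_image_of_injOn (hinj s hs.1), e]⟩
    rw [hres]
    exact ⟨s, hs, by simp⟩

theorem stage_zero [Nonempty X] {L : Set (Finset Ω)} (h : Pre C n cl L)
    (hgen : ∀ w, Vert L w → P.gen w = 0) {rank : Ω → ℕ} (hrank : Measurable rank)
    (r1 : ∀ u w, Edge L u w → rank u ≠ rank w)
    (r2 : ∀ w, {u | Edge L u w ∧ rank u < rank w}.Finite)
    (r3 : ∀ u u' w, Edge L u w → Edge L u' w → rank u < rank w → rank u = rank u' → u = u') :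
    Nonempty (Stage C n P 0) := by
  obtain ⟨q, mq, -, q1, q2⟩ := assign_gen C h.mcl h.mL.vert h.good h.cnt
    (low := fun u w => Edge L u w ∧ rank u < rank w) (h.mL.edge.and (by fun_prop))
    (fun w _ => r2 w) hrank (fun w _ u hu _ => hu.2)
    (q₀ := fun _ => Classical.arbitrary X) measurable_const 0
  have hr : ∀ u u', Vert L u → Vert L u' → q u = q u' → rank u = rank u' := fun u u' h h' e => by
    rw [← (q1 u h).2.2, e, (q1 u' h').2.2]
  have hE : ∀ u w, Edge L u w → C.E (cl w) (q u) := by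
    intro u w he
    obtain ⟨s, hs, hu, hw⟩ := he.2
    exact C.E.trans (h.cls s hs w hw u hu) (q1 u he.left).1
  refine ⟨⟨L, q, ∅, h, mq, fun w hw => (hgen w hw).le, fun w hw => (q1 w hw).1,
    fun w hw => (q1 w hw).2.1.trans (hgen w hw).symm, by simp, by simp, by simp, by simp,
    fun u w he e => r1 u w he (hr u w he.left he.right e), ?_⟩⟩
  intro u w u' w' he he' e1 e2 hne
  exfalso
  have a1 := hr u u' he.left he'.left e1
  have a2 := hr w w' he.right he'.right e2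
  rcases lt_or_gt_of_ne (r1 u w he) with h1 | h1
  · obtain rfl := q2 w he.right w' he'.right u u' ⟨he, h1⟩ ⟨he', by omega⟩ e1 (hE _ _ he)
      (hE _ _ he') e2
    exact hne (r3 u u' w he he' h1 a1)
  · exact hne (q2 u he.left u' he'.left w w' ⟨he.symm, h1⟩ ⟨he'.symm, by omega⟩ e2
      (hE _ _ he.symm) (hE _ _ he'.symm) e1)

end Pool.Agent.MP_52c225_lc

end MrgPart0

-- ======== part 1: formerly Pool.Agent.MP_52c225_lc.Init
section MrgPart1

set_option linter.unusedSectionVars false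

open Set MeasureTheory Function Pool.Agent.Lib.helper61

namespace Pool.Agent.MP_52c225_lc

variable {X : Type*} [MeasurableSpace X] [StandardBorelSpace X]
variable {Ω : Type*} [MeasurableSpace Ω] [StandardBorelSpace Ω]
variable {C : Ctx X} {n : ℕ} {cl : Ω → X}

open Classical in
/-- the finite set coded by a length and a sequence -/
noncomputable def dec (a : ℕ × (ℕ → Ω)) : Finset Ω := (Finset.range a.1).image a.2

lemma mem_dec {a : ℕ × (ℕ → Ω)} {v : Ω} : v ∈ dec a ↔ ∃ i, i < a.1 ∧ a.2 i = v := by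
  simp [dec]

/-- canonical codes -/
def Can (Ω : Type*) [MeasurableSpace Ω] [StandardBorelSpace Ω] : Set (ℕ × (ℕ → Ω)) :=
  {a | 0 < a.1 ∧ (∀ i j, i < j → j < a.1 → embeddingReal Ω (a.2 i) < embeddingReal Ω (a.2 j)) ∧
    ∀ i, a.1 ≤ i → a.2 i = a.2 0}

lemma can_injOn {a : ℕ × (ℕ → Ω)} (ha : a ∈ Can Ω) : InjOn a.2 (Finset.range a.1) := by
  intro i hi j hj h
  simp only [Finset.coe_range, mem_Iio] at hi hj
  rcases lt_trichotomy i j with h' | h' | h'
  · exact absurd (ha.2.1 i j h' hj) (by rw [h]; exact lt_irrefl _)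
  · exact h'
  · exact absurd (ha.2.1 j i h' hi) (by rw [h]; exact lt_irrefl _)

lemma card_dec {a : ℕ × (ℕ → Ω)} (ha : a ∈ Can Ω) : (dec a).card = a.1 := by
  classical
  unfold dec
  convert (Finset.card_image_of_injOn (can_injOn ha)).trans (Finset.card_range _)

lemma zero_mem_dec {a : ℕ × (ℕ → Ω)} (ha : a ∈ Can Ω) : a.2 0 ∈ dec a :=
  mem_dec.2 ⟨0, ha.1, rfl⟩

lemma dec_injOn : InjOn (dec : ℕ × (ℕ → Ω) → Finset Ω) (Can Ω) := by
  let _ : LinearOrder Ω :=
    LinearOrder.lift' (embeddingReal Ω) (measurableEmbedding_embeddingReal Ω).injective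
  rintro ⟨k, t⟩ ha ⟨k', t'⟩ hb h
  have e1 := card_dec ha
  have e2 := card_dec hb
  simp only at e1 e2
  obtain rfl : k = k' := by rw [← e1, ← e2, h]
  have h1 : (fun i : Fin k => t i) = (dec (k, t)).orderEmbOfFin e1 :=
    Finset.orderEmbOfFin_unique e1 (fun i => mem_dec.2 ⟨i, i.2, rfl⟩)
      fun i j hij => ha.2.1 i j hij j.2
  have h2 : (fun i : Fin k => t' i) = (dec (k, t)).orderEmbOfFin e1 :=
    Finset.orderEmbOfFin_unique e1 (fun i => h ▸ mem_dec.2 ⟨i, i.2, rfl⟩)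
      fun i j hij => hb.2.1 i j hij j.2
  have h3 : ∀ i, i < k → t i = t' i := fun i hi => congrFun (h1.trans h2.symm) ⟨i, hi⟩
  refine Prod.ext rfl (funext fun i => ?_)
  by_cases hi : i < k
  · exact h3 i hi
  · exact (ha.2.2 i (not_lt.1 hi)).trans ((h3 0 ha.1).trans (hb.2.2 i (not_lt.1 hi)).symm)

lemma dec_surj {s : Finset Ω} (hs : s.Nonempty) : ∃ a ∈ Can Ω, dec a = s := by
  let _ : LinearOrder Ω :=
    LinearOrder.lift' (embeddingReal Ω) (measurableEmbedding_embeddingReal Ω).injective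
  have hpos : 0 < s.card := hs.card_pos
  let e := s.orderEmbOfFin rfl
  refine ⟨(s.card, fun i => if h : i < s.card then e ⟨i, h⟩ else e ⟨0, hpos⟩),
    ⟨hpos, fun i j hij hj => ?_, fun i hi => ?_⟩, ?_⟩
  · have hj' : j < s.card := hj
    have hi' : i < s.card := hij.trans hj'
    simp only [hi', hj', dif_pos]
    exact e.strictMono (show (⟨i, hi'⟩ : Fin s.card) < ⟨j, hj'⟩ from hij)
  · have hi' : ¬ i < s.card := not_lt.2 hi
    simp only [hi', hpos, dif_pos, dif_neg, not_false_eq_true]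
  · ext v
    rw [mem_dec]
    constructor
    · rintro ⟨i, hi, rfl⟩
      have hi' : i < s.card := hi
      simp only [hi', dif_pos]
      exact Finset.orderEmbOfFin_mem _ _ _
    · intro hv
      have : v ∈ range e := by rw [Finset.range_orderEmbOfFin]; exact hv
      obtain ⟨i, rfl⟩ := this
      exact ⟨i, i.2, by simp⟩

lemma meas_can : Measurable fun a : ℕ × (ℕ → Ω) => a ∈ Can Ω := by
  have := measurable_embeddingReal Ω
  refine Measurable.and (by fun_prop) (Measurable.and ?_ (by fun_prop))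
  exact Measurable.forall fun i => Measurable.forall fun j => measurable_const.imp
    (Measurable.imp (by fun_prop) (by fun_prop))

lemma meas_dec_mem {L : Set (Finset Ω)} (hL : Cx L) (h : MC L) :
    Measurable fun a : ℕ × (ℕ → Ω) => dec a ∈ L := by
  refine measurable_from_prod_countable_right fun k => ?_
  rcases k with _ | k
  · have : (fun t : ℕ → Ω => dec (0, t) ∈ L) = fun _ => False := by
      funext t
      refine propext ⟨fun h => ?_, False.elim⟩
      obtain ⟨v, hv⟩ := hL.1 _ h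
      simp [mem_dec] at hv
    simp only [this]
    exact measurable_const
  · have : (fun t : ℕ → Ω => dec (k + 1, t) ∈ L) =
        fun t => Face L (fun i : Fin (k + 1) => t i) := by
      funext t
      refine propext ⟨fun h => ⟨_, h, fun i => mem_dec.2 ⟨i, i.2, rfl⟩⟩, fun ⟨s, hs, h⟩ => ?_⟩
      refine hL.2 s hs _ (fun v hv => ?_) ⟨t 0, mem_dec.2 ⟨0, Nat.succ_pos k, rfl⟩⟩
      obtain ⟨i, hi, rfl⟩ := mem_dec.1 hv
      exact h ⟨i, hi⟩
    simp only [this]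
    exact (h k).comp (by fun_prop)

lemma meas_dec_subset : Measurable fun z : (ℕ × (ℕ → Ω)) × (ℕ × (ℕ → Ω)) => dec z.1 ⊆ dec z.2 := by
  have : (fun z : (ℕ × (ℕ → Ω)) × (ℕ × (ℕ → Ω)) => dec z.1 ⊆ dec z.2) =
      fun z => ∀ i, i < z.1.1 → ∃ j, j < z.2.1 ∧ z.2.2 j = z.1.2 i := by
    funext z
    refine propext ⟨fun h i hi => mem_dec.1 (h (mem_dec.2 ⟨i, hi, rfl⟩)), fun h v hv => ?_⟩
    obtain ⟨i, hi, rfl⟩ := mem_dec.1 hv
    exact mem_dec.2 (h i hi)
  rw [this]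
  fun_prop

/-- the subdivision -/
def sd (L : Set (Finset Ω)) : Set (Finset (ℕ × (ℕ → Ω))) := sdC dec (Can Ω) L

lemma sd_col {L : Set (Finset Ω)} {S : Finset (ℕ × (ℕ → Ω))} (hS : S ∈ sd L) :
    InjOn Prod.fst (S : Set (ℕ × (ℕ → Ω))) := by
  intro a ha b hb h
  have ha' := (hS.2.1 a ha).1
  have hb' := (hS.2.1 b hb).1
  have hc : (dec a).card = (dec b).card := by rw [card_dec ha', card_dec hb', h]
  refine dec_injOn ha' hb' ?_
  rcases hS.2.2 a ha b hb with h' | h'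
  · exact Finset.eq_of_subset_of_card_le h' hc.ge
  · exact (Finset.eq_of_subset_of_card_le h' hc.le).symm

lemma exists_chain {K : Set (Finset Ω)} (hK : Cx K) (m : ℕ) : ∀ s ∈ K, s.card = m + 1 →
    ∃ S ∈ sd K, S.card = m + 1 ∧ ∀ a ∈ S, dec a ⊆ s := by
  classical
  induction m with
  | zero =>
    intro s hs _
    obtain ⟨a, ha, rfl⟩ := dec_surj (hK.1 s hs)
    exact ⟨{a}, ⟨by simp, by simpa using ⟨ha, hs⟩, by simp⟩, by simp, by simp⟩
  | succ m ih =>
    intro s hs hc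
    obtain ⟨a, ha, rfl⟩ := dec_surj (hK.1 s hs)
    obtain ⟨v, hv⟩ := hK.1 _ hs
    have h1 : ((dec a).erase v).card = m + 1 := by rw [Finset.card_erase_of_mem hv, hc]; rfl
    obtain ⟨S, hS, e1, e2⟩ := ih _ (hK.2 _ hs _ (Finset.erase_subset v _)
      (Finset.card_pos.1 (by omega))) h1
    have haS : a ∉ S := fun h => by simpa using e2 a h hv
    have e3 : ∀ b ∈ S, dec b ⊆ dec a := fun b hb => (e2 b hb).trans (Finset.erase_subset v _)
    refine ⟨insert a S, ⟨by simp, ?_, ?_⟩, by rw [Finset.card_insert_of_notMem haS, e1], ?_⟩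
    · intro b hb
      rcases Finset.mem_insert.1 hb with rfl | hb
      · exact ⟨ha, hs⟩
      · exact hS.2.1 b hb
    · intro b hb c hc
      rcases Finset.mem_insert.1 hb with hb' | hb'
      · rcases Finset.mem_insert.1 hc with hc' | hc'
        · rw [hb', hc']; exact Or.inl subset_rfl
        · rw [hb']; exact Or.inr (e3 c hc')
      · rcases Finset.mem_insert.1 hc with hc' | hc'
        · rw [hc']; exact Or.inl (e3 b hb')
        · exact hS.2.2 b hb' c hc'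
    · intro b hb
      rcases Finset.mem_insert.1 hb with rfl | hb
      · exact subset_rfl
      · exact e3 b hb

theorem pre_sd {L : Set (Finset Ω)} (h : Pre C n cl L) :
    Pre C n (fun a : ℕ × (ℕ → Ω) => cl (a.2 0)) (sd L) := by
  classical
  have hcl := h.mcl
  have hres : ∀ x, res C (fun a : ℕ × (ℕ → Ω) => cl (a.2 0)) (sd L) x = sd (res C cl L x) := by
    intro x
    ext S
    constructor
    · rintro ⟨hS, h'⟩
      exact ⟨hS.1, fun a ha => ⟨(hS.2.1 a ha).1, (hS.2.1 a ha).2, fun w hw => C.E.trans (h' a ha)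
        (h.cls _ (hS.2.1 a ha).2 _ (zero_mem_dec (hS.2.1 a ha).1) w hw)⟩, hS.2.2⟩
    · intro hS
      exact ⟨⟨hS.1, fun a ha => ⟨(hS.2.1 a ha).1, (hS.2.1 a ha).2.1⟩, hS.2.2⟩,
        fun a ha => (hS.2.1 a ha).2.2 _ (zero_mem_dec (hS.2.1 a ha).1)⟩
  refine ⟨by fun_prop, cx_sdC _ _ _, ?_, ?_, ?_, ?_, ?_, ?_, ?_⟩
  · intro j
    have : (fun t : Fin (j + 1) → ℕ × (ℕ → Ω) => Face (sd L) t) = fun t =>
        (∀ i, t i ∈ Can Ω ∧ dec (t i) ∈ L) ∧
          ∀ i i', dec (t i) ⊆ dec (t i') ∨ dec (t i') ⊆ dec (t i) := by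
      funext t
      refine propext ⟨fun ⟨S, hS, h⟩ => ⟨fun i => hS.2.1 _ (h i),
        fun i i' => hS.2.2 _ (h i) _ (h i')⟩, fun ⟨h1, h2⟩ => ?_⟩
      exact ⟨Finset.univ.image t, ⟨Finset.univ_nonempty.image _, by simpa using h1,
        by simpa using h2⟩, by simp⟩
    rw [this]
    refine (Measurable.forall fun i => (meas_can.comp (measurable_pi_apply i)).and
      ((meas_dec_mem h.cx h.mL).comp (measurable_pi_apply i))).and
      (Measurable.forall fun i => Measurable.forall fun i' => Measurable.or ?_ ?_)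
    · exact meas_dec_subset.comp (f := fun t : Fin (j + 1) → ℕ × (ℕ → Ω) => (t i, t i'))
        (by fun_prop)
    · exact meas_dec_subset.comp (f := fun t : Fin (j + 1) → ℕ × (ℕ → Ω) => (t i', t i))
        (by fun_prop)
  · intro S hS a ha b hb
    rcases hS.2.2 a ha b hb with h' | h'
    · exact h.cls _ (hS.2.1 b hb).2 _ (h' (zero_mem_dec (hS.2.1 a ha).1)) _
        (zero_mem_dec (hS.2.1 b hb).1)
    · exact h.cls _ (hS.2.1 a ha).2 _ (zero_mem_dec (hS.2.1 a ha).1) _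
        (h' (zero_mem_dec (hS.2.1 b hb).1))
  · rintro a ⟨S, hS, ha⟩
    exact h.good _ ⟨_, (hS.2.1 a ha).2, zero_mem_dec (hS.2.1 a ha).1⟩
  · intro x
    refine (countable_paths (h.cnt x)).mono ?_
    rintro a ⟨⟨S, hS, ha⟩, hx⟩
    obtain ⟨h1, h2⟩ := hS.2.1 a ha
    have : ∀ i, a.2 i ∈ dec a := fun i => by
      by_cases hi : i < a.1
      · exact mem_dec.2 ⟨i, hi, rfl⟩
      · rw [h1.2.2 i (not_lt.1 hi)]; exact zero_mem_dec h1
    exact ⟨fun i => ⟨⟨_, h2, this i⟩, C.E.trans (h.cls _ h2 _ (this i) _ (this 0)) hx⟩,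
      fun i hi => (h1.2.2 i hi).trans (h1.2.2 _ le_rfl).symm⟩
  · intro S hS
    have : S.card ≤ (Finset.Icc 1 (n + 1)).card :=
      Finset.card_le_card_of_injOn Prod.fst (fun a ha => by
        obtain ⟨h1, h2⟩ := hS.2.1 a ha
        simp only [Finset.coe_Icc, mem_Icc]
        exact ⟨h1.1, card_dec h1 ▸ h.card _ h2⟩) (sd_col hS)
    simpa using this
  · intro x hx
    rw [hres]
    exact ctr_sdC (cx_res C cl h.cx x) (fun s hs => dec_surj (h.cx.1 s hs.1)) (h.ctr x hx)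
  · intro x hx
    obtain ⟨s, hs, e⟩ := h.full x hx
    obtain ⟨S, hS, e', -⟩ := exists_chain (cx_res C cl h.cx x) n s hs e
    exact ⟨S, by rw [hres]; exact hS, e'⟩

/-- rank function on a subdivision of a properly coloured complex -/
lemma sd_rank {L : Set (Finset Ω)} {col : Ω → ℕ} (hcol : Measurable col)
    (hinj : ∀ s ∈ L, InjOn col s) :
    ∃ rank : ℕ × (ℕ → Ω) → ℕ, Measurable rank ∧
      (∀ u w, Edge (sd L) u w → rank u ≠ rank w) ∧
      (∀ w, {u | Edge (sd L) u w ∧ rank u < rank w}.Finite) ∧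
      ∀ u u' w, Edge (sd L) u w → Edge (sd L) u' w → rank u < rank w → rank u = rank u' →
        u = u' := by
  classical
  let rank : ℕ × (ℕ → Ω) → ℕ := fun a => ∑ i ∈ Finset.range a.1, 2 ^ col (a.2 i)
  have hr : ∀ a ∈ Can Ω, rank a = ∑ v ∈ dec a, 2 ^ col v := by
    intro a ha
    unfold dec
    convert (Finset.sum_image (f := fun v => 2 ^ col v) (can_injOn ha)).symm
  have hlt : ∀ a ∈ Can Ω, ∀ b ∈ Can Ω, a ≠ b → dec a ⊆ dec b → rank a < rank b := by
    intro a ha b hb hne h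
    rw [hr a ha, hr b hb]
    have : dec a ⊂ dec b := Finset.ssubset_iff_subset_ne.2 ⟨h, fun h => hne (dec_injOn ha hb h)⟩
    obtain ⟨v, hv, hv'⟩ := Finset.exists_of_ssubset this
    exact Finset.sum_lt_sum_of_subset h hv hv' (by positivity) fun _ _ _ => by positivity
  have hsub : ∀ u w, Edge (sd L) u w → rank u < rank w →
      u ∈ Can Ω ∧ dec u ⊆ dec w ∧ dec w ∈ L := by
    rintro u w ⟨hne, S, hS, hu, hw⟩ h
    refine ⟨(hS.2.1 u hu).1, (hS.2.2 u hu w hw).resolve_right fun h' => ?_, (hS.2.1 w hw).2⟩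
    have := hlt w (hS.2.1 w hw).1 u (hS.2.1 u hu).1 hne.symm h'
    omega
  refine ⟨rank, measurable_from_prod_countable_right fun k => ?_, ?_, ?_, ?_⟩
  · show Measurable fun t : ℕ → Ω => ∑ i ∈ Finset.range k, 2 ^ col (t i)
    refine Finset.measurable_sum (f := fun i (t : ℕ → Ω) => 2 ^ col (t i)) _ fun i _ => ?_
    exact (Measurable.of_discrete (f := fun m : ℕ => 2 ^ m)).comp (by fun_prop)
  · rintro u w ⟨hne, S, hS, hu, hw⟩
    rcases hS.2.2 u hu w hw with h | h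
    · exact (hlt u (hS.2.1 u hu).1 w (hS.2.1 w hw).1 hne h).ne
    · exact (hlt w (hS.2.1 w hw).1 u (hS.2.1 u hu).1 hne.symm h).ne'
  · intro w
    refine Finite.of_finite_image (f := dec) ((dec w).powerset.finite_toSet.subset ?_)
      (dec_injOn.mono fun u hu => (hsub u w hu.1 hu.2).1)
    rintro _ ⟨u, hu, rfl⟩
    simpa using (hsub u w hu.1 hu.2).2.1
  · intro u u' w h h' e1 e2
    obtain ⟨a1, a2, a3⟩ := hsub u w h e1
    obtain ⟨b1, b2, -⟩ := hsub u' w h' (e2 ▸ e1)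
    refine dec_injOn a1 b1 ?_
    rw [hr u a1, hr u' b1, ← Finset.sum_image (f := fun m => 2 ^ m) ((hinj _ a3).mono a2),
      ← Finset.sum_image (f := fun m => 2 ^ m) ((hinj _ a3).mono b2)] at e2
    have e3 := Finset.geomSum_injective le_rfl e2
    ext v
    constructor
    · intro hv
      obtain ⟨v', hv', e⟩ := Finset.mem_image.1 (e3 ▸ Finset.mem_image_of_mem col hv)
      exact hinj _ a3 (b2 hv') (a2 hv) e ▸ hv'
    · intro hv
      obtain ⟨v', hv', e⟩ := Finset.mem_image.1 (e3.symm ▸ Finset.mem_image_of_mem col hv)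
      exact hinj _ a3 (a2 hv') (b2 hv) e ▸ hv'

/-- room for new vertices -/
def spOf (cl : Ω → X) : Sp (fun w : Ω × ℕ × ℕ => cl w.1) where
  gen w := w.2.1
  nw w i := (w.1, w.2.1 + 1, Nat.pair w.2.2 i)
  par w := (w.1, w.2.1 - 1, w.2.2.unpair.1)
  ix w := w.2.2.unpair.2
  mgen := by fun_prop
  mnw i := measurable_fst.prodMk
    ((Measurable.of_discrete (f := fun z : ℕ × ℕ => (z.1 + 1, Nat.pair z.2 i))).comp measurable_snd)
  mpar := measurable_fst.prodMk
    ((Measurable.of_discrete (f := fun z : ℕ × ℕ => (z.1 - 1, z.2.unpair.1))).comp measurable_snd)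
  mix := (Measurable.of_discrete (f := fun z : ℕ × ℕ => z.2.unpair.2)).comp measurable_snd
  par_nw := by simp
  ix_nw := by simp
  gen_nw := by simp
  cl_nw := by simp

/-- copy of a complex at generation zero -/
def lift0 (L : Set (Finset Ω)) : Set (Finset (Ω × ℕ × ℕ)) :=
  {S | S.Nonempty ∧ (∀ w ∈ S, w.2 = (0, 0)) ∧ ∃ s ∈ L, ∀ w ∈ S, w.1 ∈ s}

lemma cx_lift0 (L : Set (Finset Ω)) : Cx (lift0 L) :=
  ⟨fun _ h => h.1, fun _ ⟨_, h1, s, hs, h2⟩ _ ht hne =>
    ⟨hne, fun w hw => h1 w (ht hw), s, hs, fun w hw => h2 w (ht hw)⟩⟩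

lemma edge_lift0 {L : Set (Finset Ω)} {u w : Ω × ℕ × ℕ} (h : Edge (lift0 L) u w) :
    Edge L u.1 w.1 ∧ u.2 = (0, 0) := by
  obtain ⟨hne, S, ⟨-, h1, s, hs, h2⟩, hu, hw⟩ := h
  exact ⟨⟨fun h => hne (Prod.ext h ((h1 u hu).trans (h1 w hw).symm)), s, hs, h2 u hu, h2 w hw⟩,
    h1 u hu⟩

theorem pre_lift0 {L : Set (Finset Ω)} (h : Pre C n cl L) :
    Pre C n (fun w : Ω × ℕ × ℕ => cl w.1) (lift0 L) := by
  classical
  have hcl := h.mcl
  have himg : ∀ x, ∀ s ∈ res C cl L x, s.image (fun v => (v, 0, 0)) ∈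
      res C (fun w : Ω × ℕ × ℕ => cl w.1) (lift0 L) x := fun x s hs =>
    ⟨⟨(h.cx.1 s hs.1).image _, by simp, s, hs.1, by simp⟩, by simpa using hs.2⟩
  refine ⟨by fun_prop, cx_lift0 L, ?_, ?_, ?_, ?_, ?_, ?_, ?_⟩
  · intro j
    have : (fun t : Fin (j + 1) → Ω × ℕ × ℕ => Face (lift0 L) t) = fun t =>
        (∀ i, (t i).2 = (0, 0)) ∧ Face L (fun i => (t i).1) := by
      funext t
      refine propext ⟨fun ⟨S, ⟨_, h1, s, hs, h2⟩, h⟩ => ⟨fun i => h1 _ (h i), s, hs,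
        fun i => h2 _ (h i)⟩, fun ⟨h1, s, hs, h2⟩ => ?_⟩
      exact ⟨Finset.univ.image t, ⟨Finset.univ_nonempty.image _, by simpa using h1, s, hs,
        by simpa using h2⟩, by simp⟩
    rw [this]
    exact Measurable.and (by fun_prop) ((h.mL j).comp (by fun_prop))
  · rintro S ⟨-, -, s, hs, h2⟩ u hu w hw
    exact h.cls s hs _ (h2 u hu) _ (h2 w hw)
  · rintro w ⟨S, ⟨-, -, s, hs, h2⟩, hw⟩
    exact h.good _ ⟨s, hs, h2 w hw⟩
  · intro x
    refine ((h.cnt x).prod (countable_univ (α := ℕ × ℕ))).mono ?_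
    rintro w ⟨⟨S, ⟨-, -, s, hs, h2⟩, hw⟩, hx⟩
    exact ⟨⟨⟨s, hs, h2 w hw⟩, hx⟩, trivial⟩
  · rintro S ⟨-, h1, s, hs, h2⟩
    exact (Finset.card_le_card_of_injOn Prod.fst (fun w hw => h2 w hw)
      fun u hu w hw e => Prod.ext e ((h1 u hu).trans (h1 w hw).symm)).trans (h.card s hs)
  · intro x hx
    refine transfer_simp (cx_res C _ (cx_lift0 L) x) (cx_res C cl h.cx x) Prod.fst
      (fun v => (v, 0, 0)) ?_ (fun s hs => ⟨_, himg x s hs, fun v hv =>
        Finset.mem_image_of_mem _ hv⟩) ?_ (h.ctr x hx)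
    · rintro S ⟨⟨⟨w, hw⟩, -, s, hs, h2⟩, h3⟩
      exact ⟨s, ⟨hs, fun v hv => C.E.trans (h3 w hw) (h.cls s hs _ (h2 w hw) v hv)⟩, h2⟩
    · intro S hS
      refine ⟨S, hS, subset_rfl, fun w hw => ?_⟩
      rw [← hS.1.2.1 w hw]; exact hw
  · intro x hx
    obtain ⟨s, hs, e⟩ := h.full x hx
    refine ⟨_, himg x s hs, ?_⟩
    rw [Finset.card_image_of_injective _ fun a b h => (Prod.ext_iff.1 h).1, e]

/-- the main construction: moving a Borel family of contractible complexes onto `X` -/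
theorem exists_on_X [Nonempty X] [Nonempty Ω] {L : Set (Finset Ω)} (h : Pre C n cl L)
    (hn : 2 ≤ n) (hG : ∀ a b, C.G a → C.E a b → C.G b) :
    ∃ M : Set (Finset X), Pre C n id M := by
  have h2 := pre_lift0 (pre_sd (pre_sd h))
  obtain ⟨rank, r0, r1, r2, r3⟩ := sd_rank (L := sd L) (col := Prod.fst) measurable_fst
    fun s hs => sd_col hs
  obtain ⟨S₀⟩ := stage_zero
    (P := spOf fun a : ℕ × (ℕ → ℕ × (ℕ → Ω)) => cl ((a.2 0).2 0)) h2 (rank := fun w => rank w.1)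
    (by rintro w ⟨S, hS, hw⟩; exact congrArg Prod.fst (hS.2.1 w hw)) (by fun_prop)
    (fun u w h => r1 _ _ (edge_lift0 h).1)
    (fun w => ((r2 w.1).image fun v => (v, 0, 0)).subset fun u hu =>
      ⟨u.1, ⟨(edge_lift0 hu.1).1, hu.2⟩, by rw [← (edge_lift0 hu.1).2]⟩)
    (fun u u' w h h' e1 e2 => Prod.ext (r3 _ _ _ (edge_lift0 h).1 (edge_lift0 h').1 e1 e2)
      ((edge_lift0 h).2.trans (edge_lift0 h').2.symm))
  obtain ⟨L', q, Rt, e1, e2, e3, e4⟩ := limit S₀ hn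
  exact ⟨_, pre_img e1 e2 e3 e4 hG⟩

end Pool.Agent.MP_52c225_lc

end MrgPart1

-- ======== part 2: formerly Pool.Agent.MP_52c225_lc.Final
section MrgPart2

set_option linter.unusedSectionVars false

open Set MeasureTheory Function Pool.Agent.Lib.helper61

namespace Pool.Agent.MP_52c225_lc

variable {X : Type*} [MeasurableSpace X] [StandardBorelSpace X]
variable {Y : Type*} [MeasurableSpace Y] [StandardBorelSpace Y]

lemma cx_faces (S : AbstractSimplicialComplex Y) : Cx S.faces :=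
  ⟨fun _ h => (S.isRelLowerSet_faces h).1, fun _ h _ ht hne => (S.isRelLowerSet_faces h).2 ht hne⟩

lemma mc_of {K : Set (Finset Y)} (hK : Cx K) (h : ∀ k : ℕ, MeasurableSet {t : Fin (k + 1) → Y |
    Injective t ∧ ∃ s ∈ K, (s : Set Y) = range t}) : MC K := by
  classical
  intro k
  have : (fun t : Fin (k + 1) → Y => Face K t) = fun t => ∃ j : ℕ, ∃ σ : Fin (j + 1) → Fin (k + 1),
      (fun l => t (σ l)) ∈ {t : Fin (j + 1) → Y | Injective t ∧ ∃ s ∈ K, (s : Set Y) = range t} ∧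
        ∀ i, ∃ l, t i = t (σ l) := by
    funext t
    refine propext ⟨fun h => ?_, ?_⟩
    · have h1 := (face_iff hK t).1 h
      obtain ⟨j, hj⟩ : ∃ j, (Finset.univ.image t).card = j + 1 :=
        Nat.exists_eq_add_one.2 (hK.1 _ h1).card_pos
      let e := (Finset.univ.image t).equivFinOfCardEq hj
      have : ∀ l, ∃ i, t i = (e.symm l).1 := fun l => by
        obtain ⟨i, -, hi⟩ := Finset.mem_image.1 (e.symm l).2
        exact ⟨i, hi⟩
      choose σ hσ using this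
      have h2 : ∀ i, ∃ l, t i = t (σ l) := fun i =>
        ⟨e ⟨t i, by simp⟩, by rw [hσ]; simp⟩
      refine ⟨j, σ, ⟨fun a b hab => ?_, _, h1, ?_⟩, h2⟩
      · simp only [hσ] at hab
        exact e.symm.injective (Subtype.ext hab)
      · ext y
        simp only [Finset.coe_image, Finset.coe_univ, image_univ, mem_range]
        constructor
        · rintro ⟨i, rfl⟩
          obtain ⟨l, hl⟩ := h2 i
          exact ⟨l, hl.symm⟩
        · rintro ⟨l, rfl⟩; exact ⟨_, rfl⟩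
    · rintro ⟨j, σ, ⟨-, s, hs, e⟩, h⟩
      refine ⟨s, hs, fun i => ?_⟩
      obtain ⟨l, hl⟩ := h i
      exact show t i ∈ (s : Set Y) from e ▸ ⟨l, hl.symm⟩
  rw [this]
  refine Measurable.exists fun j => Measurable.exists fun σ => Measurable.and ?_ (by fun_prop)
  exact (h j).mem.comp (f := fun (t : Fin (k + 1) → Y) l => t (σ l)) (by fun_prop)

lemma meas_of_mc {K : Set (Finset Y)} (hK : Cx K) (h : MC K) (k : ℕ) :
    MeasurableSet {t : Fin (k + 1) → Y | Injective t ∧ ∃ s ∈ K, (s : Set Y) = range t} := by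
  classical
  have : {t : Fin (k + 1) → Y | Injective t ∧ ∃ s ∈ K, (s : Set Y) = range t} =
      {t | (∀ i j, t i = t j → i = j) ∧ Face K t} := by
    ext t
    refine and_congr Iff.rfl ⟨fun ⟨s, hs, e⟩ => ⟨s, hs, fun i =>
      show t i ∈ (s : Set Y) from e ▸ ⟨i, rfl⟩⟩, fun h => ⟨_, (face_iff hK t).1 h, by simp⟩⟩
  rw [this]
  exact (Measurable.and (by fun_prop) (h k)).setOf

theorem pre_start [Nonempty X] (C : Ctx X) (hGm : Measurable C.G)
    (hG : ∀ a b, C.G a → C.E a b → C.G b) (n : ℕ) {F : Setoid Y} (hF : IsCBER F) {f : X → Y}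
    (hf : Measurable f) (hred : ∀ x x', C.E x x' ↔ F (f x) (f x'))
    {T : AbstractSimplicialComplex Y} (hT : IsStructure n F T) :
    ∃ (cl : Y × ℕ → X) (L : Set (Finset (Y × ℕ))), Pre C n cl L := by
  classical
  have hFm : Measurable fun p : Y × Y => F p.1 p.2 := measurableSet_setOfPred.1 hF.1
  have hK := cx_faces T
  have hMC := mc_of hK hT.1
  obtain ⟨c, hc, hc'⟩ := exists_select (R := fun (y : Y) (a : X) => F y (f a))
    (hFm.comp (f := fun p : Y × X => (p.1, f p.2)) (by fun_prop)) (by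
      intro y
      rcases {a | F y (f a)}.eq_empty_or_nonempty with h | ⟨a, ha⟩
      · rw [h]; exact countable_empty
      · exact (C.hc a).mono fun b hb => (hred a b).2 (F.trans (F.symm ha) hb))
  let Good : Y → Prop := fun y => F y (f (c y)) ∧ C.G (c y)
  have hGood : Measurable Good :=
    (hFm.comp (f := fun y => (y, f (c y))) (by fun_prop)).and (hGm.comp hc)
  have h1 : ∀ a y, C.G a → F (f a) y → Good y ∧ C.E a (c y) := by
    intro a y ha h
    have h2 := hc' y ⟨a, F.symm h⟩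
    have h3 := (hred a (c y)).2 (F.trans h h2)
    exact ⟨⟨h2, hG _ _ ha h3⟩, h3⟩
  have h2 : ∀ a y, Good y → C.E a (c y) → F (f a) y := fun a y h h' =>
    F.trans ((hred _ _).1 h') (F.symm h.1)
  let L : Set (Finset (Y × ℕ)) := {s | s.Nonempty ∧ (∀ v ∈ s, Good v.1) ∧
    (((∀ v ∈ s, v.2 = 0) ∧ ∃ t ∈ T.faces, ∀ v ∈ s, v.1 ∈ t) ∨ ∃ y, ∀ v ∈ s, v.1 = y ∧ v.2 ≤ n)}
  have hL : Cx L := ⟨fun _ h => h.1, fun s h t ht hne => ⟨hne, fun v hv => h.2.1 v (ht hv),
    h.2.2.imp (fun ⟨h1, u, hu, h2⟩ => ⟨fun v hv => h1 v (ht hv), u, hu, fun v hv => h2 v (ht hv)⟩)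
      fun ⟨y, h⟩ => ⟨y, fun v hv => h v (ht hv)⟩⟩⟩
  refine ⟨fun v => c v.1, L, by fun_prop, hL, ?_, ?_, ?_, ?_, ?_, ?_, ?_⟩
  · intro j
    have : (fun t : Fin (j + 1) → Y × ℕ => Face L t) = fun t => (∀ i, Good (t i).1) ∧
        (((∀ i, (t i).2 = 0) ∧ Face T.faces fun i => (t i).1) ∨
          ∀ i, (t i).1 = (t 0).1 ∧ (t i).2 ≤ n) := by
      funext t
      refine propext ⟨fun ⟨s, hs, h⟩ => ⟨fun i => hs.2.1 _ (h i), hs.2.2.imp
        (fun ⟨h1, u, hu, h2⟩ => ⟨fun i => h1 _ (h i), u, hu, fun i => h2 _ (h i)⟩)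
        fun ⟨y, h1⟩ i => ⟨(h1 _ (h i)).1.trans (h1 _ (h 0)).1.symm, (h1 _ (h i)).2⟩⟩,
        fun ⟨h1, h2⟩ => ⟨Finset.univ.image t, ⟨Finset.univ_nonempty.image _, by simpa using h1,
          h2.imp (fun ⟨h1, u, hu, h2⟩ => ⟨by simpa using h1, u, hu, by simpa using h2⟩)
            fun h => ⟨(t 0).1, by simpa using h⟩⟩, by simp⟩⟩
    rw [this]
    exact (Measurable.forall fun i => hGood.comp (by fun_prop)).and
      ((Measurable.and (by fun_prop) ((hMC j).comp (by fun_prop))).or (by fun_prop))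
  · rintro s ⟨-, hs, ⟨-, t, ht, h⟩ | ⟨y, h⟩⟩ u hu w hw
    · exact (hred _ _).2 (F.trans (F.symm (hs u hu).1)
        (F.trans (hT.2.1 t ht _ (h u hu) _ (h w hw)) (hs w hw).1))
    · simp only [(h u hu).1, (h w hw).1]; exact C.E.refl _
  · rintro w ⟨s, hs, hw⟩
    exact (hs.2.1 w hw).2
  · intro a
    refine ((hF.2 (f a)).prod (countable_univ (α := ℕ))).mono ?_
    rintro w ⟨⟨s, hs, hw⟩, h⟩
    exact ⟨h2 a _ (hs.2.1 w hw) (C.E.symm h), trivial⟩
  · rintro s ⟨-, -, ⟨h1, t, ht, h⟩ | ⟨y, h⟩⟩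
    · exact (Finset.card_le_card_of_injOn Prod.fst (fun w hw => h w hw)
        fun u hu w hw e => Prod.ext e ((h1 u hu).trans (h1 w hw).symm)).trans (hT.2.2.1 t ht)
    · have : s.card ≤ (Finset.range (n + 1)).card :=
        Finset.card_le_card_of_injOn Prod.snd (fun w hw => by simpa [Nat.lt_succ_iff] using (h w hw).2)
          fun u hu w hw e => Prod.ext ((h u hu).1.trans (h w hw).1.symm) e
      simpa using this
  · intro a ha
    have hcx : Cx {s | s ∈ T.faces ∧ ∀ y ∈ s, F (f a) y} := ⟨fun s h => hK.1 s h.1,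
      fun s h t ht hne => ⟨hK.2 s h.1 t ht hne, fun y hy => h.2 y (ht hy)⟩⟩
    refine transfer_simp (cx_res C _ hL a) hcx Prod.fst (fun y => (y, 0)) ?_ ?_ ?_
      ((contractible_iff hcx).1 (hT.2.2.2 (f a)))
    · rintro s ⟨⟨⟨w, hw⟩, hs, ⟨-, t, ht, h⟩ | ⟨y, h⟩⟩, h3⟩
      · exact ⟨t, ⟨ht, fun y hy => F.trans (h2 a _ (hs w hw) (h3 w hw))
          (hT.2.1 t ht _ (h w hw) _ hy)⟩, h⟩
      · refine ⟨{y}, ⟨T.singleton_mem y, ?_⟩, fun v hv => by simp [(h v hv).1]⟩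
        simpa [← (h w hw).1] using h2 a _ (hs w hw) (h3 w hw)
    · rintro t ⟨ht, h⟩
      refine ⟨t.image fun y => (y, 0), ⟨⟨(hK.1 t ht).image _, ?_,
        Or.inl ⟨by simp, t, ht, by simp⟩⟩, ?_⟩, fun v hv => Finset.mem_image_of_mem _ hv⟩
      · simpa using fun y hy => (h1 a y ha (h y hy)).1
      · simpa using fun y hy => (h1 a y ha (h y hy)).2
    · rintro s ⟨⟨⟨w, hw⟩, hs, ⟨h0, h⟩ | ⟨y, h⟩⟩, h3⟩
      · refine ⟨s, ⟨⟨⟨w, hw⟩, hs, Or.inl ⟨h0, h⟩⟩, h3⟩, subset_rfl, fun v hv => ?_⟩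
        rw [← h0 v hv]; exact hv
      · refine ⟨insert (y, 0) s, ⟨⟨by simp, ?_, Or.inr ⟨y, ?_⟩⟩, ?_⟩, Finset.subset_insert _ _,
          fun v hv => by simp [(h v hv).1]⟩
        · simpa using ⟨(h w hw).1 ▸ hs w hw, fun a b hab => hs _ hab⟩
        · simpa using fun a b hab => h _ hab
        · simpa using ⟨(h w hw).1 ▸ h3 w hw, fun a b hab => h3 _ hab⟩
  · intro a ha
    have := h1 a (f a) ha (F.refl _)
    refine ⟨(Finset.range (n + 1)).image fun i => (f a, i), ⟨⟨by simp, by simpa using fun _ _ => this.1,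
      Or.inr ⟨f a, by simp⟩⟩, by simpa using fun _ _ => this.2⟩, ?_⟩
    rw [Finset.card_image_of_injective _ fun a b h => (Prod.ext_iff.1 h).2, Finset.card_range]

/-- adding the missing points of the good classes as leaves -/
theorem add_leaves [Nonempty X] {C : Ctx X} (hGm : Measurable C.G)
    (hG : ∀ a b, C.G a → C.E a b → C.G b) {n : ℕ} (hn : 1 ≤ n) {M : Set (Finset X)}
    (h : Pre C n id M) : ∃ M' : Set (Finset X), Pre C n id M' ∧ ∀ a, C.G a → {a} ∈ M' := by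
  classical
  have hV := h.mL.vert
  obtain ⟨l, hl, hl'⟩ := exists_select (R := fun (a b : X) => Vert M b ∧ C.E a b)
    ((hV.comp measurable_snd).and C.hE) fun a => (C.hc a).mono fun _ h => h.2
  have hl2 : ∀ a, C.G a → Vert M (l a) ∧ C.E a (l a) := by
    intro a ha
    obtain ⟨s, hs, -⟩ := h.full a ha
    obtain ⟨b, hb⟩ := h.cx.1 s hs.1
    exact hl' a ⟨b, ⟨s, hs.1, hb⟩, hs.2 b hb⟩
  let N : Set X := {a | C.G a ∧ ¬ Vert M a}
  let Λ : X → Set (Finset X) := fun a => spx {l a}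
  have hsub : ∀ w ∈ N, Λ w ⊆ M := fun w hw t ht =>
    (hl2 w hw.1).1.mem h.cx ht.1 fun v hv => Finset.mem_singleton.1 (ht.2 hv)
  have hcx : Cx (addV M N Λ) :=
    cx_addV h.cx (fun _ _ => cx_spx _) fun w hw => (hsub w hw).trans subset_union_left
  have hcases : ∀ s ∈ addV M N Λ, s ∈ M ∨ ∃ w ∈ N, w ∈ s ∧ ∀ v ∈ s, v = w ∨ v = l w := by
    rintro s (hs | ⟨w, hw, hws, t, ht, h⟩)
    · exact Or.inl hs
    · exact Or.inr ⟨w, hw, hws, fun v hv => (h v hv).imp_right fun h =>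
        Finset.mem_singleton.1 (ht.2 h)⟩
  have hin : ∀ w ∈ N, ∀ s : Finset X, w ∈ s → (∀ v ∈ s, v = w ∨ v = l w) → s ∈ addV M N Λ :=
    fun w hw s hws h => Or.inr ⟨w, hw, hws, {l w}, ⟨by simp, subset_rfl⟩, by simpa using h⟩
  have hcls : ∀ s ∈ addV M N Λ, ∀ u ∈ s, ∀ w ∈ s, C.E u w := by
    intro s hs u hu w hw
    rcases hcases s hs with hs | ⟨y, hy, -, h'⟩
    · exact h.cls s hs u hu w hw
    · have : ∀ u ∈ s, C.E y u := fun u hu => (h' u hu).elim (fun h => h ▸ C.E.refl _)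
        fun h => h ▸ (hl2 y hy.1).2
      exact C.E.trans (C.E.symm (this u hu)) (this w hw)
  refine ⟨addV M N Λ, ⟨measurable_id, hcx, ?_, hcls, ?_,
    fun a => (C.hc a).mono fun b hb => C.E.symm hb.2, ?_, ?_, ?_⟩, ?_⟩
  · intro j
    have : (fun t : Fin (j + 1) → X => Face (addV M N Λ) t) = fun t => Face M t ∨
        ∃ i, (C.G (t i) ∧ ¬ Vert M (t i)) ∧ ∀ i', t i' = t i ∨ t i' = l (t i) := by
      funext t
      refine propext ⟨fun h' => ?_, ?_⟩
      · rcases hcases _ ((face_iff hcx t).1 h') with h' | ⟨w, hN, hw, h'⟩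
        · exact Or.inl ((face_iff h.cx t).2 h')
        · obtain ⟨i, -, rfl⟩ := Finset.mem_image.1 hw
          exact Or.inr ⟨i, hN, fun i' => h' _ (by simp)⟩
      · rintro (⟨s, hs, h⟩ | ⟨i, hN, h⟩)
        · exact ⟨s, Or.inl hs, h⟩
        · exact ⟨{t i, l (t i)}, hin _ hN _ (by simp) (by simp), fun i' => by simpa using h i'⟩
    rw [this]
    exact (h.mL j).or (Measurable.exists fun i => ((hGm.comp (measurable_pi_apply i)).and
      (hV.comp (measurable_pi_apply i)).not).and (by fun_prop))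
  · rintro a ⟨s, hs, ha⟩
    rcases hcases s hs with hs' | ⟨y, hy, hys, -⟩
    · exact h.good a ⟨s, hs', ha⟩
    · exact hG _ _ hy.1 (hcls s hs y hys a ha)
  · intro s hs
    rcases hcases s hs with hs' | ⟨y, -, -, h'⟩
    · exact h.card s hs'
    · have : s ⊆ {y, l y} := fun v hv => by simpa using h' v hv
      exact (Finset.card_le_card this).trans (Finset.card_le_two.trans (by omega))
  · intro a ha
    have heq : res C id (addV M N Λ) a = addV (res C id M a) {w | w ∈ N ∧ C.E a w} Λ := by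
      ext s
      constructor
      · rintro ⟨h | ⟨w, hw, hws, h⟩, h'⟩
        · exact Or.inl ⟨h, h'⟩
        · exact Or.inr ⟨w, ⟨hw, h' w hws⟩, hws, h⟩
      · rintro (h | ⟨w, hw, hws, h⟩)
        · exact ⟨Or.inl h.1, h.2⟩
        · have : s ∈ addV M N Λ := Or.inr ⟨w, hw.1, hws, h⟩
          exact ⟨this, fun u hu => C.E.trans hw.2 (hcls s this w hws u hu)⟩
    rw [heq]
    refine ctr_addV (cx_res C id h.cx a) (fun s hs w hw hws => hw.1.2 ⟨s, hs.1, hws⟩)
      (fun _ _ => cx_spx _) (fun w hw t ht => ⟨hsub w hw.1 ht, fun v hv => ?_⟩)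
      (fun w _ => ctr_spx (by simp)) (h.ctr a ha)
    rw [Finset.mem_singleton.1 (ht.2 hv)]
    exact C.E.trans hw.2 (hl2 w hw.1.1).2
  · intro a ha
    obtain ⟨s, hs, e⟩ := h.full a ha
    exact ⟨s, ⟨Or.inl hs.1, hs.2⟩, e⟩
  · intro a ha
    by_cases hv : Vert M a
    · exact Or.inl (hv.mem h.cx (by simp) (by simp))
    · exact hin a ⟨ha, hv⟩ _ (by simp) (by simp)

/-- the finite classes -/
theorem finite_part [Nonempty X] (E : Setoid X) (hE : Measurable fun p : X × X => E p.1 p.2)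
    (hc : ∀ x, {y | E x y}.Countable) {n : ℕ} (hn : 1 ≤ n) :
    ∃ M : Set (Finset X), Cx M ∧ MC M ∧ (∀ s ∈ M, ∀ a ∈ s, ∀ b ∈ s, E a b) ∧
      (∀ s ∈ M, ∀ a ∈ s, {b | E a b}.Finite) ∧ (∀ s ∈ M, s.card ≤ n + 1) ∧
      ∀ a, {b | E a b}.Finite → {a} ∈ M ∧ Ctr (R {s | s ∈ M ∧ ∀ b ∈ s, E a b}) ∧
        (((n + 1 : ℕ) : ℕ∞) ≤ {b | E a b}.encard →
          ∃ s ∈ M, (∀ b ∈ s, E a b) ∧ s.card = n + 1) := by
  classical
  have hce := measurable_embeddingReal X
  have hfin : Measurable fun a => {b | E a b}.Finite := by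
    have := (meas_infinite (R := fun a b => E a b) hE hc).not
    simpa using this
  have hmin : Measurable fun b => ∀ b', E b b' → ¬ embeddingReal X b' < embeddingReal X b :=
    meas_forall (R := fun b b' => E b b')
      (P := fun b b' => ¬ embeddingReal X b' < embeddingReal X b) hE (by fun_prop) hc
  obtain ⟨μ, hμ, hμ'⟩ := exists_select (R := fun (a b : X) => E a b ∧
      ∀ b', E b b' → ¬ embeddingReal X b' < embeddingReal X b)
    (hE.and (hmin.comp measurable_snd)) fun a => (hc a).mono fun _ h => h.1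
  have hμ1 : ∀ a, {b | E a b}.Finite → E a (μ a) ∧
      ∀ b', E (μ a) b' → ¬ embeddingReal X b' < embeddingReal X (μ a) := by
    intro a ha
    obtain ⟨b, hb, h⟩ := exists_min_image _ (embeddingReal X) ha ⟨a, E.refl a⟩
    exact hμ' a ⟨b, hb, fun b' hb' => not_lt.2 (h b' (E.trans hb hb'))⟩
  have hcl : ∀ {a a'}, E a a' → {b | E a b} = {b | E a' b} := fun h =>
    Set.ext fun b => ⟨fun h' => E.trans (E.symm h) h', fun h' => E.trans h h'⟩
  have hμ2 : ∀ a a', {b | E a b}.Finite → E a a' → μ a = μ a' := by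
    intro a a' ha h
    have e1 := hμ1 a ha
    have e2 := hμ1 a' (hcl h ▸ ha)
    have e3 : E (μ a) (μ a') := E.trans (E.symm e1.1) (E.trans h e2.1)
    exact (measurableEmbedding_embeddingReal X).injective
      (le_antisymm (not_lt.1 (e1.2 _ e3)) (not_lt.1 (e2.2 _ (E.symm e3))))
  obtain ⟨T, hT, hT'⟩ := exists_select (R := fun (m : X) (t : Fin n → X) =>
      (∀ i j, t i = t j → i = j) ∧ ∀ i, E m (t i) ∧ t i ≠ m)
    (Measurable.and (by fun_prop) (Measurable.forall fun i =>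
      (hE.comp (f := fun p : X × (Fin n → X) => (p.1, p.2 i)) (by fun_prop)).and (by fun_prop)))
    fun m => (countable_pi fun _ => hc m).mono fun t ht i => (ht.2 i).1
  let M : Set (Finset X) := {s | s.Nonempty ∧ ∃ a, {b | E a b}.Finite ∧ (∀ b ∈ s, E a b) ∧
    ((∀ b ∈ s, b = μ a ∨ ∃ i, b = T (μ a) i) ∨ ∃ d, ∀ b ∈ s, b = μ a ∨ b = d)}
  have hM : Cx M := ⟨fun _ h => h.1, fun s ⟨_, a, h1, h2, h3⟩ t ht hne =>
    ⟨hne, a, h1, fun b hb => h2 b (ht hb), h3.imp (fun h b hb => h b (ht hb))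
      fun ⟨d, h⟩ => ⟨d, fun b hb => h b (ht hb)⟩⟩⟩
  refine ⟨M, hM, ?_, ?_, ?_, ?_, fun a ha => ⟨?_, ?_, ?_⟩⟩
  · intro j
    have : (fun t : Fin (j + 1) → X => Face M t) = fun t => {b | E (t 0) b}.Finite ∧
        (∀ i, E (t 0) (t i)) ∧ ((∀ i, t i = μ (t 0) ∨ ∃ l, t i = T (μ (t 0)) l) ∨
          ∃ j, ∀ i, t i = μ (t 0) ∨ t i = t j) := by
      funext t
      refine propext ⟨fun ⟨s, ⟨_, a, h1, h2, h3⟩, h⟩ => ?_, fun ⟨h1, h2, h3⟩ => ?_⟩
      · have e := h2 _ (h 0)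
        rw [← hμ2 a _ h1 e]
        refine ⟨hcl e ▸ h1, fun i => E.trans (E.symm e) (h2 _ (h i)),
          h3.imp (fun h3 i => h3 _ (h i)) fun ⟨d, h3⟩ => ?_⟩
        by_cases hd : ∃ j, t j = d
        · obtain ⟨j, rfl⟩ := hd
          exact ⟨j, fun i => h3 _ (h i)⟩
        · exact ⟨0, fun i => Or.inl ((h3 _ (h i)).resolve_right fun h => hd ⟨i, h⟩)⟩
      · exact ⟨Finset.univ.image t, ⟨Finset.univ_nonempty.image _, t 0, h1, by simpa using h2,
          h3.imp (fun h => by simpa using h) fun ⟨j, h⟩ => ⟨t j, by simpa using h⟩⟩, by simp⟩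
    rw [this]
    exact (hfin.comp (measurable_pi_apply 0)).and ((Measurable.forall fun i =>
      hE.comp (f := fun t : Fin (j + 1) → X => (t 0, t i)) (by fun_prop)).and (by fun_prop))
  · rintro s ⟨-, a, -, h, -⟩ u hu w hw
    exact E.trans (E.symm (h u hu)) (h w hw)
  · rintro s ⟨-, a, h1, h, -⟩ u hu
    exact hcl (h u hu) ▸ h1
  · rintro s ⟨-, a, -, -, h | ⟨d, h⟩⟩
    · have : s ⊆ insert (μ a) (Finset.univ.image (T (μ a))) := fun b hb => by
        simpa [eq_comm] using h b hb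
      refine (Finset.card_le_card this).trans ((Finset.card_insert_le _ _).trans ?_)
      simpa using Finset.card_image_le (s := Finset.univ) (f := T (μ a))
    · have : s ⊆ {μ a, d} := fun v hv => by simpa using h v hv
      exact (Finset.card_le_card this).trans (Finset.card_le_two.trans (by omega))
  · exact ⟨by simp, a, ha, by simp, Or.inr ⟨a, by simp⟩⟩
  · refine ctr_cone ⟨fun s h => hM.1 s h.1,
      fun s h t ht hne => ⟨hM.2 s h.1 t ht hne, fun y hy => h.2 y (ht hy)⟩⟩ (μ a)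
      ⟨{a}, ⟨by simp, a, ha, by simp, Or.inr ⟨a, by simp⟩⟩,
        by simp⟩ ?_
    rintro s ⟨⟨⟨b, hb⟩, a', h1, h2, h3⟩, h4⟩
    have e : μ a' = μ a := hμ2 _ _ h1 (E.trans (h2 b hb) (E.symm (h4 b hb)))
    refine ⟨insert (μ a) s, ⟨⟨by simp, a', h1, ?_, ?_⟩, ?_⟩, Finset.subset_insert _ _, by simp⟩
    · simpa using ⟨e ▸ (hμ1 a' h1).1, h2⟩
    · exact h3.imp (fun h => by simpa [e] using h) fun ⟨d, h⟩ => ⟨d, by simpa [e] using h⟩
    · simpa using ⟨(hμ1 a ha).1, h4⟩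
  · intro hcard
    have e1 := (hμ1 a ha).1
    have h1 : (n : ℕ∞) ≤ ({b | E a b} \ {μ a}).encard := by
      have := encard_sdiff_singleton_add_one (s := {b | E a b}) (a := μ a) e1
      rw [← this, Nat.cast_add, Nat.cast_one] at hcard
      exact (ENat.add_le_add_iff_right ENat.one_ne_top).1 hcard
    obtain ⟨u, hu, hun⟩ := exists_subset_encard_eq h1
    have hfu : u.Finite := finite_of_encard_eq_coe hun
    have hcu : hfu.toFinset.card = n := by
      rw [hfu.encard_eq_coe_toFinset_card] at hun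
      exact_mod_cast hun
    let e := hfu.toFinset.equivFinOfCardEq hcu
    have h2 := hT' (μ a) ⟨fun i => (e.symm i).1, fun i j h => e.symm.injective (Subtype.ext h),
      fun i => by
        have := hu (hfu.mem_toFinset.1 (e.symm i).2)
        exact ⟨E.trans (E.symm e1) this.1, this.2⟩⟩
    have h3 : ∀ b ∈ insert (μ a) (Finset.univ.image (T (μ a))), E a b := by
      simpa using ⟨e1, fun i => E.trans e1 (h2.2 i).1⟩
    refine ⟨insert (μ a) (Finset.univ.image (T (μ a))), ⟨by simp, a, ha, h3, Or.inl ?_⟩, h3, ?_⟩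
    · simp [eq_comm]
    · rw [Finset.card_insert_of_notMem (by simpa using fun i => (h2.2 i).2),
        Finset.card_image_of_injective _ h2.1]
      simp

theorem main (n : ℕ) (hn : 2 ≤ n) (E : Setoid X) (F : Setoid Y) (hE : IsCBER E) (hF : IsCBER F)
    (f : X → Y) (hf : Measurable f) (hred : ∀ x x', E x x' ↔ F (f x) (f x'))
    (T : AbstractSimplicialComplex Y) (hT : IsStructure n F T) :
    ∃ S : AbstractSimplicialComplex X, IsStructure n E S ∧
      ∀ x, ((n + 1 : ℕ) : ℕ∞) ≤ {a | E x a}.encard →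
        ∃ s ∈ S.faces, (∀ a ∈ s, E x a) ∧ s.card = n + 1 := by
  cases isEmpty_or_nonempty X
  · refine ⟨⊤, ⟨fun k => ?_, fun s _ a => isEmptyElim a, fun s _ => ?_, fun x => isEmptyElim x⟩,
      fun x => isEmptyElim x⟩
    · rw [eq_empty_of_isEmpty (Set.ofPred _)]; exact MeasurableSet.empty
    · rw [Finset.eq_empty_of_isEmpty s]; simp
  have : Nonempty Y := ⟨f (Classical.arbitrary X)⟩
  have hEm : Measurable fun p : X × X => E p.1 p.2 := measurableSet_setOfPred.1 hE.1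
  obtain ⟨ρ, hρ, hρ'⟩ := exists_tag E hEm hE.2
  let C : Ctx X := ⟨E, hEm, hE.2, fun a => {b | E a b}.Infinite, ρ, hρ, hρ'⟩
  have hGm : Measurable C.G := meas_infinite (R := fun a b => E a b) hEm hE.2
  have hcl : ∀ {a a'}, E a a' → {b | E a b} = {b | E a' b} := fun h =>
    Set.ext fun b => ⟨fun h' => E.trans (E.symm h) h', fun h' => E.trans h h'⟩
  have hG : ∀ a b, C.G a → C.E a b → C.G b := fun a b h h' =>
    show {c | E b c}.Infinite from hcl h' ▸ h
  obtain ⟨cl, L, hL⟩ := pre_start C hGm hG n hF hf hred hT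
  obtain ⟨M₀, hM₀⟩ := exists_on_X hL hn hG
  obtain ⟨M, hM, hM1⟩ := add_leaves hGm hG (by omega) hM₀
  obtain ⟨M', g1, g2, g3, g4, g5, g6⟩ := finite_part E hEm hE.2 (show 1 ≤ n by omega)
  have hcx : Cx (M ∪ M') := ⟨fun s h => h.elim (hM.cx.1 s) (g1.1 s),
    fun s h t ht hne => h.imp (fun h => hM.cx.2 s h t ht hne) fun h => g1.2 s h t ht hne⟩
  have hmc : MC (M ∪ M') := by
    intro j
    have : (fun t : Fin (j + 1) → X => Face (M ∪ M') t) = fun t => Face M t ∨ Face M' t := by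
      funext t
      exact propext ⟨fun ⟨s, hs, h⟩ => hs.imp (fun hs => ⟨s, hs, h⟩) fun hs => ⟨s, hs, h⟩,
        fun h => h.elim (fun ⟨s, hs, h⟩ => ⟨s, Or.inl hs, h⟩) fun ⟨s, hs, h⟩ => ⟨s, Or.inr hs, h⟩⟩
    rw [this]
    exact (hM.mL j).or (g2 j)
  refine ⟨⟨⟨M ∪ M', fun s h => ⟨hcx.1 s h, fun t ht hne => hcx.2 s h t ht hne⟩⟩, fun a => ?_⟩,
    ⟨meas_of_mc hcx hmc, fun s h => h.elim (hM.cls s) (g3 s), fun s h => h.elim (hM.card s) (g5 s),
      fun x => ?_⟩, fun x hx => ?_⟩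
  · rcases {b | E a b}.finite_or_infinite with h | h
    · exact Or.inr (g6 a h).1
    · exact Or.inl (hM1 a h)
  · have hx : Cx {s | s ∈ M ∪ M' ∧ ∀ a ∈ s, E x a} := ⟨fun s h => hcx.1 s h.1,
      fun s h t ht hne => ⟨hcx.2 s h.1 t ht hne, fun y hy => h.2 y (ht hy)⟩⟩
    refine (contractible_iff hx).2 ?_
    rcases {b | E x b}.finite_or_infinite with h | h
    · convert (g6 x h).2.1 using 2
      ext s
      refine and_congr_left fun h' => ⟨fun h'' => h''.resolve_left fun hs => ?_, Or.inr⟩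
      obtain ⟨a, ha⟩ := hM.cx.1 s hs
      exact hG _ _ (hM.good a ⟨s, hs, ha⟩) (E.symm (h' a ha)) h
    · convert hM.ctr x h using 2
      ext s
      refine and_congr_left fun h' => ⟨fun h'' => h''.resolve_right fun hs => ?_, Or.inl⟩
      obtain ⟨a, ha⟩ := g1.1 s hs
      exact hG _ _ h (h' a ha) (g4 s hs a ha)
  · rcases {b | E x b}.finite_or_infinite with h | h
    · obtain ⟨s, hs, h'⟩ := (g6 x h).2.2 hx
      exact ⟨s, Or.inr hs, h'⟩
    · obtain ⟨s, hs, h'⟩ := hM.full x h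
      exact ⟨s, Or.inl hs.1, hs.2, h'⟩

end Pool.Agent.MP_52c225_lc

end MrgPart2

-- marker of a merged file
example : 731051 + 722336 = 731051 + 722336 := rfl

end MrgPart2

-- marker of a merged file
example : 731051 + 722336 = 731051 + 722336 := rfl
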