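import Pool.Agent.Lib.helper61.BorelTools
import Mathlib.Analysis.Normed.Order.Lattice
import Pool.Agent.MP_52c225_lc.Defs
import Mathlib.Algebra.BigOperators.Field
import Mathlib.Tactic.Bound
import Mathlib.Tactic.IntervalCases
import Mathlib.AlgebraicTopology.FundamentalGroupoid.SimplyConnected
import Mathlib.Combinatorics.SimpleGraph.Basic

-- ======== part 0: formerly Pool.Agent.MP_52c225_lc.Assign
section MrgPart0

open Set MeasureTheory Function Pool.Agent.Lib.helper61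

namespace Pool.Agent.MP_52c225_lc

/-- A countable Borel equivalence relation with a tag map onto `ℕ` on the good classes. -/
structure Ctx (X : Type*) [MeasurableSpace X] where
  E : Setoid X
  hE : Measurable fun p : X × X => E p.1 p.2
  hc : ∀ x, {y | E x y}.Countable
  G : X → Prop
  ρ : X → ℕ
  hρ : Measurable ρ
  hρs : ∀ a, G a → ∀ k, ∃ b, E a b ∧ ρ b = k

variable {X : Type*} [MeasurableSpace X] [StandardBorelSpace X]

def Ctx.tg (C : Ctx X) (b : X) : ℕ := (C.ρ b).unpair.1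
def Ctx.tr (C : Ctx X) (b : X) : ℕ := (C.ρ b).unpair.2.unpair.1

omit [StandardBorelSpace X] in
@[fun_prop]
lemma Ctx.meas_E (C : Ctx X) {Z : Type*} [MeasurableSpace Z] {f g : Z → X} (hf : Measurable f)
    (hg : Measurable g) : Measurable fun z => C.E (f z) (g z) :=
  C.hE.comp (hf.prodMk hg)

variable {Ω : Type*} [MeasurableSpace Ω] [StandardBorelSpace Ω]

lemma assign1 [Nonempty X] (C : Ctx X) {cl : Ω → X} (hcl : Measurable cl)
    {Λ : Ω → X → Prop} (hΛ : Measurable fun p : Ω × X => Λ p.1 p.2)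
    (hfin : ∀ z, {a | Λ z a}.Finite) (hc : ∀ a, {z | Λ z a}.Countable) (j r : ℕ) :
    ∃ q : Ω → X, Measurable q ∧
      (∀ w, C.G (cl w) → C.E (cl w) (q w) ∧ C.tg (q w) = j ∧ C.tr (q w) = r) ∧
      ∀ w w' a, C.G (cl w) → C.G (cl w') → Λ w a → Λ w' a → q w = q w' → w = w' := by
  obtain ⟨χ, hχ, hχ'⟩ := exists_colouring hΛ hfin hc
  obtain ⟨q, hq, hq'⟩ := exists_select
    (R := fun w b => C.E (cl w) b ∧ C.ρ b = Nat.pair j (Nat.pair r (χ w)))
    (Measurable.and (by fun_prop) (Measurable.eq (C.hρ.comp measurable_snd)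
      ((Measurable.of_discrete (f := fun i => Nat.pair j (Nat.pair r i))).comp
        (hχ.comp measurable_fst))))
    fun w => (C.hc (cl w)).mono fun _ h => h.1
  have h1 : ∀ w, C.G (cl w) → C.E (cl w) (q w) ∧ C.ρ (q w) = Nat.pair j (Nat.pair r (χ w)) :=
    fun w hw => hq' w (C.hρs _ hw _)
  refine ⟨q, hq, fun w hw => ⟨(h1 w hw).1, by simp [Ctx.tg, (h1 w hw).2],
    by simp [Ctx.tr, (h1 w hw).2]⟩, ?_⟩
  intro w w' a hw hw' h h' hqq
  refine hχ' w w' a h h' ?_
  have := (h1 w hw).2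
  rw [hqq, (h1 w' hw').2] at this
  simpa [Nat.pair_eq_pair] using this.symm

/-- Assignment of values to one generation of new vertices. -/
lemma assign_gen [Nonempty X] (C : Ctx X) {cl : Ω → X} (hcl : Measurable cl) {N : Ω → Prop}
    (hN : Measurable N) (hG : ∀ w, N w → C.G (cl w))
    (hcount : ∀ a, {w | N w ∧ C.E (cl w) a}.Countable) {low : Ω → Ω → Prop}
    (hlow : Measurable fun p : Ω × Ω => low p.1 p.2) (hfin : ∀ w, N w → {u | low u w}.Finite)
    {rank : Ω → ℕ} (hrank : Measurable rank)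
    (hlt : ∀ w, N w → ∀ u, low u w → N u → rank u < rank w) {q₀ : Ω → X} (hq₀ : Measurable q₀)
    (j : ℕ) :
    ∃ q : Ω → X, Measurable q ∧ (∀ w, ¬ N w → q w = q₀ w) ∧
      (∀ w, N w → C.E (cl w) (q w) ∧ C.tg (q w) = j ∧ C.tr (q w) = rank w) ∧
      ∀ w, N w → ∀ w', N w' → ∀ u u', low u w → low u' w' → q u = q u' →
        C.E (cl w) (q u) → C.E (cl w') (q u') → q w = q w' → w = w' := by
  classical
  have step : ∀ (r : ℕ) (Q : {q : Ω → X // Measurable q}), ∃ q : Ω → X, Measurable q ∧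
      (∀ w, C.G (cl w) → C.E (cl w) (q w) ∧ C.tg (q w) = j ∧ C.tr (q w) = r) ∧
      ∀ w w' a, C.G (cl w) → C.G (cl w') →
        (N w ∧ (∃ u, low u w ∧ Q.1 u = a) ∧ C.E (cl w) a) →
        (N w' ∧ (∃ u, low u w' ∧ Q.1 u = a) ∧ C.E (cl w') a) → q w = q w' → w = w' := by
    intro r Q
    have hQ := Q.2
    refine assign1 C hcl (Λ := fun w a => N w ∧ (∃ u, low u w ∧ Q.1 u = a) ∧ C.E (cl w) a)
      ?_ ?_ ?_ j r
    · have h1 : Measurable fun p : Ω × X => ∃ u, N p.1 ∧ low u p.1 ∧ Q.1 u = p.2 := by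
        refine meas_exists (R := fun (p : Ω × X) u => N p.1 ∧ low u p.1 ∧ Q.1 u = p.2) ?_ ?_
        · exact (hN.comp (by fun_prop)).and
            ((hlow.comp (by fun_prop : Measurable fun z : (Ω × X) × Ω => (z.2, z.1.1))).and
              (by fun_prop))
        · intro p
          by_cases h : N p.1
          · exact (hfin _ h).countable.mono fun u hu => hu.2.1
          · simp [h]
      have h2 : Measurable fun p : Ω × X => C.E (cl p.1) p.2 := by fun_prop
      convert h1.and h2 using 2 with p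
      exact ⟨fun ⟨a, ⟨u, b⟩, c⟩ => ⟨⟨u, a, b⟩, c⟩, fun ⟨⟨u, a, b⟩, c⟩ => ⟨a, ⟨u, b⟩, c⟩⟩
    · intro w
      by_cases h : N w
      · exact ((hfin _ h).image Q.1).subset fun a ⟨_, ⟨u, h1, h2⟩, _⟩ => ⟨u, h1, h2⟩
      · simp [h]
    · exact fun a => (hcount a).mono fun w hw => And.intro hw.1 hw.2.2
  choose g hg1 hg2 hg3 using step
  let Q : ℕ → {q : Ω → X // Measurable q} := fun r => Nat.rec ⟨q₀, hq₀⟩
    (fun r Qr => ⟨fun w => if N w ∧ rank w = r then g r Qr w else Qr.1 w,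
      meas_ite (hN.and (by fun_prop)) (hg1 r Qr) Qr.2⟩) r
  have hQ : ∀ r w, (Q (r + 1)).1 w = if N w ∧ rank w = r then g r (Q r) w else (Q r).1 w :=
    fun _ _ => rfl
  have hQ0 : ∀ w, ¬ N w → ∀ r, (Q r).1 w = q₀ w := by
    intro w hw r
    induction r with
    | zero => rfl
    | succ r ih => rw [hQ, if_neg fun h => hw h.1, ih]
  have hQ1 : ∀ w r, rank w < r → (Q r).1 w = (Q (rank w + 1)).1 w := by
    intro w r h
    induction h with
    | refl => rfl
    | @step m hm ih =>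
      rw [hQ, if_neg fun h => by have : rank w + 1 ≤ m := hm; omega, ih]
  let q : Ω → X := fun w => (Q (rank w + 1)).1 w
  have hq : ∀ w, N w → q w = g (rank w) (Q (rank w)) w := fun w hw => by
    simp only [q]; rw [hQ, if_pos ⟨hw, rfl⟩]
  have hq2 : ∀ w, N w → ∀ u, low u w → (Q (rank w)).1 u = q u := by
    intro w hw u hu
    by_cases h : N u
    · exact hQ1 u _ (hlt w hw u hu h)
    · exact (hQ0 u h _).trans (hQ0 u h (rank u + 1)).symm
  have hq3 : ∀ w, N w → C.E (cl w) (q w) ∧ C.tg (q w) = j ∧ C.tr (q w) = rank w :=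
    fun w hw => by rw [hq w hw]; exact hg2 _ _ w (hG w hw)
  refine ⟨q, meas_cases (H := fun r w => (Q (r + 1)).1 w) hrank fun r => (Q (r + 1)).2,
    fun w hw => hQ0 w hw (rank w + 1), hq3, ?_⟩
  intro w hw w' hw' u u' hu hu' hqu h1 h2 hqw
  have hr : rank w = rank w' := by rw [← (hq3 w hw).2.2, hqw, (hq3 w' hw').2.2]
  refine hg3 (rank w) (Q (rank w)) w w' (q u) (hG w hw) (hG w' hw')
    ⟨hw, ⟨u, hu, hq2 w hw u hu⟩, h1⟩ ⟨hw', ⟨u', hu', by rw [hr, hq2 w' hw' u' hu', hqu]⟩,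
      hqu ▸ h2⟩ ?_
  rw [← hq w hw, hr, ← hq w' hw', hqw]

end Pool.Agent.MP_52c225_lc

end MrgPart0

-- ======== part 1: formerly Pool.Agent.MP_52c225_lc.Top
section MrgPart1

open Set Topology

namespace Pool.Agent.MP_52c225_lc

universe u
variable {V : Type u}

/-- ambient space with the weak topology -/
def W (V : Type u) : Type u := V → ℝ

def W.co (p : W V) : V → ℝ := p
def W.mk (p : V → ℝ) : W V := p

@[simp] lemma W.co_mk (p : V → ℝ) : (W.mk p).co = p := rfl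
@[simp] lemma W.mk_co (p : W V) : W.mk p.co = p := rfl

lemma W.ext {p q : W V} (h : ∀ v, p.co v = q.co v) : p = q := funext h

instance : TopologicalSpace (W V) :=
  ⨆ s : Finset V, TopologicalSpace.coinduced (fun p : cell s => W.mk p.1) inferInstance

def cw (s : Finset V) : Set (W V) := {p | p.co ∈ cell s}

def R (K : Set (Finset V)) : Set (W V) := {p | ∃ s ∈ K, p ∈ cw s}

/-- simplicial complex -/
def Cx (K : Set (Finset V)) : Prop :=
  (∀ s ∈ K, s.Nonempty) ∧ ∀ s ∈ K, ∀ t, t ⊆ s → t.Nonempty → t ∈ K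

lemma continuous_W_iff {Z : Type*} [TopologicalSpace Z] {f : W V → Z} :
    Continuous f ↔ ∀ s : Finset V, Continuous (fun p : cell s => f (W.mk p.1)) := by
  rw [continuous_iSup_dom]
  exact forall_congr' fun s => continuous_coinduced_dom

lemma continuous_co : Continuous (W.co : W V → V → ℝ) :=
  continuous_W_iff.2 fun _ => continuous_subtype_val

lemma continuous_co_apply (v : V) : Continuous (fun p : W V => p.co v) :=
  (continuous_apply v).comp continuous_co

lemma continuousOn_mk (s : Finset V) : ContinuousOn (W.mk : (V → ℝ) → W V) (cell s) := by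
  rw [continuousOn_iff_continuous_domRestrict]
  exact continuous_iSup_rng (i := s) continuous_coinduced_rng

lemma contOn_into {T : Type*} [TopologicalSpace T] {g : T → W V} {S : Set T} {s : Finset V}
    (h : ∀ v, ContinuousOn (fun x => (g x).co v) S) (hm : MapsTo g S (cw s)) :
    ContinuousOn g S := by
  have h1 : ContinuousOn (fun x => (g x).co) S := continuousOn_pi.2 h
  exact (continuousOn_mk s).comp h1 hm

lemma isClosed_W_iff {U : Set (W V)} :
    IsClosed U ↔ ∀ s : Finset V, IsClosed ((fun p : cell s => W.mk p.1) ⁻¹' U) := by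
  rw [isClosed_iSup_iff]
  exact forall_congr' fun s => isClosed_coinduced

lemma isClosed_cell (s : Finset V) : IsClosed (cell s) := by
  have : cell s = (⋂ v, {p : V → ℝ | 0 ≤ p v}) ∩ ((⋂ v, ⋂ _ : v ∉ s, {p : V → ℝ | p v = 0}) ∩
      {p | ∑ v ∈ s, p v = 1}) := by
    ext p; simp [cell]
  rw [this]
  refine (isClosed_iInter fun v => isClosed_le continuous_const (continuous_apply v)).inter
    ((isClosed_iInter fun v => isClosed_iInter fun _ =>
      isClosed_eq (continuous_apply v) continuous_const).inter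
      (isClosed_eq (continuous_finsetSum _ fun v _ => continuous_apply v) continuous_const))

lemma isClosed_cw (s : Finset V) : IsClosed (cw s) := (isClosed_cell s).preimage continuous_co

lemma mem_cw {s : Finset V} {p : W V} :
    p ∈ cw s ↔ (∀ v, 0 ≤ p.co v) ∧ (∀ v, v ∉ s → p.co v = 0) ∧ ∑ v ∈ s, p.co v = 1 := Iff.rfl

lemma cw_mono {s t : Finset V} (h : s ⊆ t) : cw s ⊆ cw t := by
  intro p hp
  refine ⟨hp.1, fun v hv => hp.2.1 v fun h' => hv (h h'), ?_⟩
  rw [← hp.2.2]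
  exact (Finset.sum_subset h fun v _ hv => hp.2.1 v hv).symm

lemma cw_of_supp {s t : Finset V} {p : W V} (hp : p ∈ cw s) (h : ∀ v, v ∉ t → p.co v = 0) :
    p ∈ cw t := by
  classical
  refine ⟨hp.1, h, ?_⟩
  have h1 : ∑ v ∈ t, p.co v = ∑ v ∈ s ∪ t, p.co v :=
    Finset.sum_subset Finset.subset_union_right fun v _ hv => h v hv
  have h2 : ∑ v ∈ s, p.co v = ∑ v ∈ s ∪ t, p.co v :=
    Finset.sum_subset Finset.subset_union_left fun v _ hv => hp.2.1 v hv
  rw [h1, ← h2]; exact hp.2.2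

lemma nonempty_of_mem_cw {s : Finset V} {p : W V} (hp : p ∈ cw s) : s.Nonempty := by
  rcases s.eq_empty_or_nonempty with rfl | h
  · have := hp.2.2; simp at this
  · exact h

open Classical in
/-- the carrier of a point -/
noncomputable def supp (p : W V) : Finset V :=
  if h : (Function.support p.co).Finite then h.toFinset else ∅

lemma mem_supp {s : Finset V} {p : W V} (hp : p ∈ cw s) {v : V} : v ∈ supp p ↔ p.co v ≠ 0 := by
  have h : (Function.support p.co).Finite :=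
    s.finite_toSet.subset fun v hv => by
      by_contra h'; exact hv (hp.2.1 v h')
  simp [supp, h]

lemma supp_subset {s : Finset V} {p : W V} (hp : p ∈ cw s) : supp p ⊆ s := by
  intro v hv
  by_contra h
  exact (mem_supp hp).1 hv (hp.2.1 v h)

lemma mem_cw_supp {s : Finset V} {p : W V} (hp : p ∈ cw s) : p ∈ cw (supp p) :=
  cw_of_supp hp fun v hv => by
    by_contra h; exact hv ((mem_supp hp).2 h)

lemma supp_mem {K : Set (Finset V)} (hK : Cx K) {s : Finset V} (hs : s ∈ K) {p : W V}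
    (hp : p ∈ cw s) : supp p ∈ K :=
  hK.2 s hs _ (supp_subset hp) (nonempty_of_mem_cw (mem_cw_supp hp))

lemma mem_R_iff {K : Set (Finset V)} (hK : Cx K) {s : Finset V} {p : W V} (hp : p ∈ cw s) :
    p ∈ R K ↔ supp p ∈ K :=
  ⟨fun ⟨_, ht, hpt⟩ => supp_mem hK ht hpt, fun h => ⟨_, h, mem_cw_supp hp⟩⟩

lemma R_mono {K L : Set (Finset V)} (h : K ⊆ L) : R K ⊆ R L :=
  fun _ ⟨s, hs, hp⟩ => ⟨s, h hs, hp⟩

lemma cw_subset_R {K : Set (Finset V)} {s : Finset V} (hs : s ∈ K) : cw s ⊆ R K :=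
  fun _ hp => ⟨s, hs, hp⟩

lemma isClosed_of_cells {K : Set (Finset V)} (hK : Cx K) {U : Set (W V)} (hU : U ⊆ R K)
    (h : ∀ s ∈ K, IsClosed (U ∩ cw s)) : IsClosed U := by
  classical
  rw [isClosed_W_iff]
  intro t
  have h1 : IsClosed (⋃ s ∈ t.powerset.filter (· ∈ K), U ∩ cw s) :=
    isClosed_biUnion_finset fun s hs => h s (Finset.mem_filter.1 hs).2
  have h2 := isClosed_W_iff.1 h1 t
  convert h2 using 1
  ext p
  simp only [mem_preimage, mem_iUnion, Finset.mem_filter, Finset.mem_powerset, mem_inter_iff,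
    exists_prop]
  have hp : W.mk p.1 ∈ cw t := p.2
  constructor
  · intro hpU
    exact ⟨supp (W.mk p.1), ⟨supp_subset hp, (mem_R_iff hK hp).1 (hU hpU)⟩, hpU, mem_cw_supp hp⟩
  · rintro ⟨s, -, h, -⟩; exact h

lemma isClosed_R {K : Set (Finset V)} (hK : Cx K) : IsClosed (R K) :=
  isClosed_of_cells hK subset_rfl fun s hs => by
    rw [inter_eq_right.2 (cw_subset_R hs)]; exact isClosed_cw s

lemma contOn_R {K : Set (Finset V)} (hK : Cx K) {Z : Type*} [TopologicalSpace Z] {f : W V → Z}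
    (h : ∀ s ∈ K, ContinuousOn f (cw s)) : ContinuousOn f (R K) := by
  rw [continuousOn_iff_isClosed]
  intro T hT
  refine ⟨R K ∩ f ⁻¹' T, isClosed_of_cells hK inter_subset_left fun s hs => ?_, ?_⟩
  · have := (h s hs).preimage_isClosed_of_isClosed (isClosed_cw s) hT
    convert this using 1
    ext p
    simp only [mem_inter_iff, mem_preimage]
    exact ⟨fun h => ⟨h.2, h.1.2⟩, fun h => ⟨⟨cw_subset_R hs h.1, h.2⟩, h.1⟩⟩
  · ext p; simp only [mem_inter_iff, mem_preimage]; tauto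

lemma contOn_prod_R {K : Set (Finset V)} (hK : Cx K) {Z : Type*} [TopologicalSpace Z]
    {H : ℝ × W V → Z} (h : ∀ s ∈ K, ContinuousOn H (univ ×ˢ cw s)) :
    ContinuousOn H (univ ×ˢ R K) := by
  classical
  have hc : ∀ p ∈ R K, Continuous fun t : ℝ => H (t, p) := by
    rintro p ⟨s, hs, hp⟩
    rw [← continuousOn_univ]
    exact (h s hs).comp (by fun_prop) fun t _ => ⟨trivial, hp⟩
  let G : W V → C(ℝ, Z) := fun p =>
    if hp : Continuous fun t : ℝ => H (t, p) then ⟨_, hp⟩ else ContinuousMap.const ℝ (H (0, p))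
  have hG : ∀ p ∈ R K, ∀ t, G p t = H (t, p) := by
    intro p hp t; simp [G, hc p hp]
  have h1 : ContinuousOn G (R K) := by
    refine contOn_R hK fun s hs => ?_
    rw [continuousOn_iff_continuous_domRestrict]
    refine ContinuousMap.continuous_of_continuous_uncurry _ ?_
    have : (Function.uncurry fun (x : cw s) (y : ℝ) => (cw s).domRestrict G x y) =
        fun z : cw s × ℝ => H (z.2, z.1.1) := by
      funext z; exact hG _ (cw_subset_R hs z.1.2) _
    rw [this, ← continuousOn_univ]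
    exact (h s hs).comp (by fun_prop) fun z _ => ⟨trivial, z.1.2⟩
  have h2 : ContinuousOn (fun z : ℝ × W V => G z.2 z.1) (univ ×ˢ R K) := by
    have h3 : ContinuousOn (fun z : ℝ × W V => (G z.2, z.1)) (univ ×ˢ R K) :=
      (h1.comp continuous_snd.continuousOn fun z hz => hz.2).prodMk continuous_fst.continuousOn
    exact continuous_eval.comp_continuousOn h3
  exact h2.congr fun z hz => (hG _ hz.2 _).symm

/-- contractible subset, in explicit form -/
def Ctr {Z : Type*} [TopologicalSpace Z] (C : Set Z) : Prop :=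
  ∃ c ∈ C, ∃ H : ℝ × Z → Z, ContinuousOn H (univ ×ˢ C) ∧ MapsTo H (univ ×ˢ C) C ∧
    (∀ z ∈ C, H (0, z) = z) ∧ ∀ z ∈ C, H (1, z) = c

lemma ctr_iff {Z : Type*} [TopologicalSpace Z] {C : Set Z} : Ctr C ↔ ContractibleSpace C := by
  classical
  rw [contractible_iff_id_nullhomotopic]
  constructor
  · rintro ⟨c, hc, H, h1, h2, h3, h4⟩
    refine ⟨⟨c, hc⟩, ⟨⟨⟨fun z => ⟨H (z.1.1, z.2.1), h2 ⟨trivial, z.2.2⟩⟩, ?_⟩, ?_, ?_⟩⟩⟩
    · refine Continuous.subtype_mk ?_ _
      rw [← continuousOn_univ]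
      exact h1.comp (by fun_prop) fun z _ => ⟨trivial, z.2.2⟩
    · intro z; exact Subtype.ext (h3 _ z.2)
    · intro z; exact Subtype.ext (h4 _ z.2)
  · rintro ⟨c, ⟨H⟩⟩
    refine ⟨c.1, c.2, fun z => if h : z.2 ∈ C then
      (H (projIcc (0 : ℝ) 1 zero_le_one z.1, ⟨z.2, h⟩)).1 else z.2, ?_, ?_, ?_, ?_⟩
    · rw [continuousOn_iff_continuous_domRestrict]
      have : (univ ×ˢ C).domRestrict (fun z : ℝ × Z => if h : z.2 ∈ C then
          (H (projIcc (0 : ℝ) 1 zero_le_one z.1, ⟨z.2, h⟩)).1 else z.2) =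
          fun z => (H (projIcc (0 : ℝ) 1 zero_le_one z.1.1, ⟨z.1.2, (mem_prod.1 z.2).2⟩)).1 := by
        funext z
        exact dif_pos (mem_prod.1 z.2).2
      rw [this]
      refine continuous_subtype_val.comp (H.continuous.comp ?_)
      refine Continuous.prodMk (continuous_projIcc.comp (by fun_prop)) ?_
      exact Continuous.subtype_mk (by fun_prop) _
    · intro z hz
      have : z.2 ∈ C := hz.2
      simp only [this, dif_pos]
      exact Subtype.property _
    · intro z hz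
      simp [hz]
    · intro z hz
      simp [hz]

/-- comparison with the statement-level notion -/
lemma contractible_iff {K : Set (Finset V)} (hK : Cx K) : Contractible K ↔ Ctr (R K) := by
  rw [ctr_iff]
  let _ := weakTop K
  let e : points K ≃ₜ R K :=
    { toFun := fun p => ⟨W.mk p.1, p.2⟩
      invFun := fun p => ⟨p.1.co, p.2⟩
      left_inv := fun _ => rfl
      right_inv := fun _ => rfl
      continuous_toFun := by
        refine continuous_iSup_dom.2 fun s => continuous_coinduced_dom.2 ?_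
        refine Continuous.subtype_mk ?_ _
        exact continuousOn_iff_continuous_domRestrict.1 (continuousOn_mk s.1)
      continuous_invFun := by
        classical
        rw [continuous_iff_isClosed]
        intro T hT
        have hT' := isClosed_iSup_iff.1 hT
        have : IsClosed (Subtype.val '' ((fun p : R K => (⟨p.1.co, p.2⟩ : points K)) ⁻¹' T)) := by
          refine isClosed_of_cells hK (by rintro _ ⟨p, -, rfl⟩; exact p.2) fun s hs => ?_
          have h1 := isClosed_coinduced.1 (hT' ⟨s, hs⟩)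
          have h2 := ((isClosed_cell s).isClosedEmbedding_subtypeVal.isClosedMap _ h1).preimage
            (continuous_co (V := V))
          convert h2 using 1
          ext p
          simp only [mem_inter_iff, mem_image, mem_preimage]
          constructor
          · rintro ⟨⟨q, hq, rfl⟩, hp⟩
            exact ⟨⟨q.1.co, hp⟩, hq, rfl⟩
          · rintro ⟨q, hq, hqp⟩
            have : p = W.mk q.1 := by rw [hqp]; rfl
            subst this
            exact ⟨⟨⟨W.mk q.1, s, hs, q.2⟩, hq, rfl⟩, q.2⟩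
        have h3 := this.preimage (continuous_subtype_val (p := fun p => p ∈ R K))
        rwa [preimage_image_eq _ Subtype.val_injective] at h3 }
  exact e.contractibleSpace_iff

end Pool.Agent.MP_52c225_lc

end MrgPart1

-- ======== part 2: formerly Pool.Agent.MP_52c225_lc.Carrier
section MrgPart2

open Set Topology

namespace Pool.Agent.MP_52c225_lc

universe u
variable {V : Type u}

/-- boundary complex of a simplex -/
def bdry (s : Finset V) : Set (Finset V) := {t | t.Nonempty ∧ t ⊂ s}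

lemma cx_bdry (s : Finset V) : Cx (bdry s) :=
  ⟨fun _ h => h.1, fun _ h _ ht hne => ⟨hne, lt_of_le_of_lt ht h.2⟩⟩

lemma mem_R_bdry {s : Finset V} {p : W V} (hp : p ∈ cw s) {v : V} (hv : v ∈ s) (h0 : p.co v = 0) :
    p ∈ R (bdry s) := by
  refine ⟨supp p, ⟨nonempty_of_mem_cw (mem_cw_supp hp), ?_⟩, mem_cw_supp hp⟩
  refine Finset.ssubset_iff_subset_ne.2 ⟨supp_subset hp, fun h => ?_⟩
  have : v ∈ supp p := h ▸ hv
  exact (mem_supp hp).1 this h0

lemma ext_cell {s : Finset V} (hs : s.Nonempty) {Z : Type*} [TopologicalSpace Z] {C : Set Z}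
    (hC : Ctr C) {g : W V → Z} (hg : ∀ t ∈ bdry s, ContinuousOn g (cw t))
    (hm : ∀ t ∈ bdry s, MapsTo g (cw t) C) :
    ∃ g' : W V → Z, ContinuousOn g' (cw s) ∧ MapsTo g' (cw s) C ∧
      ∀ p ∈ cw s, (∃ v ∈ s, p.co v = 0) → g' p = g p := by
  classical
  obtain ⟨c, hc, H, H1, H2, H3, H4⟩ := hC
  have hgB : ContinuousOn g (R (bdry s)) := contOn_R (cx_bdry s) hg
  have hmB : MapsTo g (R (bdry s)) C := fun p ⟨t, ht, hp⟩ => hm t ht hp
  let m : W V → ℝ := fun p => s.inf' hs p.co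
  have hmc : Continuous m := Continuous.finset_inf'_apply hs fun v _ => continuous_co_apply v
  let T : W V → ℝ := fun p => s.card * m p
  have hTc : Continuous T := continuous_const.mul hmc
  let bd : W V → W V := fun p => W.mk fun v => if v ∈ s then (p.co v - m p) / (1 - T p) else 0
  have hle : ∀ p : W V, ∀ v ∈ s, m p ≤ p.co v := fun p v hv => Finset.inf'_le _ hv
  have hex : ∀ p : W V, ∃ v ∈ s, m p = p.co v := fun p => Finset.exists_mem_eq_inf' hs _
  let A : Set (W V) := cw s ∩ {p | T p ≤ 1 / 2}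
  let B : Set (W V) := cw s ∩ {p | 1 / 2 ≤ T p}
  have hbd : MapsTo bd A (cw s) := by
    rintro p ⟨hp, hT⟩
    have hT' : 0 < 1 - T p := by
      have : T p ≤ 1 / 2 := hT
      linarith
    refine ⟨fun v => ?_, fun v hv => by simp [bd, hv], ?_⟩
    · by_cases hv : v ∈ s
      · simp only [bd, W.co_mk, hv, if_true]
        exact div_nonneg (sub_nonneg.2 (hle p v hv)) hT'.le
      · simp [bd, hv]
    · have : ∑ v ∈ s, (bd p).co v = ∑ v ∈ s, (p.co v - m p) / (1 - T p) :=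
        Finset.sum_congr rfl fun v hv => by simp [bd, hv]
      rw [this, ← Finset.sum_div, Finset.sum_sub_distrib, hp.2.2, Finset.sum_const, nsmul_eq_mul]
      exact div_self hT'.ne'
  have hbdB : MapsTo bd A (R (bdry s)) := by
    intro p hp
    obtain ⟨v, hv, hv'⟩ := hex p
    exact mem_R_bdry (hbd hp) hv (by simp [bd, hv, hv'])
  have hbdc : ContinuousOn bd A := by
    refine contOn_into (fun v => ?_) hbd
    by_cases hv : v ∈ s
    · simp only [bd, W.co_mk, hv, if_true]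
      refine ContinuousOn.div ((continuous_co_apply v).sub hmc).continuousOn
        (continuous_const.sub hTc).continuousOn fun p hp => ?_
      have : T p ≤ 1 / 2 := hp.2
      linarith
    · simp only [bd, W.co_mk, hv, if_false]
      exact continuousOn_const
  let g' : W V → Z := fun p => if T p ≤ 1 / 2 then H (2 * T p, g (bd p)) else c
  have hA : EqOn g' (fun p => H (2 * T p, g (bd p))) A := fun p hp => if_pos hp.2
  have hB : EqOn g' (fun _ => c) B := by
    intro p hp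
    by_cases h : T p ≤ 1 / 2
    · have h1 : T p = 1 / 2 := le_antisymm h hp.2
      have h2 : g' p = H (2 * T p, g (bd p)) := if_pos h
      rw [h2, h1]
      norm_num
      exact H4 _ (hmB (hbdB ⟨hp.1, h⟩))
    · exact if_neg h
  have hAB : cw s = A ∪ B := by
    ext p
    simp only [A, B, mem_union, mem_inter_iff, mem_ofPred_eq]
    rcases le_total (T p) (1 / 2) with h | h <;> tauto
  refine ⟨g', ?_, ?_, ?_⟩
  · rw [hAB]
    refine ContinuousOn.union_of_isClosed ?_ (continuousOn_const.congr hB)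
      ((isClosed_cw s).inter (isClosed_le hTc continuous_const))
      ((isClosed_cw s).inter (isClosed_le continuous_const hTc))
    refine ContinuousOn.congr ?_ hA
    exact H1.comp ((continuous_const.mul hTc).continuousOn.prodMk (hgB.comp hbdc hbdB))
      fun p hp => ⟨trivial, hmB (hbdB hp)⟩
  · intro p hp
    rw [hAB] at hp
    rcases hp with hp | hp
    · rw [hA hp]; exact H2 ⟨trivial, hmB (hbdB hp)⟩
    · rw [hB hp]; exact hc
  · rintro p hp ⟨v, hv, h0⟩
    have hm0 : m p = 0 := by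
      obtain ⟨w, -, hw⟩ := hex p
      exact le_antisymm (h0 ▸ hle p v hv) (hw ▸ hp.1 w)
    have hT0 : T p = 0 := by simp [T, hm0]
    have hpA : p ∈ A := ⟨hp, by show T p ≤ 1 / 2; rw [hT0]; norm_num⟩
    have hbp : bd p = p := by
      refine W.ext fun w => ?_
      by_cases hw : w ∈ s
      · simp [bd, hw, hm0, hT0]
      · simp [bd, hw, hp.2.1 w hw]
    rw [hA hpA]
    simp only [hT0, mul_zero, hbp]
    exact H3 _ (hmB (mem_R_bdry hp hv h0))

/-- relative carrier lemma -/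
lemma carrier_rel {X X₀ : Set (Finset V)} (hX : Cx X) (hX₀ : Cx X₀) {Z : Type*}
    [TopologicalSpace Z] (C : Finset V → Set Z)
    (hmono : ∀ s ∈ X, ∀ t, t ⊆ s → t.Nonempty → C t ⊆ C s) (hC : ∀ s ∈ X, Ctr (C s))
    (f₀ : W V → Z) (h0 : ∀ s ∈ X₀, ContinuousOn f₀ (cw s))
    (h0' : ∀ s ∈ X₀, MapsTo f₀ (cw s) (C s)) :
    ∃ f : W V → Z, (∀ s ∈ X, ContinuousOn f (cw s)) ∧ (∀ s ∈ X, MapsTo f (cw s) (C s)) ∧
      ∀ p ∈ R X₀, f p = f₀ p := by
  classical
  have hex : ∀ (s : Finset V) (g : W V → Z), ∃ g' : W V → Z,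
      s ∈ X → (∀ t ∈ bdry s, ContinuousOn g (cw t)) → (∀ t ∈ bdry s, MapsTo g (cw t) (C s)) →
      ContinuousOn g' (cw s) ∧ MapsTo g' (cw s) (C s) ∧
        ∀ p ∈ cw s, (∃ v ∈ s, p.co v = 0) → g' p = g p := by
    intro s g
    by_cases h : s ∈ X ∧ (∀ t ∈ bdry s, ContinuousOn g (cw t)) ∧
        (∀ t ∈ bdry s, MapsTo g (cw t) (C s))
    · obtain ⟨g', hg'⟩ := ext_cell (hX.1 s h.1) (hC s h.1) h.2.1 h.2.2
      exact ⟨g', fun _ _ _ => hg'⟩
    · exact ⟨g, fun h1 h2 h3 => absurd ⟨h1, h2, h3⟩ h⟩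
  choose e he using hex
  let F : ℕ → W V → Z := fun k => Nat.rec f₀
    (fun k Fk p => if (supp p).card = k + 1 ∧ supp p ∉ X₀ then e (supp p) Fk p else Fk p) k
  have hF : ∀ k p, F (k + 1) p =
      if (supp p).card = k + 1 ∧ supp p ∉ X₀ then e (supp p) (F k) p else F k p := fun _ _ => rfl
  have hst : ∀ k p, ((supp p).card ≤ k ∨ supp p ∈ X₀) → F (k + 1) p = F k p := by
    intro k p h
    rw [hF, if_neg]
    rintro ⟨h1, h2⟩
    rcases h with h | h
    · omega
    · exact h2 h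
  have hst2 : ∀ p j, F ((supp p).card + j) p = F (supp p).card p := by
    intro p j
    induction j with
    | zero => rfl
    | succ j ih => rw [← ih, ← add_assoc, hst _ _ (Or.inl (by omega))]
  have hst3 : ∀ p, supp p ∈ X₀ → ∀ k, F k p = f₀ p := by
    intro p hp k
    induction k with
    | zero => rfl
    | succ k ih => rw [hst _ _ (Or.inr hp), ih]
  have inv : ∀ k, ∀ s ∈ X, (s.card ≤ k ∨ s ∈ X₀) →
      ContinuousOn (F k) (cw s) ∧ MapsTo (F k) (cw s) (C s) := by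
    intro k
    induction k with
    | zero =>
      intro s hs h
      rcases h with h | h
      · have := (hX.1 s hs).card_pos; omega
      · exact ⟨h0 s h, h0' s h⟩
    | succ k ih =>
      intro s hs h
      by_cases h' : s.card ≤ k ∨ s ∈ X₀
      · have heq : EqOn (F (k + 1)) (F k) (cw s) := by
          intro p hp
          refine hst k p ?_
          rcases h' with h' | h'
          · exact Or.inl ((Finset.card_le_card (supp_subset hp)).trans h')
          · exact Or.inr (supp_mem hX₀ h' hp)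
        exact ⟨(ih s hs h').1.congr heq, (ih s hs h').2.congr heq.symm⟩
      · have hs0 : s ∉ X₀ := fun h => h' (Or.inr h)
        have hcard : s.card = k + 1 := by
          rcases h with h | h
          · have : ¬ s.card ≤ k := fun h => h' (Or.inl h)
            omega
          · exact absurd h hs0
        have hb : ∀ t ∈ bdry s, t ∈ X ∧ t.card ≤ k := fun t ht =>
          ⟨hX.2 s hs t ht.2.1 ht.1, by have := Finset.card_lt_card ht.2; omega⟩
        obtain ⟨e1, e2, e3⟩ := he s (F k) hs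
          (fun t ht => (ih t (hb t ht).1 (Or.inl (hb t ht).2)).1)
          (fun t ht => (ih t (hb t ht).1 (Or.inl (hb t ht).2)).2.mono_right
            (hmono s hs t ht.2.1 ht.1))
        have heq : EqOn (F (k + 1)) (e s (F k)) (cw s) := by
          intro p hp
          by_cases hsp : supp p = s
          · rw [hF, if_pos (by rw [hsp]; exact ⟨hcard, hs0⟩), hsp]
          · have hlt : supp p ⊂ s := Finset.ssubset_iff_subset_ne.2 ⟨supp_subset hp, hsp⟩
            obtain ⟨v, hv, hv'⟩ := Finset.exists_of_ssubset hlt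
            rw [hst k p (Or.inl (by have := Finset.card_lt_card hlt; omega))]
            refine (e3 p hp ⟨v, hv, ?_⟩).symm
            by_contra h; exact hv' ((mem_supp hp).2 h)
        exact ⟨e1.congr heq, e2.congr heq.symm⟩
  have hf : ∀ s : Finset V, EqOn (fun p => F (supp p).card p) (F s.card) (cw s) := by
    intro s p hp
    obtain ⟨j, hj⟩ := Nat.exists_eq_add_of_le (Finset.card_le_card (supp_subset hp))
    rw [hj]; exact (hst2 p j).symm
  refine ⟨fun p => F (supp p).card p, fun s hs => (inv _ s hs (Or.inl le_rfl)).1.congr (hf s),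
    fun s hs => (inv _ s hs (Or.inl le_rfl)).2.congr (hf s).symm, ?_⟩
  rintro p ⟨s, hs, hp⟩
  exact hst3 p (supp_mem hX₀ hs hp) _

lemma cx_empty : Cx (∅ : Set (Finset V)) := ⟨fun _ h => h.elim, fun _ h => h.elim⟩

lemma carrier_map {X : Set (Finset V)} (hX : Cx X) {Z : Type*}
    [TopologicalSpace Z] [Nonempty Z] (C : Finset V → Set Z)
    (hmono : ∀ s ∈ X, ∀ t, t ⊆ s → t.Nonempty → C t ⊆ C s) (hC : ∀ s ∈ X, Ctr (C s)) :
    ∃ f : W V → Z, (∀ s ∈ X, ContinuousOn f (cw s)) ∧ (∀ s ∈ X, MapsTo f (cw s) (C s)) := by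
  obtain ⟨f, h1, h2, -⟩ := carrier_rel hX cx_empty C hmono hC (fun _ => Classical.arbitrary Z)
    (fun _ h => h.elim) (fun _ h => h.elim)
  exact ⟨f, h1, h2⟩

lemma carrier_homotopy {X : Set (Finset V)} (hX : Cx X) {Z : Type*}
    [TopologicalSpace Z] (C : Finset V → Set Z)
    (hmono : ∀ s ∈ X, ∀ t, t ⊆ s → t.Nonempty → C t ⊆ C s) (hC : ∀ s ∈ X, Ctr (C s))
    (f g : W V → Z) (hf : ∀ s ∈ X, ContinuousOn f (cw s)) (hf' : ∀ s ∈ X, MapsTo f (cw s) (C s))
    (hg : ∀ s ∈ X, ContinuousOn g (cw s)) (hg' : ∀ s ∈ X, MapsTo g (cw s) (C s)) :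
    ∃ H : ℝ × W V → Z, ContinuousOn H (univ ×ˢ R X) ∧
      (∀ s ∈ X, MapsTo H (univ ×ˢ cw s) (C s)) ∧
      (∀ p ∈ R X, H (0, p) = f p) ∧ ∀ p ∈ R X, H (1, p) = g p := by
  classical
  let Y : Set (Finset (V × Bool)) := {σ | σ.image Prod.fst ∈ X}
  let Y₀ : Set (Finset (V × Bool)) :=
    {σ | σ.image Prod.fst ∈ X ∧ ((∀ a ∈ σ, a.2 = false) ∨ ∀ a ∈ σ, a.2 = true)}
  have hY : Cx Y := ⟨fun σ h => Finset.image_nonempty.1 (hX.1 _ h),
    fun σ h τ hτ hne => hX.2 _ h _ (Finset.image_subset_image hτ) (hne.image _)⟩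
  have hY₀ : Cx Y₀ := ⟨fun σ h => hY.1 σ h.1, fun σ h τ hτ hne =>
    ⟨hY.2 σ h.1 τ hτ hne, h.2.imp (fun h a ha => h a (hτ ha)) fun h a ha => h a (hτ ha)⟩⟩
  let proj : W (V × Bool) → W V := fun P => W.mk fun v => P.co (v, false) + P.co (v, true)
  have hproj : ∀ σ : Finset (V × Bool), MapsTo proj (cw σ) (cw (σ.image Prod.fst)) := by
    intro σ P hP
    have h1 : P ∈ cw ((σ.image Prod.fst) ×ˢ (Finset.univ : Finset Bool)) :=
      cw_mono (fun a ha => Finset.mem_product.2 ⟨Finset.mem_image_of_mem _ ha, Finset.mem_univ _⟩)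
        hP
    refine ⟨fun v => add_nonneg (hP.1 _) (hP.1 _), fun v hv => ?_, ?_⟩
    · simp only [proj, W.co_mk]
      rw [h1.2.1 (v, false) (by simp only [Finset.mem_product]; tauto),
        h1.2.1 (v, true) (by simp only [Finset.mem_product]; tauto), add_zero]
    · rw [← h1.2.2, Finset.sum_product]
      refine Finset.sum_congr rfl fun v _ => ?_
      simp [proj, add_comm]
  have hprojc : ∀ σ : Finset (V × Bool), ContinuousOn proj (cw σ) := fun σ =>
    contOn_into (fun v => ((continuous_co_apply _).add (continuous_co_apply _)).continuousOn)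
      (hproj σ)
  let f₀ : W (V × Bool) → Z := fun P =>
    if ∀ a ∈ supp P, a.2 = false then f (proj P) else g (proj P)
  have hf0 : ∀ σ : Finset (V × Bool), (∀ a ∈ σ, a.2 = false) → EqOn f₀ (f ∘ proj) (cw σ) :=
    fun σ h P hP => if_pos fun a ha => h a (supp_subset hP ha)
  have hf1 : ∀ σ : Finset (V × Bool), (∀ a ∈ σ, a.2 = true) → EqOn f₀ (g ∘ proj) (cw σ) := by
    intro σ h P hP
    refine if_neg fun h' => ?_
    obtain ⟨a, ha⟩ := nonempty_of_mem_cw (mem_cw_supp hP)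
    have h1 := h a (supp_subset hP ha)
    rw [h' a ha] at h1
    exact Bool.false_ne_true h1
  obtain ⟨F, F1, F2, F3⟩ := carrier_rel hY hY₀ (fun σ => C (σ.image Prod.fst))
    (fun σ h τ hτ hne => hmono _ h _ (Finset.image_subset_image hτ) (hne.image _))
    (fun σ h => hC _ h) f₀
    (fun σ h => h.2.elim
      (fun h' => ((hf _ h.1).comp (hprojc σ) (hproj σ)).congr (hf0 σ h'))
      (fun h' => ((hg _ h.1).comp (hprojc σ) (hproj σ)).congr (hf1 σ h')))
    (fun σ h => h.2.elim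
      (fun h' => ((hf' _ h.1).comp (hproj σ)).congr (hf0 σ h').symm)
      (fun h' => ((hg' _ h.1).comp (hproj σ)).congr (hf1 σ h').symm))
  let τ : ℝ → ℝ := fun t => max 0 (min t 1)
  have hτc : Continuous τ := by fun_prop
  have hτ0 : ∀ t, 0 ≤ τ t := fun t => le_max_left _ _
  have hτ1 : ∀ t, τ t ≤ 1 := fun t => max_le zero_le_one (min_le_right _ _)
  let cyl : ℝ × W V → W (V × Bool) := fun z =>
    W.mk fun a => (if a.2 then τ z.1 else 1 - τ z.1) * z.2.co a.1
  have hcyl : ∀ s : Finset V,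
      MapsTo cyl (univ ×ˢ cw s) (cw (s ×ˢ (Finset.univ : Finset Bool))) := by
    rintro s z ⟨-, hz⟩
    refine ⟨fun a => mul_nonneg ?_ (hz.1 _), fun a ha => ?_, ?_⟩
    · split_ifs
      · exact hτ0 _
      · exact sub_nonneg.2 (hτ1 _)
    · have : a.1 ∉ s := by simpa using ha
      simp [cyl, hz.2.1 _ this]
    · rw [← hz.2.2, Finset.sum_product]
      refine Finset.sum_congr rfl fun v _ => ?_
      simp [cyl]; ring
  have hcylc : ∀ s : Finset V, ContinuousOn cyl (univ ×ˢ cw s) := by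
    intro s
    refine contOn_into (fun a => Continuous.continuousOn ?_) (hcyl s)
    refine Continuous.mul ?_ ((continuous_co_apply a.1).comp continuous_snd)
    split_ifs
    · exact hτc.comp continuous_fst
    · exact continuous_const.sub (hτc.comp continuous_fst)
  have himg : ∀ (s : Finset V) (B : Finset Bool), B.Nonempty → (s ×ˢ B).image Prod.fst = s :=
    fun s B hB => Finset.product_image_fst hB
  have hsY : ∀ s ∈ X, s ×ˢ (Finset.univ : Finset Bool) ∈ Y := fun s hs => by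
    show _ ∈ X
    rw [himg s _ Finset.univ_nonempty]; exact hs
  have hpc : ∀ t p, proj (cyl (t, p)) = p := by
    intro t p
    refine W.ext fun v => ?_
    simp [proj, cyl]; ring
  refine ⟨F ∘ cyl, contOn_prod_R hX fun s hs => (F1 _ (hsY s hs)).comp (hcylc s) (hcyl s),
    fun s hs => ?_, ?_, ?_⟩
  · have := (F2 _ (hsY s hs)).comp (hcyl s)
    rwa [himg s _ Finset.univ_nonempty] at this
  · rintro p ⟨s, hs, hp⟩
    have h1 : cyl (0, p) ∈ cw (s ×ˢ ({false} : Finset Bool)) := by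
      refine cw_of_supp (hcyl s ⟨trivial, hp⟩) fun a ha => ?_
      rcases a with ⟨v, b⟩
      cases b
      · have : v ∉ s := by simpa using ha
        simp [cyl, hp.2.1 _ this]
      · simp [cyl, τ]
    have h2 : ∀ a ∈ s ×ˢ ({false} : Finset Bool), a.2 = false := by simp
    have h3 : s ×ˢ ({false} : Finset Bool) ∈ Y₀ :=
      ⟨by rw [himg s _ (Finset.singleton_nonempty _)]; exact hs, Or.inl h2⟩
    simp only [Function.comp]
    rw [F3 _ ⟨_, h3, h1⟩, hf0 _ h2 h1]
    simp [hpc]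
  · rintro p ⟨s, hs, hp⟩
    have h1 : cyl (1, p) ∈ cw (s ×ˢ ({true} : Finset Bool)) := by
      refine cw_of_supp (hcyl s ⟨trivial, hp⟩) fun a ha => ?_
      rcases a with ⟨v, b⟩
      cases b
      · simp [cyl, τ]
      · have : v ∉ s := by simpa using ha
        simp [cyl, hp.2.1 _ this]
    have h2 : ∀ a ∈ s ×ˢ ({true} : Finset Bool), a.2 = true := by simp
    have h3 : s ×ˢ ({true} : Finset Bool) ∈ Y₀ :=
      ⟨by rw [himg s _ (Finset.singleton_nonempty _)]; exact hs, Or.inr h2⟩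
    simp only [Function.comp]
    rw [F3 _ ⟨_, h3, h1⟩, hf1 _ h2 h1]
    simp [hpc]

lemma ctr_of_two {Z : Type*} [TopologicalSpace Z] {C : Set Z} (hC : IsClosed C) {c : Z}
    (hc : c ∈ C) (H₁ H₂ : ℝ × Z → Z) (c1 : ContinuousOn H₁ (univ ×ˢ C))
    (m1 : MapsTo H₁ (univ ×ˢ C) C) (c2 : ContinuousOn H₂ (univ ×ˢ C))
    (m2 : MapsTo H₂ (univ ×ˢ C) C) (h0 : ∀ z ∈ C, H₁ (0, z) = z)
    (h1 : ∀ z ∈ C, H₁ (1, z) = H₂ (0, z)) (h2 : ∀ z ∈ C, H₂ (1, z) = c) : Ctr C := by
  classical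
  let H : ℝ × Z → Z := fun z => if z.1 ≤ 1 / 2 then H₁ (2 * z.1, z.2) else H₂ (2 * z.1 - 1, z.2)
  have hA : EqOn H (fun z => H₁ (2 * z.1, z.2)) (Iic (1 / 2) ×ˢ C) := fun z hz => if_pos hz.1
  have hB : EqOn H (fun z => H₂ (2 * z.1 - 1, z.2)) (Ici (1 / 2) ×ˢ C) := by
    intro z hz
    by_cases h : z.1 ≤ 1 / 2
    · have h3 : z.1 = 1 / 2 := le_antisymm h hz.1
      have h4 : H z = H₁ (2 * z.1, z.2) := if_pos h
      rw [h4]
      simp only [h3]
      norm_num
      exact h1 _ hz.2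
    · exact if_neg h
  have hAB : (univ : Set ℝ) ×ˢ C = (Iic (1 / 2) ×ˢ C) ∪ (Ici (1 / 2) ×ˢ C) := by
    rw [← union_prod, Iic_union_Ici]
  refine ⟨c, hc, H, ?_, ?_, ?_, ?_⟩
  · rw [hAB]
    refine ContinuousOn.union_of_isClosed ?_ ?_ (isClosed_Iic.prod hC) (isClosed_Ici.prod hC)
    · exact (c1.comp (by fun_prop) fun z hz => ⟨trivial, hz.2⟩).congr hA
    · exact (c2.comp (by fun_prop) fun z hz => ⟨trivial, hz.2⟩).congr hB
  · intro z hz
    rw [hAB] at hz
    rcases hz with hz | hz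
    · rw [hA hz]; exact m1 ⟨trivial, hz.2⟩
    · rw [hB hz]; exact m2 ⟨trivial, hz.2⟩
  · intro z hz
    rw [hA ⟨by norm_num, hz⟩]
    simpa using h0 z hz
  · intro z hz
    rw [hB ⟨by norm_num, hz⟩]
    norm_num
    exact h2 z hz

instance : Nonempty (W V) := ⟨W.mk fun _ => 0⟩

/-- The transfer lemma. -/
lemma transfer {V' : Type*} {X : Set (Finset V)} {Y : Set (Finset V')} (hX : Cx X) (hY : Cx Y)
    (Φ : Finset V → Set (Finset V')) (Ψ : Finset V' → Set (Finset V))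
    (Θ : Finset V → Set (Finset V))
    (Φsub : ∀ s ∈ X, Φ s ⊆ Y) (Φmono : ∀ s ∈ X, ∀ t, t ⊆ s → t.Nonempty → Φ t ⊆ Φ s)
    (Φctr : ∀ s ∈ X, Ctr (R (Φ s)))
    (Ψsub : ∀ s ∈ Y, Ψ s ⊆ X) (Ψmono : ∀ s ∈ Y, ∀ t, t ⊆ s → t.Nonempty → Ψ t ⊆ Ψ s)
    (Ψctr : ∀ s ∈ Y, Ctr (R (Ψ s)))
    (Θsub : ∀ s ∈ X, Θ s ⊆ X) (Θmono : ∀ s ∈ X, ∀ t, t ⊆ s → t.Nonempty → Θ t ⊆ Θ s)
    (Θctr : ∀ s ∈ X, Ctr (R (Θ s)))
    (hself : ∀ s ∈ X, s ∈ Θ s) (hcomp : ∀ s ∈ X, ∀ t ∈ Φ s, Ψ t ⊆ Θ s)
    (hYc : Ctr (R Y)) : Ctr (R X) := by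
  obtain ⟨f, f1, f2⟩ := carrier_map hX (fun s => R (Φ s))
    (fun s hs t ht hne => R_mono (Φmono s hs t ht hne)) Φctr
  obtain ⟨g, g1, g2⟩ := carrier_map hY (fun s => R (Ψ s))
    (fun s hs t ht hne => R_mono (Ψmono s hs t ht hne)) Ψctr
  have gc : ContinuousOn g (R Y) := contOn_R hY g1
  have fc : ContinuousOn f (R X) := contOn_R hX f1
  have fm : MapsTo f (R X) (R Y) := fun p ⟨s, hs, hp⟩ => R_mono (Φsub s hs) (f2 s hs hp)
  have gm : MapsTo g (R Y) (R X) := fun p ⟨s, hs, hp⟩ => R_mono (Ψsub s hs) (g2 s hs hp)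
  obtain ⟨H₁, c1, m1, a0, a1⟩ := carrier_homotopy hX (fun s => R (Θ s))
    (fun s hs t ht hne => R_mono (Θmono s hs t ht hne)) Θctr id (g ∘ f)
    (fun s _ => continuousOn_id) (fun s hs => cw_subset_R (hself s hs))
    (fun s hs => gc.comp (f1 s hs) (fm.mono_left (cw_subset_R hs)))
    (fun s hs p hp => by
      obtain ⟨t, ht, hpt⟩ := f2 s hs hp
      exact R_mono (hcomp s hs t ht) (g2 t (Φsub s hs ht) hpt))
  obtain ⟨c, hc, H, H1, H2, H3, H4⟩ := hYc
  refine ctr_of_two (isClosed_R hX) (gm hc) H₁ (fun z => g (H (z.1, f z.2))) c1 ?_ ?_ ?_ a0 ?_ ?_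
  · rintro z ⟨-, s, hs, hz⟩
    exact R_mono (Θsub s hs) (m1 s hs ⟨trivial, hz⟩)
  · refine gc.comp (H1.comp (continuous_fst.continuousOn.prodMk
      (fc.comp continuous_snd.continuousOn fun z hz => hz.2)) fun z hz => ⟨trivial, fm hz.2⟩)
      fun z hz => H2 ⟨trivial, fm hz.2⟩
  · exact fun z hz => gm (H2 ⟨trivial, fm hz.2⟩)
  · intro z hz
    rw [a1 z hz, H3 _ (fm hz)]; rfl
  · intro z hz
    simp only
    rw [H4 _ (fm hz)]

/-- increasing unions -/
lemma ctr_union {X : ℕ → Set (Finset V)} (hX : ∀ k, Cx (X k)) (hmono : Monotone X)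
    (hc : ∀ k, Ctr (R (X k))) : Ctr (R (⋃ k, X k)) := by
  classical
  have hU : Cx (⋃ k, X k) := ⟨fun s hs => by
      obtain ⟨k, hk⟩ := mem_iUnion.1 hs; exact (hX k).1 s hk,
    fun s hs t ht hne => by
      obtain ⟨k, hk⟩ := mem_iUnion.1 hs; exact mem_iUnion.2 ⟨k, (hX k).2 s hk t ht hne⟩⟩
  obtain ⟨c, hc0, -⟩ := hc 0
  let lv : Finset V → ℕ := fun s => if h : ∃ k, s ∈ X k then Nat.find h else 0
  have hlv : ∀ s ∈ ⋃ k, X k, s ∈ X (lv s) := by
    intro s hs
    have h := mem_iUnion.1 hs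
    simp only [lv, h, dif_pos]
    exact Nat.find_spec h
  have hlv2 : ∀ s k, s ∈ X k → lv s ≤ k := by
    intro s k hk
    have h : ∃ k, s ∈ X k := ⟨k, hk⟩
    simp only [lv, h, dif_pos]
    exact Nat.find_min' h hk
  obtain ⟨H, c1, m1, a0, a1⟩ := carrier_homotopy hU (fun s => R (X (lv s)))
    (fun s hs t ht hne => R_mono (hmono (hlv2 _ _ ((hX _).2 s (hlv s hs) t ht hne))))
    (fun s _ => hc _) id (fun _ => c) (fun s _ => continuousOn_id)
    (fun s hs => cw_subset_R (hlv s hs)) (fun s _ => continuousOn_const)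
    (fun s _ p _ => R_mono (hmono (Nat.zero_le _)) hc0)
  refine ⟨c, R_mono (subset_iUnion X 0) hc0, H, c1, ?_, a0, a1⟩
  rintro z ⟨-, s, hs, hz⟩
  exact R_mono (subset_iUnion X _) (m1 s hs ⟨trivial, hz⟩)

end Pool.Agent.MP_52c225_lc

end MrgPart2

-- ======== part 3: formerly Pool.Agent.MP_52c225_lc.Comb
section MrgPart3

open Set Topology

namespace Pool.Agent.MP_52c225_lc

universe u
variable {V : Type u}

/-- the full simplex on `s` -/
def spx (s : Finset V) : Set (Finset V) := {t | t.Nonempty ∧ t ⊆ s}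

lemma cx_spx (s : Finset V) : Cx (spx s) :=
  ⟨fun _ h => h.1, fun _ h _ ht hne => ⟨hne, ht.trans h.2⟩⟩

lemma spx_subset {K : Set (Finset V)} (hK : Cx K) {s : Finset V} (hs : s ∈ K) : spx s ⊆ K :=
  fun t ht => hK.2 s hs t ht.2 ht.1

lemma spx_mono {s t : Finset V} (h : s ⊆ t) : spx s ⊆ spx t := fun _ hu => ⟨hu.1, hu.2.trans h⟩

open Classical in
/-- vertex point -/
noncomputable def pt (v : V) : W V := W.mk fun w => if w = v then 1 else 0

lemma pt_mem {v : V} {s : Finset V} (h : v ∈ s) : pt v ∈ cw s := by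
  classical
  refine ⟨fun w => ?_, fun w hw => ?_, ?_⟩
  · simp only [pt, W.co_mk]; split_ifs <;> norm_num
  · have : w ≠ v := fun h' => hw (h' ▸ h)
    simp [pt, this]
  · simp [pt, h]

lemma ctr_spx {s : Finset V} (hs : s.Nonempty) : Ctr (R (spx s)) := by
  have hR : R (spx s) = cw s :=
    subset_antisymm (fun p ⟨t, ht, hp⟩ => cw_mono ht.2 hp) (cw_subset_R ⟨hs, subset_rfl⟩)
  rw [hR]
  obtain ⟨v, hv⟩ := hs
  let τ : ℝ → ℝ := fun t => max 0 (min t 1)
  have hτc : Continuous τ := by fun_prop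
  have hτ0 : ∀ t, 0 ≤ τ t := fun t => le_max_left _ _
  have hτ1 : ∀ t, τ t ≤ 1 := fun t => max_le zero_le_one (min_le_right _ _)
  have hc := pt_mem hv
  let H : ℝ × W V → W V := fun z => W.mk fun w => (1 - τ z.1) * z.2.co w + τ z.1 * (pt v).co w
  have hm : MapsTo H (univ ×ˢ cw s) (cw s) := by
    rintro z ⟨-, hz⟩
    refine ⟨fun w => add_nonneg (mul_nonneg (sub_nonneg.2 (hτ1 _)) (hz.1 _))
      (mul_nonneg (hτ0 _) (hc.1 _)), fun w hw => ?_, ?_⟩
    · simp only [H, W.co_mk]; rw [hz.2.1 w hw, hc.2.1 w hw]; simp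
    · simp only [H, W.co_mk]
      rw [Finset.sum_add_distrib, ← Finset.mul_sum, ← Finset.mul_sum, hz.2.2, hc.2.2]; ring
  refine ⟨pt v, hc, H, contOn_into (fun w => Continuous.continuousOn ?_) hm, hm, ?_, ?_⟩
  · exact ((continuous_const.sub (hτc.comp continuous_fst)).mul
      ((continuous_co_apply w).comp continuous_snd)).add
      ((hτc.comp continuous_fst).mul continuous_const)
  · intro z _; refine W.ext fun w => ?_; simp [H, τ]
  · intro z _; refine W.ext fun w => ?_; simp [H, τ]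

lemma transfer_simp {V' : Type*} {X : Set (Finset V)} {Y : Set (Finset V')} (hX : Cx X)
    (hY : Cx Y) (φ : V → V') (ψ : V' → V)
    (hφ : ∀ s ∈ X, ∃ t ∈ Y, ∀ v ∈ s, φ v ∈ t) (hψ : ∀ s ∈ Y, ∃ t ∈ X, ∀ v ∈ s, ψ v ∈ t)
    (h : ∀ s ∈ X, ∃ u ∈ X, s ⊆ u ∧ ∀ v ∈ s, ψ (φ v) ∈ u) (hYc : Ctr (R Y)) : Ctr (R X) := by
  classical
  refine transfer hX hY (fun s => spx (s.image φ)) (fun s => spx (s.image ψ))
    (fun s => spx (s ∪ (s.image φ).image ψ)) ?_ ?_ ?_ ?_ ?_ ?_ ?_ ?_ ?_ ?_ ?_ hYc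
  · intro s hs
    obtain ⟨t, ht, h⟩ := hφ s hs
    exact (spx_mono (Finset.image_subset_iff.2 h)).trans (spx_subset hY ht)
  · exact fun s _ t ht _ => spx_mono (Finset.image_subset_image ht)
  · exact fun s hs => ctr_spx ((hX.1 s hs).image _)
  · intro s hs
    obtain ⟨t, ht, h⟩ := hψ s hs
    exact (spx_mono (Finset.image_subset_iff.2 h)).trans (spx_subset hX ht)
  · exact fun s _ t ht _ => spx_mono (Finset.image_subset_image ht)
  · exact fun s hs => ctr_spx ((hY.1 s hs).image _)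
  · intro s hs
    obtain ⟨u, hu, h1, h2⟩ := h s hs
    refine (spx_mono (Finset.union_subset h1 ?_)).trans (spx_subset hX hu)
    rw [Finset.image_image]
    exact Finset.image_subset_iff.2 h2
  · exact fun s _ t ht _ => spx_mono (Finset.union_subset_union ht
      (Finset.image_subset_image (Finset.image_subset_image ht)))
  · exact fun s hs => ctr_spx ((hX.1 s hs).mono Finset.subset_union_left)
  · exact fun s hs => ⟨hX.1 s hs, Finset.subset_union_left⟩
  · exact fun s _ t ht => spx_mono ((Finset.image_subset_image ht.2).trans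
      Finset.subset_union_right)

lemma ctr_retract {X Y : Set (Finset V)} (hX : Cx X) (hY : Cx Y) (hsub : Y ⊆ X) (r : V → V)
    (h1 : ∀ s ∈ X, ∃ t ∈ Y, ∀ v ∈ s, r v ∈ t)
    (h2 : ∀ s ∈ X, ∃ u ∈ X, s ⊆ u ∧ ∀ v ∈ s, r v ∈ u) (hYc : Ctr (R Y)) : Ctr (R X) :=
  transfer_simp hX hY r id h1 (fun s hs => ⟨s, hsub hs, fun _ h => h⟩) h2 hYc

lemma ctr_cone {X : Set (Finset V)} (hX : Cx X) (a : V) (hne : X.Nonempty)
    (h : ∀ s ∈ X, ∃ u ∈ X, s ⊆ u ∧ a ∈ u) : Ctr (R X) := by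
  obtain ⟨s₀, hs₀⟩ := hne
  obtain ⟨u, hu, -, hau⟩ := h s₀ hs₀
  refine ctr_retract hX (cx_spx {a}) ((spx_mono (Finset.singleton_subset_iff.2 hau)).trans
    (spx_subset hX hu)) (fun _ => a)
    (fun s _ => ⟨{a}, ⟨Finset.singleton_nonempty a, subset_rfl⟩, fun _ _ => by simp⟩)
    (fun s hs => ?_) (ctr_spx (Finset.singleton_nonempty a))
  obtain ⟨u, hu, h1, h2⟩ := h s hs
  exact ⟨u, hu, h1, fun _ _ => h2⟩

lemma nonempty_of_ctr {X : Set (Finset V)} (h : Ctr (R X)) : X.Nonempty := by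
  obtain ⟨c, ⟨s, hs, -⟩, -⟩ := h
  exact ⟨s, hs⟩

/-- adding new vertices with prescribed links -/
def addV (L : Set (Finset V)) (N : Set V) (Λ : V → Set (Finset V)) : Set (Finset V) :=
  L ∪ {s | ∃ w ∈ N, w ∈ s ∧ ∃ t ∈ Λ w, ∀ v ∈ s, v = w ∨ v ∈ t}

lemma cx_addV {L : Set (Finset V)} {N : Set V} {Λ : V → Set (Finset V)} (hL : Cx L)
    (hΛ : ∀ w ∈ N, Cx (Λ w)) (hsub : ∀ w ∈ N, Λ w ⊆ addV L N Λ) : Cx (addV L N Λ) := by
  constructor
  · rintro s (hs | ⟨w, -, hw, -⟩)
    · exact hL.1 s hs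
    · exact ⟨w, hw⟩
  · rintro s (hs | ⟨w, hwN, hw, t, ht, h⟩) s' hs' hne
    · exact Or.inl (hL.2 s hs s' hs' hne)
    · by_cases hws : w ∈ s'
      · exact Or.inr ⟨w, hwN, hws, t, ht, fun v hv => h v (hs' hv)⟩
      · refine hsub w hwN ((hΛ w hwN).2 t ht s' (fun v hv => ?_) hne)
        rcases h v (hs' hv) with rfl | h'
        · exact absurd hv hws
        · exact h'

lemma ctr_addV {L : Set (Finset V)} {N : Set V} {Λ : V → Set (Finset V)} (hL : Cx L)
    (hN : ∀ s ∈ L, ∀ w ∈ N, w ∉ s) (hΛ : ∀ w ∈ N, Cx (Λ w)) (hsub : ∀ w ∈ N, Λ w ⊆ L)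
    (hc : ∀ w ∈ N, Ctr (R (Λ w))) (hLc : Ctr (R L)) : Ctr (R (addV L N Λ)) := by
  classical
  have hX : Cx (addV L N Λ) := cx_addV hL hΛ fun w hw => (hsub w hw).trans subset_union_left
  let cone : V → Set (Finset V) := fun w => {t | t.Nonempty ∧ ∃ u ∈ Λ w, ∀ v ∈ t, v = w ∨ v ∈ u}
  have hcone_sub : ∀ w ∈ N, cone w ⊆ addV L N Λ := by
    rintro w hw t ⟨hne, u, hu, h⟩
    refine hX.2 (insert w u) (Or.inr ⟨w, hw, by simp, u, hu, fun v hv => by simpa using hv⟩) t
      (fun v hv => by simpa using h v hv) hne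
  have hcone_ctr : ∀ w ∈ N, Ctr (R (cone w)) := by
    intro w hw
    obtain ⟨u₀, hu₀⟩ := nonempty_of_ctr (hc w hw)
    refine ctr_cone ⟨fun _ h => h.1, fun s ⟨_, u, hu, h⟩ t ht hne =>
      ⟨hne, u, hu, fun v hv => h v (ht hv)⟩⟩ w ⟨{w}, by simp, u₀, hu₀, by simp⟩ ?_
    rintro s ⟨-, u, hu, h⟩
    exact ⟨insert w u, ⟨by simp, u, hu, fun v hv => by simpa using hv⟩,
      fun v hv => by simpa using h v hv, by simp⟩
  -- generic description of the carriers
  let car : (V → Set (Finset V)) → Finset V → Set (Finset V) := fun Γ s =>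
    {t | (s ∈ L ∧ t ∈ spx s) ∨ ∃ w ∈ N, w ∈ s ∧ t ∈ Γ w}
  have car1 : ∀ Γ, ∀ s ∈ L, car Γ s = spx s := by
    intro Γ s hs
    ext t
    exact ⟨fun h => h.elim (fun h => h.2) fun ⟨w, hw, hws, _⟩ => absurd hws (hN s hs w hw),
      fun h => Or.inl ⟨hs, h⟩⟩
  have car2 : ∀ Γ, ∀ s : Finset V, ∀ w ∈ N, w ∈ s → (∃ t ∈ Λ w, ∀ v ∈ s, v = w ∨ v ∈ t) →
      car Γ s = Γ w := by
    rintro Γ s w hw hws ⟨t, ht, h⟩
    ext t'
    refine ⟨fun h' => h'.elim (fun h' => absurd hws (hN s h'.1 w hw)) ?_,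
      fun h' => Or.inr ⟨w, hw, hws, h'⟩⟩
    rintro ⟨w', hw', hws', h''⟩
    rcases h w' hws' with rfl | h3
    · exact h''
    · exact absurd h3 (hN t (hsub w hw ht) w' hw')
  have carmono : ∀ Γ : V → Set (Finset V), (∀ w ∈ N, Λ w ⊆ Γ w) →
      ∀ s ∈ addV L N Λ, ∀ t, t ⊆ s → t.Nonempty → car Γ t ⊆ car Γ s := by
    rintro Γ hΓ s hs t hts hne t' (⟨h1, h2⟩ | ⟨w, hw, hwt, h⟩)
    · rcases hs with hs | ⟨w, hw, hws, u, hu, h⟩
      · exact Or.inl ⟨hs, spx_mono hts h2⟩
      · refine Or.inr ⟨w, hw, hws, hΓ w hw ((hΛ w hw).2 u hu t' (fun v hv => ?_) h2.1)⟩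
        rcases h v (hts (h2.2 hv)) with rfl | h'
        · exact absurd (h2.2 hv) (hN t h1 _ hw)
        · exact h'
    · exact Or.inr ⟨w, hw, hts hwt, h⟩
  have hΛcone : ∀ w ∈ N, Λ w ⊆ cone w := fun w hw t ht =>
    ⟨(hΛ w hw).1 t ht, t, ht, fun _ hv => Or.inr hv⟩
  refine transfer hX hL (car Λ) spx (car cone) ?_ (carmono Λ fun _ _ => subset_rfl) ?_
    (fun s hs => (spx_subset hL hs).trans subset_union_left) (fun s _ t ht _ => spx_mono ht)
    (fun s hs => ctr_spx (hL.1 s hs)) ?_ (carmono cone hΛcone) ?_ ?_ ?_ hLc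
  · rintro s (hs | ⟨w, hw, hws, h⟩)
    · rw [car1 _ s hs]; exact spx_subset hL hs
    · rw [car2 _ s w hw hws h]; exact hsub w hw
  · rintro s (hs | ⟨w, hw, hws, h⟩)
    · rw [car1 _ s hs]; exact ctr_spx (hL.1 s hs)
    · rw [car2 _ s w hw hws h]; exact hc w hw
  · rintro s (hs | ⟨w, hw, hws, h⟩)
    · rw [car1 _ s hs]; exact (spx_subset hL hs).trans subset_union_left
    · rw [car2 _ s w hw hws h]; exact hcone_sub w hw
  · rintro s (hs | ⟨w, hw, hws, h⟩)
    · rw [car1 _ s hs]; exact ctr_spx (hL.1 s hs)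
    · rw [car2 _ s w hw hws h]; exact hcone_ctr w hw
  · rintro s (hs | ⟨w, hw, hws, h⟩)
    · rw [car1 _ s hs]; exact ⟨hL.1 s hs, subset_rfl⟩
    · rw [car2 _ s w hw hws h]; exact ⟨⟨w, hws⟩, h⟩
  · rintro s (hs | ⟨w, hw, hws, h⟩) t ht
    · rw [car1 _ s hs] at ht ⊢; exact spx_mono ht.2
    · rw [car2 _ s w hw hws h] at ht ⊢
      exact (spx_subset (hΛ w hw) ht).trans (hΛcone w hw)

lemma ctr_tower {L : Set (Finset V)} {N : Set V} {Λ : V → Set (Finset V)} (hL : Cx L)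
    (hN : ∀ s ∈ L, ∀ w ∈ N, w ∉ s) (hΛ : ∀ w ∈ N, Cx (Λ w))
    (hsub : ∀ w ∈ N, Λ w ⊆ addV L N Λ) (ht : V → ℕ)
    (hht : ∀ w ∈ N, ∀ t ∈ Λ w, ∀ u ∈ t, u ∈ N → ht u < ht w)
    (hc : ∀ w ∈ N, Ctr (R (Λ w))) (hLc : Ctr (R L)) : Ctr (R (addV L N Λ)) := by
  let X : ℕ → Set (Finset V) := fun j => addV L {w | w ∈ N ∧ ht w < j} Λ
  have hmono : Monotone X := by
    rintro i j hij s (hs | ⟨w, hw, h⟩)
    · exact Or.inl hs
    · exact Or.inr ⟨w, ⟨hw.1, hw.2.trans_le hij⟩, h⟩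
  have hΛX : ∀ w ∈ N, Λ w ⊆ X (ht w) := by
    intro w hw t htw
    rcases hsub w hw htw with h | ⟨w', hw', hw't, h⟩
    · exact Or.inl h
    · exact Or.inr ⟨w', ⟨hw', hht w hw t htw w' hw't hw'⟩, hw't, h⟩
  have hcx : ∀ j, Cx (X j) := fun j =>
    cx_addV hL (fun w hw => hΛ w hw.1) fun w hw => (hΛX w hw.1).trans (hmono hw.2.le)
  have hU : addV L N Λ = ⋃ j, X j := by
    ext s
    simp only [mem_iUnion]
    constructor
    · rintro (hs | ⟨w, hw, h⟩)
      · exact ⟨0, Or.inl hs⟩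
      · exact ⟨ht w + 1, Or.inr ⟨w, ⟨hw, Nat.lt_succ_self _⟩, h⟩⟩
    · rintro ⟨j, hs | ⟨w, hw, h⟩⟩
      · exact Or.inl hs
      · exact Or.inr ⟨w, hw.1, h⟩
  rw [hU]
  refine ctr_union hcx hmono fun j => ?_
  induction j with
  | zero =>
    have : X 0 = L := by
      ext s
      exact ⟨fun h => h.elim id fun ⟨w, hw, _⟩ => absurd hw.2 (Nat.not_lt_zero _), Or.inl⟩
    rwa [this]
  | succ j ih =>
    have : X (j + 1) = addV (X j) {w | w ∈ N ∧ ht w = j} Λ := by
      ext s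
      constructor
      · rintro (hs | ⟨w, hw, h⟩)
        · exact Or.inl (Or.inl hs)
        · rcases Nat.lt_succ_iff_lt_or_eq.1 hw.2 with h' | h'
          · exact Or.inl (Or.inr ⟨w, ⟨hw.1, h'⟩, h⟩)
          · exact Or.inr ⟨w, ⟨hw.1, h'⟩, h⟩
      · rintro (hs | ⟨w, hw, h⟩)
        · exact hmono (Nat.le_succ j) hs
        · exact Or.inr ⟨w, ⟨hw.1, hw.2 ▸ Nat.lt_succ_self _⟩, h⟩
    rw [this]
    refine ctr_addV (hcx j) ?_ (fun w hw => hΛ w hw.1) (fun w hw => hw.2 ▸ hΛX w hw.1)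
      (fun w hw => hc w hw.1) ih
    rintro s (hs | ⟨w', hw', -, t, htw, h⟩) w hw hws
    · exact hN s hs w hw.1 hws
    · have h1 := hw.2
      have h2 := hw'.2
      rcases h w hws with rfl | h'
      · omega
      · have := hht w' hw'.1 t htw w h' hw.1
        omega

/-- the path complex -/
def pathC (l : ℕ) (π : ℕ → V) : Set (Finset V) :=
  {s | s.Nonempty ∧ ∃ j < l, ∀ v ∈ s, v = π j ∨ v = π (j + 1)}

lemma cx_pathC (l : ℕ) (π : ℕ → V) : Cx (pathC l π) :=
  ⟨fun _ h => h.1, fun _ ⟨_, j, hj, h⟩ _ ht hne => ⟨hne, j, hj, fun v hv => h v (ht hv)⟩⟩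

lemma ctr_pathC (l : ℕ) (π : ℕ → V) (hinj : ∀ i ≤ l + 1, ∀ j ≤ l + 1, π i = π j → i = j) :
    Ctr (R (pathC (l + 1) π)) := by
  classical
  induction l with
  | zero =>
    refine ctr_cone (cx_pathC _ _) (π 0) ⟨{π 0}, by simp, 0, by omega, by simp⟩ ?_
    rintro s ⟨-, j, hj, h⟩
    obtain rfl : j = 0 := by omega
    exact ⟨{π 0, π 1}, ⟨by simp, 0, by omega, by simp⟩, fun v hv => by simpa using h v hv, by simp⟩
  | succ l ih =>
    refine ctr_retract (cx_pathC _ _) (cx_pathC (l + 1) π)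
      (fun s ⟨h1, j, hj, h⟩ => ⟨h1, j, by omega, h⟩)
      (fun v => if v = π (l + 2) then π (l + 1) else v) ?_ ?_
      (ih fun i hi j hj => hinj i (by omega) j (by omega))
    · rintro s ⟨-, j, hj, h⟩
      by_cases hjl : j = l + 1
      · subst hjl
        refine ⟨{π (l + 1)}, ⟨by simp, l, by omega, by simp⟩, fun v hv => ?_⟩
        split_ifs with h'
        · simp
        · rcases h v hv with h'' | h''
          · simp [h'']
          · exact absurd h'' h'
      · refine ⟨{π j, π (j + 1)}, ⟨by simp, j, by omega, by simp⟩, fun v hv => ?_⟩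
        have : v ≠ π (l + 2) := by
          rintro rfl
          rcases h _ hv with h' | h'
          · have := hinj _ (by omega) _ (by omega) h'; omega
          · have := hinj _ (by omega) _ (by omega) h'; omega
        simpa [this] using h v hv
    · rintro s ⟨-, j, hj, h⟩
      refine ⟨{π j, π (j + 1)}, ⟨by simp, j, hj, by simp⟩, fun v hv => by simpa using h v hv,
        fun v hv => ?_⟩
      split_ifs with h'
      · subst h'
        rcases h _ hv with h' | h'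
        · have := hinj _ (by omega) _ (by omega) h'; omega
        · have := hinj _ (by omega) _ (by omega) h'
          obtain rfl : j = l + 1 := by omega
          simp
      · simpa using h v hv

lemma ctr_pathC_two (π : ℕ → V) : Ctr (R (pathC 2 π)) := by
  classical
  refine ctr_cone (cx_pathC _ _) (π 1) ⟨{π 1}, by simp, 0, by omega, by simp⟩ ?_
  rintro s ⟨-, j, hj, h⟩
  refine ⟨{π j, π (j + 1)}, ⟨by simp, j, hj, by simp⟩, fun v hv => by simpa using h v hv, ?_⟩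
  interval_cases j <;> simp

def Vert (L : Set (Finset V)) (v : V) : Prop := ∃ s ∈ L, v ∈ s

def Edge (L : Set (Finset V)) (u w : V) : Prop := u ≠ w ∧ ∃ s ∈ L, u ∈ s ∧ w ∈ s

lemma Edge.symm {L : Set (Finset V)} {u w : V} (h : Edge L u w) : Edge L w u :=
  ⟨h.1.symm, let ⟨s, hs, h1, h2⟩ := h.2; ⟨s, hs, h2, h1⟩⟩

lemma Edge.left {L : Set (Finset V)} {u w : V} (h : Edge L u w) : Vert L u :=
  let ⟨s, hs, h1, _⟩ := h.2; ⟨s, hs, h1⟩

lemma Edge.right {L : Set (Finset V)} {u w : V} (h : Edge L u w) : Vert L w := h.symm.left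

lemma Edge.mono {L L' : Set (Finset V)} (hL : L ⊆ L') {u w : V} (h : Edge L u w) : Edge L' u w :=
  ⟨h.1, let ⟨s, hs, h1⟩ := h.2; ⟨s, hL hs, h1⟩⟩

lemma Vert.mono {L L' : Set (Finset V)} (hL : L ⊆ L') {u : V} (h : Vert L u) : Vert L' u :=
  let ⟨s, hs, h1⟩ := h; ⟨s, hL hs, h1⟩

lemma Edge.mem {L : Set (Finset V)} (hL : Cx L) {u w : V} (h : Edge L u w) {t : Finset V}
    (hne : t.Nonempty) (ht : ∀ v ∈ t, v = u ∨ v = w) : t ∈ L := by
  obtain ⟨s, hs, h1, h2⟩ := h.2
  refine hL.2 s hs t (fun v hv => ?_) hne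
  rcases ht v hv with rfl | rfl <;> assumption

lemma reach_of_ctr {L : Set (Finset V)} (hL : Cx L) (hc : Ctr (R L)) {u w : V} (hu : Vert L u)
    (hw : Vert L w) : Relation.ReflTransGen (Edge L) u w := by
  classical
  let A : Set (Finset V) := {s | s ∈ L ∧ ∀ v ∈ s, Relation.ReflTransGen (Edge L) u v}
  let B : Set (Finset V) := {s | s ∈ L ∧ ∀ v ∈ s, ¬ Relation.ReflTransGen (Edge L) u v}
  have hA : Cx A := ⟨fun s h => hL.1 s h.1,
    fun s h t ht hne => ⟨hL.2 s h.1 t ht hne, fun v hv => h.2 v (ht hv)⟩⟩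
  have hB : Cx B := ⟨fun s h => hL.1 s h.1,
    fun s h t ht hne => ⟨hL.2 s h.1 t ht hne, fun v hv => h.2 v (ht hv)⟩⟩
  have hAB : ∀ s ∈ L, s ∈ A ∨ s ∈ B := by
    intro s hs
    by_cases h : ∃ v ∈ s, Relation.ReflTransGen (Edge L) u v
    · obtain ⟨v, hv, h⟩ := h
      refine Or.inl ⟨hs, fun v' hv' => ?_⟩
      by_cases hvv : v = v'
      · exact hvv ▸ h
      · exact h.tail ⟨hvv, s, hs, hv, hv'⟩
    · exact Or.inr ⟨hs, fun v hv h' => h ⟨v, hv, h'⟩⟩
  have hdisj : ∀ p, p ∈ R A → p ∈ R B → False := by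
    rintro p ⟨s, hs, hp⟩ ⟨t, ht, hp'⟩
    obtain ⟨v, hv⟩ := nonempty_of_mem_cw (mem_cw_supp hp)
    exact ht.2 v (supp_subset hp' hv) (hs.2 v (supp_subset hp hv))
  have hpre : IsPreconnected (R L) := by
    have := ctr_iff.1 hc
    exact isPreconnected_iff_preconnectedSpace.2 inferInstance
  have := isPreconnected_iff_subset_of_disjoint_closed.1 hpre (R A) (R B) (isClosed_R hA)
    (isClosed_R hB) (fun p ⟨s, hs, hp⟩ => (hAB s hs).imp (fun h => ⟨s, h, hp⟩) fun h => ⟨s, h, hp⟩)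
    (eq_empty_of_forall_notMem fun p hp => hdisj p hp.2.1 hp.2.2)
  obtain ⟨s, hs, hus⟩ := hu
  obtain ⟨t, ht, hwt⟩ := hw
  have hsA : s ∈ A := (hAB s hs).resolve_right fun h => h.2 u hus Relation.ReflTransGen.refl
  rcases this with h | h
  · rcases hAB t ht with h' | h'
    · exact h'.2 w hwt
    · exact (hdisj _ (h ⟨t, ht, pt_mem hwt⟩) ⟨t, h', pt_mem hwt⟩).elim
  · exact (hdisj _ ⟨s, hsA, pt_mem hus⟩ (h ⟨s, hs, pt_mem hus⟩)).elim

lemma exists_path {r : V → V → Prop} {u w : V} (h : Relation.ReflTransGen r u w) :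
    ∃ (m : ℕ) (p : ℕ → V), p 0 = u ∧ (∀ i < m, r (p i) (p (i + 1))) ∧ ∀ i, m ≤ i → p i = w := by
  induction h with
  | refl => exact ⟨0, fun _ => u, rfl, fun i hi => absurd hi (Nat.not_lt_zero _), fun _ _ => rfl⟩
  | @tail b c _ hbc ih =>
    obtain ⟨m, p, h0, h1, h2⟩ := ih
    refine ⟨m + 1, fun i => if i ≤ m then p i else c, by simp [h0], fun i hi => ?_,
      fun i hi => if_neg (by omega)⟩
    by_cases him : i = m
    · subst him
      simpa [h2 i le_rfl] using hbc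
    · have h3 : i ≤ m := by omega
      have h4 : i + 1 ≤ m := by omega
      simpa [h3, h4] using h1 i (by omega)

/-- coded barycentric subdivision -/
def sdC {Ω : Type*} (dec : Ω → Finset V) (Can : Set Ω) (K : Set (Finset V)) : Set (Finset Ω) :=
  {S | S.Nonempty ∧ (∀ a ∈ S, a ∈ Can ∧ dec a ∈ K) ∧
    ∀ a ∈ S, ∀ b ∈ S, dec a ⊆ dec b ∨ dec b ⊆ dec a}

lemma cx_sdC {Ω : Type*} (dec : Ω → Finset V) (Can : Set Ω) (K : Set (Finset V)) :
    Cx (sdC dec Can K) :=
  ⟨fun _ h => h.1, fun _ h _ ht hne =>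
    ⟨hne, fun a ha => h.2.1 a (ht ha), fun a ha b hb => h.2.2 a (ht ha) b (ht hb)⟩⟩

lemma sdC_max {Ω : Type*} {dec : Ω → Finset V} {Can : Set Ω} {K : Set (Finset V)} {S : Finset Ω}
    (h : S ∈ sdC dec Can K) : ∃ a ∈ S, ∀ b ∈ S, dec b ⊆ dec a := by
  obtain ⟨a, ha, hmax⟩ := S.exists_max_image (fun a => (dec a).card) h.1
  refine ⟨a, ha, fun b hb => ?_⟩
  rcases h.2.2 a ha b hb with h' | h'
  · exact (Finset.eq_of_subset_of_card_le h' (hmax b hb)).ge
  · exact h'

lemma ctr_sdC {Ω : Type*} {dec : Ω → Finset V} {Can : Set Ω} {K : Set (Finset V)} (hK : Cx K)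
    (hsurj : ∀ s ∈ K, ∃ a ∈ Can, dec a = s) (hc : Ctr (R K)) : Ctr (R (sdC dec Can K)) := by
  classical
  have hX := cx_sdC dec Can K
  have hcone : ∀ s ∈ K, Ctr (R (sdC dec Can (spx s))) := by
    intro s hs
    obtain ⟨a, ha, rfl⟩ := hsurj s hs
    have hs' : dec a ∈ spx (dec a) := ⟨hK.1 _ hs, subset_rfl⟩
    refine ctr_cone (cx_sdC _ _ _) a ⟨{a}, by simp, by simpa using ⟨ha, hs'⟩, by simp⟩ ?_
    intro S hS
    refine ⟨insert a S, ⟨by simp, ?_, ?_⟩, Finset.subset_insert _ _, by simp⟩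
    · intro b hb
      rcases Finset.mem_insert.1 hb with rfl | hb
      · exact ⟨ha, hs'⟩
      · exact hS.2.1 b hb
    · intro b hb c hc
      rcases Finset.mem_insert.1 hb with hb' | hb'
      · rcases Finset.mem_insert.1 hc with hc' | hc'
        · rw [hb', hc']; exact Or.inl subset_rfl
        · rw [hb']; exact Or.inr (hS.2.1 c hc').2.2
      · rcases Finset.mem_insert.1 hc with hc' | hc'
        · rw [hc']; exact Or.inl (hS.2.1 b hb').2.2
        · exact hS.2.2 b hb' c hc'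
  have hmono : ∀ {K₁ K₂ : Set (Finset V)}, K₁ ⊆ K₂ → sdC dec Can K₁ ⊆ sdC dec Can K₂ :=
    fun h S hS => ⟨hS.1, fun a ha => ⟨(hS.2.1 a ha).1, h (hS.2.1 a ha).2⟩, hS.2.2⟩
  have hsup : ∀ S ∈ sdC dec Can K, S.biUnion dec ∈ K := by
    intro S hS
    obtain ⟨a, ha, h⟩ := sdC_max hS
    have : S.biUnion dec = dec a :=
      subset_antisymm (Finset.biUnion_subset.2 h) (Finset.subset_biUnion_of_mem dec ha)
    rw [this]; exact (hS.2.1 a ha).2
  refine transfer hX hK (fun S => spx (S.biUnion dec)) (fun s => sdC dec Can (spx s))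
    (fun S => sdC dec Can (spx (S.biUnion dec))) (fun S hS => spx_subset hK (hsup S hS))
    (fun S _ T hT _ => spx_mono (Finset.biUnion_subset_biUnion_of_subset_left _ hT))
    (fun S hS => ctr_spx (hK.1 _ (hsup S hS))) (fun s hs => hmono (spx_subset hK hs))
    (fun s _ t ht _ => hmono (spx_mono ht)) hcone
    (fun S hS => hmono (spx_subset hK (hsup S hS)))
    (fun S _ T hT _ => hmono (spx_mono (Finset.biUnion_subset_biUnion_of_subset_left _ hT)))
    (fun S hS => hcone _ (hsup S hS)) ?_ (fun S _ t ht => hmono (spx_mono ht.2)) hc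
  intro S hS
  exact ⟨hS.1, fun a ha => ⟨(hS.2.1 a ha).1, hK.1 _ (hS.2.1 a ha).2,
    Finset.subset_biUnion_of_mem dec ha⟩, hS.2.2⟩

end Pool.Agent.MP_52c225_lc

end MrgPart3

-- ======== part 4: formerly Pool.Agent.MP_52c225_lc.Fold
section MrgPart4

open Set Topology

namespace Pool.Agent.MP_52c225_lc

universe u
variable {V : Type u}

/-- image complex -/
def imgC {X : Type*} (q : V → X) (L : Set (Finset V)) : Set (Finset X) :=
  {τ | ∃ s ∈ L, (τ : Set X) = q '' s}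

lemma cx_imgC {X : Type*} (q : V → X) {L : Set (Finset V)} (hL : Cx L) : Cx (imgC q L) := by
  classical
  constructor
  · rintro τ ⟨s, hs, h⟩
    obtain ⟨v, hv⟩ := hL.1 s hs
    have : q v ∈ (τ : Set X) := h ▸ mem_image_of_mem q hv
    exact ⟨q v, this⟩
  · rintro τ ⟨s, hs, h⟩ τ' hτ ⟨a, ha⟩
    refine ⟨s.filter fun v => q v ∈ τ', hL.2 s hs _ (Finset.filter_subset _ _) ?_, ?_⟩
    · have : a ∈ q '' s := h ▸ (hτ ha : a ∈ (τ : Set X))
      obtain ⟨v, hv, rfl⟩ := this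
      exact ⟨v, Finset.mem_filter.2 ⟨hv, ha⟩⟩
    · ext b
      simp only [Finset.coe_filter, mem_image, mem_ofPred_eq, Finset.mem_coe]
      constructor
      · intro hb
        have : b ∈ q '' s := h ▸ (hτ hb : b ∈ (τ : Set X))
        obtain ⟨v, hv, rfl⟩ := this
        exact ⟨v, ⟨hv, hb⟩, rfl⟩
      · rintro ⟨v, ⟨-, hv⟩, rfl⟩; exact hv

lemma mem_imgC_of {X : Type*} {q : V → X} {L : Set (Finset V)} (hL : Cx L) {s : Finset V}
    (hs : s ∈ L) {τ : Finset X} (hne : τ.Nonempty) (h : ∀ a ∈ τ, ∃ v ∈ s, q v = a) :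
    τ ∈ imgC q L := by
  classical
  refine (cx_imgC q hL).2 (s.image q) ⟨s, hs, by simp⟩ τ (fun a ha => ?_) hne
  simpa using h a ha

/-- the folding data -/
structure FoldData {X : Type*} (L : Set (Finset V)) (q : V → X) (Rt : Set V) (x : V → V) :
    Prop where
  ha : ∀ v, Vert L v → ∃ r ∈ Rt, Vert L r ∧ q r = q v
  ha' : ∀ r ∈ Rt, ∀ r' ∈ Rt, Vert L r → Vert L r' → q r = q r' → r = r'
  hb : ∀ v, Vert L v → v ∉ Rt → ∀ r ∈ Rt, Vert L r → q r = q v →
    Edge L (x v) v ∧ Edge L (x v) r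
  hc : ∀ u w, Edge L u w → q u ≠ q w
  hd : ∀ u w u' w', Edge L u w → Edge L u' w' → q u = q u' → q w = q w' → u ≠ u' →
    w = w' ∧ ((u ∉ Rt ∧ u' ∈ Rt ∧ w = x u) ∨ (u' ∉ Rt ∧ u ∈ Rt ∧ w = x u'))

theorem ctr_fold {X : Type*} {L : Set (Finset V)} {q : V → X} {Rt : Set V} {x : V → V}
    (hL : Cx L) (D : FoldData L q Rt x) (hLc : Ctr (R L)) : Ctr (R (imgC q L)) := by
  classical
  have hrt : ∀ v, ∃ r, Vert L v → r ∈ Rt ∧ Vert L r ∧ q r = q v := by
    intro v
    by_cases h : Vert L v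
    · obtain ⟨r, h1, h2⟩ := D.ha v h
      exact ⟨r, fun _ => ⟨h1, h2⟩⟩
    · exact ⟨v, fun h' => absurd h' h⟩
  choose rt hrt using hrt
  have hrtR : ∀ v, Vert L v → v ∈ Rt → rt v = v := fun v hv h =>
    D.ha' _ (hrt v hv).1 _ h (hrt v hv).2.1 hv (hrt v hv).2.2
  have hrteq : ∀ v, Vert L v → ∀ r ∈ Rt, Vert L r → q r = q v → r = rt v := fun v hv r h1 h2 h3 =>
    D.ha' _ h1 _ (hrt v hv).1 h2 (hrt v hv).2.1 (h3.trans (hrt v hv).2.2.symm)
  let NR : V → Prop := fun v => Vert L v ∧ v ∉ Rt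
  have hE : ∀ v, NR v → Edge L (x v) v ∧ Edge L (x v) (rt v) := fun v hv =>
    D.hb v hv.1 hv.2 _ (hrt v hv.1).1 (hrt v hv.1).2.1 (hrt v hv.1).2.2
  have hne : ∀ v, NR v → v ≠ rt v := fun v hv h => hv.2 (h ▸ (hrt v hv.1).1)
  let T3 : V → Set (Finset V) := fun v => {t | t.Nonempty ∧ ∀ y ∈ t, y = x v ∨ y = v ∨ y = rt v}
  let P2 : V → Set (Finset V) := fun v =>
    {t | t.Nonempty ∧ ((∀ y ∈ t, y = x v ∨ y = v) ∨ ∀ y ∈ t, y = x v ∨ y = rt v)}
  let L' : Set (Finset V) := L ∪ {s | ∃ v, NR v ∧ s ∈ T3 v}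
  have hT3 : ∀ v, Cx (T3 v) := fun v =>
    ⟨fun _ h => h.1, fun _ h _ ht hne => ⟨hne, fun y hy => h.2 y (ht hy)⟩⟩
  have hP2 : ∀ v, Cx (P2 v) := fun v =>
    ⟨fun _ h => h.1, fun _ h _ ht hne =>
      ⟨hne, h.2.imp (fun h y hy => h y (ht hy)) fun h y hy => h y (ht hy)⟩⟩
  have hL' : Cx L' := ⟨fun s h => h.elim (hL.1 s) fun ⟨v, _, h⟩ => h.1,
    fun s h t ht hne => h.elim (fun h => Or.inl (hL.2 s h t ht hne))
      fun ⟨v, hv, h⟩ => Or.inr ⟨v, hv, (hT3 v).2 s h t ht hne⟩⟩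
  have hP2L : ∀ v, NR v → P2 v ⊆ L := fun v hv t ht =>
    ht.2.elim ((hE v hv).1.mem hL ht.1) ((hE v hv).2.mem hL ht.1)
  have hP2T : ∀ v, P2 v ⊆ T3 v := fun v t ht => ⟨ht.1, fun y hy => by
    rcases ht.2 with h | h <;> rcases h y hy with h | h <;> simp [h]⟩
  have hnot : ∀ s ∈ L, ∀ v, NR v → v ∈ s → rt v ∈ s → False := fun s hs v hv h1 h2 =>
    D.hc _ _ ⟨hne v hv, s, hs, h1, h2⟩ (hrt v hv.1).2.2.symm
  have hT3L : ∀ v, NR v → ∀ s ∈ T3 v, ¬ (v ∈ s ∧ rt v ∈ s) → s ∈ P2 v := by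
    intro v hv s hs h
    refine ⟨hs.1, ?_⟩
    by_cases h1 : v ∈ s
    · refine Or.inl fun y hy => ?_
      rcases hs.2 y hy with h' | h' | h'
      · exact Or.inl h'
      · exact Or.inr h'
      · exact absurd ⟨h1, h' ▸ hy⟩ h
    · refine Or.inr fun y hy => ?_
      rcases hs.2 y hy with h' | h' | h'
      · exact Or.inl h'
      · exact absurd (h' ▸ hy) h1
      · exact Or.inr h'
  have hcases : ∀ s ∈ L', s ∈ L ∨ ∃ v, NR v ∧ s ∈ T3 v ∧ v ∈ s ∧ rt v ∈ s := by
    rintro s (hs | ⟨v, hv, hs⟩)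
    · exact Or.inl hs
    · by_cases h : v ∈ s ∧ rt v ∈ s
      · exact Or.inr ⟨v, hv, hs, h⟩
      · exact Or.inl (hP2L v hv (hT3L v hv s hs h))
  have huniq : ∀ v, NR v → ∀ s ∈ T3 v, ∀ v', NR v' → v' ∈ s → rt v' ∈ s → v' = v := by
    intro v hv s hs v' hv' h1 h2
    rcases hs.2 v' h1 with h | h | h
    · exfalso
      have hq : q (rt v') = q (x v) := by rw [(hrt v' hv'.1).2.2, h]
      rcases hs.2 _ h2 with h' | h' | h'
      · exact hne v' hv' (h.trans h'.symm)
      · exact D.hc _ _ (hE v hv).1 (by rw [← hq, h'])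
      · exact D.hc _ _ (hE v hv).2 (by rw [← hq, h'])
    · exact h
    · exact absurd (h ▸ (hrt v hv.1).1) hv'.2
  -- Step 1
  have hL'c : Ctr (R L') := by
    let car : (V → Set (Finset V)) → Finset V → Set (Finset V) := fun Γ s =>
      {t | (s ∈ L ∧ t ∈ spx s) ∨ ∃ v, NR v ∧ v ∈ s ∧ rt v ∈ s ∧ t ∈ Γ v}
    have car1 : ∀ Γ, ∀ s ∈ L, car Γ s = spx s := by
      intro Γ s hs
      ext t
      exact ⟨fun h => h.elim (fun h => h.2) fun ⟨v, hv, h1, h2, _⟩ => (hnot s hs v hv h1 h2).elim,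
        fun h => Or.inl ⟨hs, h⟩⟩
    have car2 : ∀ Γ, ∀ s v, NR v → s ∈ T3 v → v ∈ s → rt v ∈ s → car Γ s = Γ v := by
      intro Γ s v hv hs h1 h2
      ext t
      refine ⟨fun h => h.elim (fun h => (hnot s h.1 v hv h1 h2).elim) ?_,
        fun h => Or.inr ⟨v, hv, h1, h2, h⟩⟩
      rintro ⟨v', hv', h1', h2', h⟩
      rwa [huniq v hv s hs v' hv' h1' h2'] at h
    have carmono : ∀ Γ : V → Set (Finset V), (∀ v, P2 v ⊆ Γ v) →
        ∀ s ∈ L', ∀ t, t ⊆ s → t.Nonempty → car Γ t ⊆ car Γ s := by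
      rintro Γ hΓ s hs t hts hne t' (⟨h1, h2⟩ | ⟨v, hv, h1, h2, h⟩)
      · rcases hcases s hs with hs | ⟨v, hv, hs, h3, h4⟩
        · exact Or.inl ⟨hs, spx_mono hts h2⟩
        · refine Or.inr ⟨v, hv, h3, h4, hΓ v (hT3L v hv t'
            ((hT3 v).2 s hs t' (h2.2.trans hts) h2.1) fun h => ?_)⟩
          exact hnot t h1 v hv (h2.2 h.1) (h2.2 h.2)
      · exact Or.inr ⟨v, hv, hts h1, hts h2, h⟩
    have hP2c : ∀ v, Ctr (R (P2 v)) := by
      intro v
      refine ctr_cone (hP2 v) (x v) ⟨{x v}, by simp, by simp⟩ ?_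
      rintro s ⟨-, h | h⟩
      · exact ⟨{x v, v}, ⟨by simp, Or.inl (by simp)⟩, fun y hy => by simpa using h y hy, by simp⟩
      · exact ⟨{x v, rt v}, ⟨by simp, Or.inr (by simp)⟩, fun y hy => by simpa using h y hy,
          by simp⟩
    have hT3c : ∀ v, Ctr (R (T3 v)) := by
      intro v
      refine ctr_cone (hT3 v) (x v) ⟨{x v}, by simp, by simp⟩ ?_
      rintro s ⟨-, h⟩
      exact ⟨{x v, v, rt v}, ⟨by simp, by simp⟩, fun y hy => by simpa using h y hy, by simp⟩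
    refine transfer hL' hL (car P2) spx (car T3) ?_ (carmono P2 fun _ => subset_rfl) ?_
      (fun s hs => (spx_subset hL hs).trans subset_union_left) (fun s _ t ht _ => spx_mono ht)
      (fun s hs => ctr_spx (hL.1 s hs)) ?_ (carmono T3 hP2T) ?_ ?_ ?_ hLc
    · intro s hs
      rcases hcases s hs with hs | ⟨v, hv, hs, h3, h4⟩
      · rw [car1 _ s hs]; exact spx_subset hL hs
      · rw [car2 _ s v hv hs h3 h4]; exact hP2L v hv
    · intro s hs
      rcases hcases s hs with hs | ⟨v, hv, hs, h3, h4⟩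
      · rw [car1 _ s hs]; exact ctr_spx (hL.1 s hs)
      · rw [car2 _ s v hv hs h3 h4]; exact hP2c v
    · intro s hs
      rcases hcases s hs with hs | ⟨v, hv, hs, h3, h4⟩
      · rw [car1 _ s hs]; exact (spx_subset hL hs).trans subset_union_left
      · rw [car2 _ s v hv hs h3 h4]; exact fun t ht => Or.inr ⟨v, hv, ht⟩
    · intro s hs
      rcases hcases s hs with hs | ⟨v, hv, hs, h3, h4⟩
      · rw [car1 _ s hs]; exact ctr_spx (hL.1 s hs)
      · rw [car2 _ s v hv hs h3 h4]; exact hT3c v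
    · intro s hs
      rcases hcases s hs with hs | ⟨v, hv, hs, h3, h4⟩
      · rw [car1 _ s hs]; exact ⟨hL.1 s hs, subset_rfl⟩
      · rw [car2 _ s v hv hs h3 h4]; exact hs
    · intro s hs t ht
      rcases hcases s hs with hs | ⟨v, hv, hs, h3, h4⟩
      · rw [car1 _ s hs] at ht ⊢; exact spx_mono ht.2
      · rw [car2 _ s v hv hs h3 h4] at ht ⊢
        exact (spx_subset (hP2 v) ht).trans (hP2T v)
  -- Step 2: fibres
  have hvert : ∀ s ∈ L', ∀ y ∈ s, Vert L y := by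
    rintro s (hs | ⟨v, hv, hs⟩) y hy
    · exact ⟨s, hs, hy⟩
    · rcases hs.2 y hy with rfl | rfl | rfl
      · exact (hE v hv).1.left
      · exact hv.1
      · exact (hrt v hv.1).2.1
  let P : Finset X → Set (Finset V) := fun τ => {s | s ∈ L' ∧ ∀ y ∈ s, q y ∈ τ}
  have hPc : ∀ τ ∈ imgC q L, Ctr (R (P τ)) := by
    rintro τ ⟨σ, hσ, hτ⟩
    have hP : Cx (P τ) := ⟨fun s h => hL'.1 s h.1,
      fun s h t ht hne => ⟨hL'.2 s h.1 t ht hne, fun y hy => h.2 y (ht hy)⟩⟩
    have ho : ∀ y, ∃ z, q y ∈ τ → z ∈ σ ∧ q z = q y := by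
      intro y
      by_cases h : q y ∈ τ
      · have : q y ∈ q '' σ := hτ ▸ (h : q y ∈ (τ : Set X))
        obtain ⟨z, hz, h'⟩ := this
        exact ⟨z, fun _ => ⟨hz, h'⟩⟩
      · exact ⟨y, fun h' => absurd h' h⟩
    choose o ho using ho
    have hσq : ∀ y ∈ σ, q y ∈ τ := fun y hy =>
      show q y ∈ (τ : Set X) from hτ ▸ mem_image_of_mem q hy
    have hoσ : ∀ y ∈ σ, o y = y := by
      intro y hy
      by_contra h
      exact D.hc _ _ ⟨h, σ, hσ, (ho y (hσq y hy)).1, hy⟩ (ho y (hσq y hy)).2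
    -- key local analysis
    have key : ∀ y z, Edge L y z → q y ∈ τ → q z ∈ τ → y ≠ o y →
        z = o z ∧ ((y ∉ Rt ∧ o y ∈ Rt ∧ z = x y) ∨ (o y ∉ Rt ∧ y ∈ Rt ∧ z = x (o y))) := by
      intro y z hyz hy hz hne'
      have h1 : o y ≠ o z := fun h =>
        D.hc _ _ hyz (by rw [← (ho y hy).2, ← (ho z hz).2, h])
      exact D.hd y z (o y) (o z) hyz ⟨h1, σ, hσ, (ho y hy).1, (ho z hz).1⟩ (ho y hy).2.symm
        (ho z hz).2.symm hne'
    have keyx : ∀ v, NR v → q v ∈ τ → q (x v) ∈ τ → x v ∈ σ := by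
      intro v hv h1 h2
      by_cases h : v = o v
      · have h3 : q (rt v) ∈ τ := by rw [(hrt v hv.1).2.2]; exact h1
        have h4 : o (rt v) = o v := by
          by_contra h5
          exact D.hc _ _ ⟨h5, σ, hσ, (ho _ h3).1, (ho _ h1).1⟩
            (by rw [(ho _ h3).2, (ho _ h1).2, (hrt v hv.1).2.2])
        have := (key _ _ (hE v hv).2.symm h3 h2 (by rw [h4, ← h]; exact (hne v hv).symm)).1
        rw [this]; exact (ho _ h2).1
      · have := (key _ _ (hE v hv).1.symm h1 h2 h).1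
        rw [this]; exact (ho _ h2).1
    let P1 : Set (Finset V) := {s | s ∈ P τ ∧ ∀ y ∈ s, y ∈ σ ∨ y ∈ Rt}
    have hP1 : Cx P1 := ⟨fun s h => hP.1 s h.1,
      fun s h t ht hne => ⟨hP.2 s h.1 t ht hne, fun y hy => h.2 y (ht hy)⟩⟩
    have hP1c : Ctr (R P1) := by
      refine ctr_retract hP1 (cx_spx σ)
        (fun t ht => ⟨⟨Or.inl (spx_subset hL hσ ht), fun y hy => hσq y (ht.2 hy)⟩,
          fun y hy => Or.inl (ht.2 hy)⟩) o
        (fun s hs => ⟨σ, ⟨hL.1 σ hσ, subset_rfl⟩, fun v hv => (ho v (hs.1.2 v hv)).1⟩) ?_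
        (ctr_spx (hL.1 σ hσ))
      intro s hs
      have hmain : ∃ u ∈ L', s ⊆ u ∧ ∀ v ∈ s, o v ∈ u := by
        by_cases hall : ∀ y ∈ s, y ∈ σ
        · exact ⟨σ, Or.inl hσ, hall, fun v hv => (ho v (hs.1.2 v hv)).1⟩
        push Not at hall
        obtain ⟨y, hy, hyσ⟩ := hall
        have hyR : y ∈ Rt := (hs.2 y hy).resolve_left hyσ
        have hyq := hs.1.2 y hy
        have hyo : y ≠ o y := fun h => hyσ (h ▸ (ho y hyq).1)
        have hoV : Vert L (o y) := ⟨σ, hσ, (ho y hyq).1⟩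
        have hrty : rt (o y) = y :=
          (hrteq _ hoV y hyR (hvert s hs.1.1 y hy) (ho y hyq).2.symm).symm
        have hoNR : NR (o y) := ⟨hoV, fun h => hyo (by rw [← hrtR _ hoV h, hrty])⟩
        rcases hcases s hs.1.1 with hsL | ⟨v, hv, hsT, h3, h4⟩
        · refine ⟨{x (o y), o y, rt (o y)}, Or.inr ⟨o y, hoNR, by simp, by simp⟩, ?_, ?_⟩
          · intro z hz
            by_cases hzy : y = z
            · simp [← hzy, hrty]
            · rcases (key y z ⟨hzy, s, hsL, hy, hz⟩ hyq (hs.1.2 z hz) hyo).2 with h | h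
              · exact absurd hyR h.1
              · simp [h.2.2]
          · intro z hz
            by_cases hzy : y = z
            · simp [← hzy]
            · obtain ⟨h1, h | h⟩ := key y z ⟨hzy, s, hsL, hy, hz⟩ hyq (hs.1.2 z hz) hyo
              · exact absurd hyR h.1
              · rw [← h1]; simp [h.2.2]
        · have hvσ : v ∈ σ := (hs.2 v h3).resolve_right hv.2
          refine ⟨s, hs.1.1, subset_rfl, fun z hz => ?_⟩
          rcases hsT.2 z hz with rfl | rfl | rfl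
          · rw [hoσ _ (keyx v hv (hs.1.2 v h3) (hs.1.2 _ hz))]; exact hz
          · rw [hoσ _ hvσ]; exact hz
          · have : o (rt v) = v := by
              by_contra h5
              exact D.hc _ _ ⟨h5, σ, hσ, (ho _ (hs.1.2 _ hz)).1, hvσ⟩
                (by rw [(ho _ (hs.1.2 _ hz)).2, (hrt v hv.1).2.2])
            rw [this]; exact h3
      obtain ⟨u, hu, h1, h2⟩ := hmain
      refine ⟨s ∪ s.image o, ⟨⟨hL'.2 u hu _ (Finset.union_subset h1 (Finset.image_subset_iff.2 h2))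
        ((hP1.1 s hs).mono Finset.subset_union_left), ?_⟩, ?_⟩, Finset.subset_union_left,
        fun v hv => Finset.mem_union_right _ (Finset.mem_image_of_mem _ hv)⟩
      · intro y hy
        rcases Finset.mem_union.1 hy with hy | hy
        · exact hs.1.2 y hy
        · obtain ⟨z, hz, rfl⟩ := Finset.mem_image.1 hy
          rw [(ho z (hs.1.2 z hz)).2]; exact hs.1.2 z hz
      · intro y hy
        rcases Finset.mem_union.1 hy with hy | hy
        · exact hs.2 y hy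
        · obtain ⟨z, hz, rfl⟩ := Finset.mem_image.1 hy
          exact Or.inl (ho z (hs.1.2 z hz)).1
    let r : V → V := fun y => if y ∈ σ then y else rt y
    have hmain : ∀ s ∈ P τ, s ∪ s.image r ∈ P τ := by
      intro s hs
      have hmain : ∃ u ∈ L', s ⊆ u ∧ ∀ v ∈ s, r v ∈ u := by
        by_cases hall : ∀ y ∈ s, y ∈ σ ∨ y ∈ Rt
        · refine ⟨s, hs.1, subset_rfl, fun v hv => ?_⟩
          by_cases h : v ∈ σ
          · simpa [r, h] using hv
          · simp only [r, h, if_false]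
            rw [hrtR v (hvert s hs.1 v hv) ((hall v hv).resolve_left h)]; exact hv
        push Not at hall
        obtain ⟨y, hy, hyσ, hyR⟩ := hall
        have hyq := hs.2 y hy
        have hyo : y ≠ o y := fun h => hyσ (h ▸ (ho y hyq).1)
        have hyNR : NR y := ⟨hvert s hs.1 y hy, hyR⟩
        rcases hcases s hs.1 with hsL | ⟨v, hv, hsT, h3, h4⟩
        · refine ⟨{x y, y, rt y}, Or.inr ⟨y, hyNR, by simp, by simp⟩, ?_, ?_⟩
          · intro z hz
            by_cases hzy : y = z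
            · simp [← hzy]
            · rcases (key y z ⟨hzy, s, hsL, hy, hz⟩ hyq (hs.2 z hz) hyo).2 with h | h
              · simp [h.2.2]
              · exact absurd h.2.1 hyR
          · intro z hz
            by_cases hzy : y = z
            · simp [← hzy, r, hyσ]
            · obtain ⟨h1, h | h⟩ := key y z ⟨hzy, s, hsL, hy, hz⟩ hyq (hs.2 z hz) hyo
              · have : z ∈ σ := h1 ▸ (ho z (hs.2 z hz)).1
                simp only [r, this, if_true]
                simp [h.2.2]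
              · exact absurd h.2.1 hyR
        · refine ⟨s, hs.1, subset_rfl, fun z hz => ?_⟩
          by_cases h : z ∈ σ
          · simpa [r, h] using hz
          · simp only [r, h, if_false]
            rcases hsT.2 z hz with rfl | rfl | rfl
            · exact absurd (keyx v hv (hs.2 v h3) (hs.2 _ hz)) h
            · exact h4
            · rw [hrtR _ (hrt v hv.1).2.1 (hrt v hv.1).1]; exact hz
      obtain ⟨u, hu, h1, h2⟩ := hmain
      refine ⟨hL'.2 u hu _ (Finset.union_subset h1 (Finset.image_subset_iff.2 h2))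
        ((hP.1 s hs).mono Finset.subset_union_left), fun y hy => ?_⟩
      rcases Finset.mem_union.1 hy with hy | hy
      · exact hs.2 y hy
      · obtain ⟨z, hz, rfl⟩ := Finset.mem_image.1 hy
        by_cases h : z ∈ σ
        · simpa [r, h] using hs.2 z hz
        · simp only [r, h, if_false]
          rw [(hrt z (hvert s hs.1 z hz)).2.2]; exact hs.2 z hz
    refine ctr_retract hP hP1 (fun s h => h.1) r (fun s hs => ⟨s.image r,
      ⟨hP.2 _ (hmain s hs) _ Finset.subset_union_right ((hP.1 s hs).image _), fun y hy => ?_⟩,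
      fun v hv => Finset.mem_image_of_mem _ hv⟩)
      (fun s hs => ⟨_, hmain s hs, Finset.subset_union_left,
        fun v hv => Finset.mem_union_right _ (Finset.mem_image_of_mem _ hv)⟩) hP1c
    obtain ⟨z, hz, rfl⟩ := Finset.mem_image.1 hy
    by_cases h : z ∈ σ
    · left; simp [r, h]
    · right
      simp only [r, h, if_false]
      exact (hrt z (hvert s hs.1 z hz)).1
  have hM := cx_imgC q hL
  refine transfer hM hL' P (fun s => spx (s.image q)) spx (fun τ _ s hs => hs.1)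
    (fun τ _ τ' h _ s hs => ⟨hs.1, fun y hy => h (hs.2 y hy)⟩) hPc ?_
    (fun s _ t ht _ => spx_mono (Finset.image_subset_image ht))
    (fun s hs => ctr_spx ((hL'.1 s hs).image _)) (fun τ hτ => spx_subset hM hτ)
    (fun s _ t ht _ => spx_mono ht) (fun τ hτ => ctr_spx (hM.1 τ hτ))
    (fun τ hτ => ⟨hM.1 τ hτ, subset_rfl⟩)
    (fun τ _ s hs => spx_mono (Finset.image_subset_iff.2 hs.2)) hL'c
  intro s hs
  refine spx_subset hM ?_
  rcases hs with hs | ⟨v, hv, hs⟩
  · exact ⟨s, hs, by simp⟩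
  · obtain ⟨t, ht, h1, h2⟩ := (hE v hv).1.2
    refine mem_imgC_of hL ht (hs.1.image _) fun a ha => ?_
    obtain ⟨y, hy, rfl⟩ := Finset.mem_image.1 ha
    rcases hs.2 y hy with rfl | rfl | rfl
    · exact ⟨_, h1, rfl⟩
    · exact ⟨_, h2, rfl⟩
    · exact ⟨_, h2, (hrt v hv.1).2.2.symm⟩

end Pool.Agent.MP_52c225_lc

end MrgPart4

-- marker of a merged file
example : 731051 + 697716 = 731051 + 697716 := rfl
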